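import Pool.Agent.Lib.EJS.Defs

/-!
# Existence of the Jiang-Su algebra: definitions and basic facts

Small matrix toolkit (`kl`, `kr`, `ri`, `bd`), values of elements of dimension drop algebras (`vl`),
construction of elements (`mkD`), and the notion of a diagonal homomorphism with
small eigenvalue variation (`IsDiag`).
-/

open scoped ComplexOrder
open Filter Topology

namespace Pool.Agent.Lib.EJZ

open Pool.Agent.Lib.EJS

/-- square matrices with their C-star norm -/
abbrev CM (S : Type) : Type := CStarMatrix S S ℂ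

section Matrices

variable {S T K : Type} [Fintype S] [DecidableEq S] [Fintype T] [DecidableEq T] [Fintype K]
  [DecidableEq K]

theorem cm_ext {x y : CM S} (h : ∀ a b, x a b = y a b) : x = y := by
  funext a b
  exact h a b

theorem cm_one (a b : S) : (1 : CM S) a b = if a = b then 1 else 0 := rfl

theorem cm_smul (c : ℂ) (x : CM S) (a b : S) : (c • x) a b = c * x a b := rfl

theorem cm_add (x y : CM S) (a b : S) : (x + y) a b = x a b + y a b := rfl

theorem cm_sub (x y : CM S) (a b : S) : (x - y) a b = x a b - y a b := rfl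

theorem cm_zero (a b : S) : (0 : CM S) a b = 0 := rfl

theorem cm_star (x : CM S) (a b : S) : (star x) a b = star (x b a) := rfl

theorem cm_mul (x y : CM S) (a b : S) : (x * y) a b = ∑ c, x a c * y c b := rfl

theorem cm_sum {ι : Type*} (s : Finset ι) (x : ι → CM S) (a b : S) :
    (∑ i ∈ s, x i) a b = ∑ i ∈ s, x i a b := by
  classical
  induction s using Finset.induction_on with
  | empty => simp [cm_zero]
  | insert i s hi ih => rw [Finset.sum_insert hi, Finset.sum_insert hi, cm_add, ih]

/-- matrix units -/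
def Eu (i j : S) : CM S := fun a b => if a = i ∧ b = j then 1 else 0

theorem Eu_apply (i j a b : S) : Eu i j a b = if a = i ∧ b = j then 1 else 0 := rfl

/-- `x ↦ x ⊗ 1`, the function -/
def klF (x : CM S) : CM (S × T) := fun a b => if a.2 = b.2 then x a.1 b.1 else 0

theorem klF_apply (x : CM S) (a b : S × T) :
    (klF x : CM (S × T)) a b = if a.2 = b.2 then x a.1 b.1 else 0 := rfl

/-- `x ↦ x ⊗ 1` -/
def kl : CM S →⋆ₐ[ℂ] CM (S × T) where
  toFun := klF
  map_one' := by
    refine cm_ext fun a b => ?_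
    rw [klF_apply, cm_one]
    by_cases h1 : a.2 = b.2 <;> by_cases h2 : a.1 = b.1 <;> simp [h1, h2, Prod.ext_iff, cm_one]
  map_mul' x y := by
    refine cm_ext fun a b => ?_
    rw [cm_mul, Fintype.sum_prod_type, klF_apply]
    by_cases h : a.2 = b.2
    · rw [if_pos h, cm_mul]
      refine Finset.sum_congr rfl fun c _ => ?_
      rw [Finset.sum_eq_single a.2]
      · simp [klF_apply, h]
      · intro d _ hd
        simp [klF_apply, Ne.symm hd]
      · intro hd; exact absurd (Finset.mem_univ _) hd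
    · rw [if_neg h]
      symm
      refine Finset.sum_eq_zero fun c _ => Finset.sum_eq_zero fun d _ => ?_
      by_cases h1 : a.2 = d
      · subst h1
        simp [klF_apply, h]
      · simp [klF_apply, h1]
  map_zero' := by
    refine cm_ext fun a b => ?_
    simp [klF_apply, cm_zero]
  map_add' x y := by
    refine cm_ext fun a b => ?_
    by_cases h : a.2 = b.2 <;> simp [klF_apply, h, cm_add]
  commutes' r := by
    refine cm_ext fun a b => ?_
    rw [klF_apply, CStarMatrix.algebraMap_apply, CStarMatrix.algebraMap_apply]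
    by_cases h1 : a.2 = b.2 <;> by_cases h2 : a.1 = b.1 <;> simp [h1, h2, Prod.ext_iff]
  map_star' x := by
    refine cm_ext fun a b => ?_
    rw [cm_star, klF_apply, klF_apply]
    by_cases h : a.2 = b.2
    · simp [h, cm_star]
    · simp [h, Ne.symm h]

theorem kl_apply (x : CM S) (a b : S × T) :
    (kl x : CM (S × T)) a b = if a.2 = b.2 then x a.1 b.1 else 0 := rfl

/-- `x ↦ 1 ⊗ x`, the function -/
def krF (x : CM T) : CM (S × T) := fun a b => if a.1 = b.1 then x a.2 b.2 else 0

theorem krF_apply (x : CM T) (a b : S × T) :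
    (krF x : CM (S × T)) a b = if a.1 = b.1 then x a.2 b.2 else 0 := rfl

/-- `x ↦ 1 ⊗ x` -/
def kr : CM T →⋆ₐ[ℂ] CM (S × T) where
  toFun := krF
  map_one' := by
    refine cm_ext fun a b => ?_
    rw [krF_apply, cm_one]
    by_cases h1 : a.2 = b.2 <;> by_cases h2 : a.1 = b.1 <;> simp [h1, h2, Prod.ext_iff, cm_one]
  map_mul' x y := by
    refine cm_ext fun a b => ?_
    rw [cm_mul, Fintype.sum_prod_type_right, krF_apply]
    by_cases h : a.1 = b.1
    · rw [if_pos h, cm_mul]
      refine Finset.sum_congr rfl fun c _ => ?_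
      rw [Finset.sum_eq_single a.1]
      · simp [krF_apply, h]
      · intro d _ hd
        simp [krF_apply, Ne.symm hd]
      · intro hd; exact absurd (Finset.mem_univ _) hd
    · rw [if_neg h]
      symm
      refine Finset.sum_eq_zero fun c _ => Finset.sum_eq_zero fun d _ => ?_
      by_cases h1 : a.1 = d
      · subst h1
        simp [krF_apply, h]
      · simp [krF_apply, h1]
  map_zero' := by
    refine cm_ext fun a b => ?_
    simp [krF_apply, cm_zero]
  map_add' x y := by
    refine cm_ext fun a b => ?_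
    by_cases h : a.1 = b.1 <;> simp [krF_apply, h, cm_add]
  commutes' r := by
    refine cm_ext fun a b => ?_
    rw [krF_apply, CStarMatrix.algebraMap_apply, CStarMatrix.algebraMap_apply]
    by_cases h1 : a.2 = b.2 <;> by_cases h2 : a.1 = b.1 <;> simp [h1, h2, Prod.ext_iff]
  map_star' x := by
    refine cm_ext fun a b => ?_
    rw [cm_star, krF_apply, krF_apply]
    by_cases h : a.1 = b.1
    · simp [h, cm_star]
    · simp [h, Ne.symm h]

theorem kr_apply (x : CM T) (a b : S × T) :
    (kr x : CM (S × T)) a b = if a.1 = b.1 then x a.2 b.2 else 0 := rfl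

/-- reindexing along a bijection -/
def ri (e : T ≃ S) : CM S →⋆ₐ[ℂ] CM T where
  toFun x := fun a b => x (e a) (e b)
  map_one' := by
    refine cm_ext fun a b => ?_
    rw [cm_one, cm_one]
    simp
  map_mul' x y := by
    refine cm_ext fun a b => ?_
    rw [cm_mul, cm_mul]
    exact (e.sum_comp fun c => x (e a) c * y c (e b)).symm
  map_zero' := rfl
  map_add' x y := rfl
  commutes' r := by
    refine cm_ext fun a b => ?_
    rw [CStarMatrix.algebraMap_apply, CStarMatrix.algebraMap_apply]
    simp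
  map_star' x := rfl

theorem ri_apply (e : T ≃ S) (x : CM S) (a b : T) : ri e x a b = x (e a) (e b) := rfl

/-- block diagonal matrices, the function -/
def bdF (x : K → CM S) : CM (S × K) := fun a b => if a.2 = b.2 then x a.2 a.1 b.1 else 0

theorem bdF_apply (x : K → CM S) (a b : S × K) :
    (bdF x : CM (S × K)) a b = if a.2 = b.2 then x a.2 a.1 b.1 else 0 := rfl

/-- block diagonal matrices -/
def bd : (K → CM S) →⋆ₐ[ℂ] CM (S × K) where
  toFun := bdF
  map_one' := by
    refine cm_ext fun a b => ?_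
    rw [bdF_apply, cm_one]
    by_cases h1 : a.2 = b.2 <;> by_cases h2 : a.1 = b.1 <;> simp [h1, h2, Prod.ext_iff, cm_one]
  map_mul' x y := by
    refine cm_ext fun a b => ?_
    rw [cm_mul, Fintype.sum_prod_type, bdF_apply]
    by_cases h : a.2 = b.2
    · rw [if_pos h, Pi.mul_apply, cm_mul]
      refine Finset.sum_congr rfl fun c _ => ?_
      rw [Finset.sum_eq_single a.2]
      · simp [bdF_apply, h]
      · intro d _ hd
        simp [bdF_apply, Ne.symm hd]
      · intro hd; exact absurd (Finset.mem_univ _) hd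
    · rw [if_neg h]
      symm
      refine Finset.sum_eq_zero fun c _ => Finset.sum_eq_zero fun d _ => ?_
      by_cases h1 : a.2 = d
      · subst h1
        simp [bdF_apply, h]
      · simp [bdF_apply, h1]
  map_zero' := by
    refine cm_ext fun a b => ?_
    simp [bdF_apply, cm_zero]
  map_add' x y := by
    refine cm_ext fun a b => ?_
    by_cases h : a.2 = b.2 <;> simp [bdF_apply, h, cm_add]
  commutes' r := by
    refine cm_ext fun a b => ?_
    rw [bdF_apply, CStarMatrix.algebraMap_apply, Pi.algebraMap_apply, CStarMatrix.algebraMap_apply]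
    by_cases h1 : a.2 = b.2 <;> by_cases h2 : a.1 = b.1 <;> simp [h1, h2, Prod.ext_iff]
  map_star' x := by
    refine cm_ext fun a b => ?_
    rw [cm_star, bdF_apply, bdF_apply]
    by_cases h : a.2 = b.2
    · simp [h, cm_star, Pi.star_apply]
    · simp [h, Ne.symm h]

theorem bd_apply (x : K → CM S) (a b : S × K) :
    (bd x : CM (S × K)) a b = if a.2 = b.2 then x a.2 a.1 b.1 else 0 := rfl

theorem kl_comm_kr (x : CM S) (y : CM T) : (kl x * kr y : CM (S × T)) = kr y * kl x := by
  refine cm_ext fun a b => ?_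
  rw [cm_mul, cm_mul, Fintype.sum_eq_single (b.1, a.2), Fintype.sum_eq_single (a.1, b.2)]
  · simp [kl_apply, kr_apply, mul_comm]
  · rintro ⟨c, d⟩ h
    rw [kl_apply, kr_apply]
    by_cases h1 : a.1 = c <;> by_cases h2 : d = b.2 <;> simp_all
  · rintro ⟨c, d⟩ h
    rw [kl_apply, kr_apply]
    by_cases h1 : a.2 = d <;> by_cases h2 : c = b.1 <;> simp_all

theorem commute_kl_kr (x : CM S) (y : CM T) : Commute (kl x : CM (S × T)) (kr y) :=
  kl_comm_kr x y

theorem kl_mul_kr_apply (x : CM S) (y : CM T) (a b : S × T) :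
    (kl x * kr y : CM (S × T)) a b = x a.1 b.1 * y a.2 b.2 := by
  rw [cm_mul, Fintype.sum_eq_single (b.1, a.2)]
  · simp [kl_apply, kr_apply]
  · rintro ⟨c, d⟩ h
    rw [kl_apply, kr_apply]
    by_cases h1 : a.2 = d <;> by_cases h2 : c = b.1 <;> simp_all

end Matrices

section Values

variable {p q : ℕ}

/-- the value at `t` of an element of a dimension drop algebra -/
noncomputable def vl (t : unitInterval) : DimDrop p q →⋆ₐ[ℂ] CM (Fin p × Fin q) :=
  (MFun.ev t).comp (DimDrop p q).subtype

theorem vl_apply (t : unitInterval) (f : DimDrop p q) : vl t f = MFun.ev t f.1 := rfl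

theorem continuous_vl (f : DimDrop p q) : Continuous fun t => vl t f :=
  ContinuousMap.continuous
    (show C(unitInterval, CStarMatrix (Fin p × Fin q) (Fin p × Fin q) ℂ) from f.1)

theorem vl_ext {f g : DimDrop p q} (h : ∀ t, vl t f = vl t g) : f = g := by
  apply Subtype.ext
  exact ContinuousMap.ext fun t => h t

theorem norm_vl_le (t : unitInterval) (f : DimDrop p q) : ‖vl t f‖ ≤ ‖f‖ :=
  ContinuousMap.norm_coe_le_norm
    (show C(unitInterval, CStarMatrix (Fin p × Fin q) (Fin p × Fin q) ℂ) from f.1) t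

theorem norm_le_of_vl (f : DimDrop p q) {M : ℝ} (hM : 0 ≤ M) (h : ∀ t, ‖vl t f‖ ≤ M) :
    ‖f‖ ≤ M :=
  (ContinuousMap.norm_le
    (show C(unitInterval, CStarMatrix (Fin p × Fin q) (Fin p × Fin q) ℂ) from f.1) hM).2 h

theorem vl_zero (f : DimDrop p q) : ∃ x : CM (Fin p), vl 0 f = kl x := by
  obtain ⟨x, hx⟩ := f.2.1
  exact ⟨x, cm_ext hx⟩

theorem vl_one (f : DimDrop p q) : ∃ y : CM (Fin q), vl 1 f = kr y := by
  obtain ⟨y, hy⟩ := f.2.2
  exact ⟨y, cm_ext hy⟩

/-- construction of elements -/
def mkD (F : C(unitInterval, CM (Fin p × Fin q))) (h0 : ∃ x : CM (Fin p), F 0 = kl x)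
    (h1 : ∃ y : CM (Fin q), F 1 = kr y) : DimDrop p q :=
  ⟨F, by
    obtain ⟨x, hx⟩ := h0
    obtain ⟨y, hy⟩ := h1
    refine ⟨⟨x, fun a b => ?_⟩, ⟨y, fun a b => ?_⟩⟩
    · exact congrFun (congrFun hx a) b
    · exact congrFun (congrFun hy a) b⟩

theorem vl_mkD (F : C(unitInterval, CM (Fin p × Fin q))) (h0 : ∃ x : CM (Fin p), F 0 = kl x)
    (h1 : ∃ y : CM (Fin q), F 1 = kr y) (t : unitInterval) : vl t (mkD F h0 h1) = F t := rfl

/-- `φ : Z_{p,q} → Z_{p',q'}` is of the form `φ(f)(t) = V(t) diag (f(ζ_k(t)))_k V(t)^*` with a unitary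
path `V` and with `L`-Lipschitz eigenvalue functions `ζ_k` which together are onto `[0,1]`. -/
def IsDiag {p q p' q' : ℕ} (L : ℝ) (φ : DimDrop p q →⋆ₐ[ℂ] DimDrop p' q') : Prop :=
  ∃ (K : Type) (_ : Fintype K) (_ : DecidableEq K) (ζ : K → unitInterval → unitInterval)
    (e : Fin p' × Fin q' ≃ (Fin p × Fin q) × K) (V : C(unitInterval, CM (Fin p' × Fin q'))),
    (∀ k s t, |(ζ k s : ℝ) - ζ k t| ≤ L * |(s : ℝ) - t|) ∧ (∀ x, ∃ k y, ζ k y = x) ∧
    (∀ t, V t * star (V t) = 1) ∧ (∀ t, star (V t) * V t = 1) ∧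
    ∀ f t, vl t (φ f) = V t * ri e (bd fun k => vl (ζ k t) f) * star (V t)

end Values

section Paths

variable {T : Type} [Fintype T] [DecidableEq T]

/-- the path `((1 + exp(iπτ)) / 2) + ((1 - exp(iπτ)) / 2) x` -/
noncomputable def pth (x : CM T) (τ : ℝ) : CM T :=
  ((1 + Complex.exp ((Real.pi * τ : ℝ) * Complex.I)) / 2) • (1 : CM T) +
    ((1 - Complex.exp ((Real.pi * τ : ℝ) * Complex.I)) / 2) • x

/-- exchange of the first and the third tensor factor -/
def f13 (P Q : Type) [DecidableEq P] [DecidableEq Q] : CM ((P × Q) × (P × Q)) :=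
  fun a b => if a.1.1 = b.2.1 ∧ a.2.1 = b.1.1 ∧ a.1.2 = b.1.2 ∧ a.2.2 = b.2.2 then 1 else 0

/-- exchange of the second and the fourth tensor factor -/
def g24 (P Q : Type) [DecidableEq P] [DecidableEq Q] : CM ((P × Q) × (P × Q)) :=
  fun a b => if a.1.1 = b.1.1 ∧ a.2.1 = b.2.1 ∧ a.1.2 = b.2.2 ∧ a.2.2 = b.1.2 then 1 else 0

/-- exchange of the two halves -/
def sw (P Q : Type) [DecidableEq P] [DecidableEq Q] : CM ((P × Q) × (P × Q)) :=
  fun a b => if a.1 = b.2 ∧ a.2 = b.1 then 1 else 0

variable {P Q : Type} [Fintype P] [DecidableEq P] [Fintype Q] [DecidableEq Q]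

/-- the flip of the `Q`-factors, twisted by `V₀` on the left -/
def aM (V₀ : CM (P × Q)) : CM ((P × Q) × (P × Q)) := star (kl V₀) * g24 P Q * kl V₀

/-- the flip of the `P`-factors, twisted by `V₁` on the left -/
def bM (V₁ : CM (P × Q)) : CM ((P × Q) × (P × Q)) := star (kl V₁) * f13 P Q * kl V₁

/-- the interpolation between the two flips on the square -/
noncomputable def rM (V₀ V₁ : CM (P × Q)) (s t : ℝ) : CM ((P × Q) × (P × Q)) :=
  if s ≤ t then pth (bM V₁) (max (t - s) (2 * t - 1)) * pth (aM V₀) (max (t - s) (1 - 2 * s))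
  else pth (aM V₀) (max (s - t) (1 - 2 * t)) * pth (bM V₁) (max (s - t) (2 * s - 1))

/-- the unitary function on the square which implements the flip -/
noncomputable def WM (V : unitInterval → CM (P × Q)) (s t : unitInterval) :
    CM ((P × Q) × (P × Q)) :=
  kr (V t) * sw P Q * rM (V 0) (V 1) (s : ℝ) (t : ℝ) * star (kl (V s))

/-- The boundary conditions for functions on the square with values in
`(M_P ⊗ M_Q) ⊗ (M_P ⊗ M_Q)`. -/
structure Bdry (W : unitInterval → unitInterval → CM ((P × Q) × (P × Q))) : Prop where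
  left : ∀ t (y : CM Q), W 0 t * kl (kr y) = kl (kr y) * W 0 t
  right : ∀ t (x : CM P), W 1 t * kl (kl x) = kl (kl x) * W 1 t
  bottom : ∀ s (y : CM Q), W s 0 * kr (kr y) = kr (kr y) * W s 0
  top : ∀ s (x : CM P), W s 1 * kr (kl x) = kr (kl x) * W s 1

end Paths

end Pool.Agent.Lib.EJZ
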