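import Pool.Agent.Lib.CStarLim.Completion
import Pool.Agent.Lib.EJZ.Defs

/-!
# Diagonal homomorphisms with small variation are almost constant up to the unitary path

PROOF.  Data `K, ζ, e, V` of `hφ`; `T f := ri e (bd fun k => vl (ζ k 0) f)`, a star homomorphism.
`vl t (φ f) - V t * T f * star (V t) = V t * ri e (bd fun k => vl (ζ k t) f - vl (ζ k 0) f) * star (V t)`; the norm of a
block diagonal matrix is at most the maximum of the norms of the blocks (`bd` and `ri e` are star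
homomorphisms, hence contractive), and `|ζ k t - ζ k 0| ≤ L * |t - 0| ≤ L`.  (If `K` is empty the index type is empty
and the norm is `0 ≤ ε`, where `0 ≤ ε` follows from the hypothesis with `s = t`.)
-/

open scoped ComplexOrder
open Filter Topology

namespace Pool.Agent.Lib.EJZ

open Pool.Agent.Lib.EJS CStarLim

namespace ApproxDAux

/-- the values of an element at finitely many points -/
noncomputable def vals {p q : ℕ} {K : Type} (ζ : K → unitInterval) :
    DimDrop p q →⋆ₐ[ℂ] (K → CM (Fin p × Fin q)) where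
  toFun f := fun k => vl (ζ k) f
  map_one' := funext fun k => map_one (vl (ζ k))
  map_mul' x y := funext fun k => map_mul (vl (ζ k)) x y
  map_zero' := funext fun k => map_zero (vl (ζ k))
  map_add' x y := funext fun k => map_add (vl (ζ k)) x y
  commutes' r := funext fun k => AlgHomClass.commutes (vl (ζ k)) r
  map_star' x := funext fun k => map_star (vl (ζ k)) x

theorem norm_bd_le {S K : Type} [Fintype S] [DecidableEq S] [Fintype K] [DecidableEq K]
    (x : K → CM S) {ε : ℝ} (hε : 0 ≤ ε) (hx : ∀ k, ‖x k‖ ≤ ε) : ‖bd x‖ ≤ ε := by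
  refine (NonUnitalStarAlgHom.norm_apply_le (bd : (K → CM S) →⋆ₐ[ℂ] CM (S × K)) x).trans ?_
  exact (pi_norm_le_iff_of_nonneg hε).2 hx

theorem norm_ri_le {S T : Type} [Fintype S] [DecidableEq S] [Fintype T] [DecidableEq T]
    (e : T ≃ S) (x : CM S) : ‖ri e x‖ ≤ ‖x‖ :=
  NonUnitalStarAlgHom.norm_apply_le (ri e : CM S →⋆ₐ[ℂ] CM T) x

theorem norm_conj_le {S : Type} [Fintype S] [DecidableEq S] {v x : CM S}
    (h1 : v * star v = 1) (h2 : star v * v = 1) : ‖v * x * star v‖ ≤ ‖x‖ := by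
  have hv : v ∈ unitary (CM S) := ⟨h2, h1⟩
  have hv' : star v ∈ unitary (CM S) := Unitary.star_mem hv
  rw [CStarRing.norm_mul_mem_unitary _ hv', CStarRing.norm_mem_unitary_mul _ hv]

end ApproxDAux

open ApproxDAux in
theorem exists_model {p q p' q' : ℕ} {L : ℝ} (hL : 0 ≤ L)
    {φ : DimDrop p q →⋆ₐ[ℂ] DimDrop p' q'} (hφ : IsDiag L φ) :
    ∃ (V : C(unitInterval, CM (Fin p' × Fin q'))) (T : DimDrop p q →⋆ₐ[ℂ] CM (Fin p' × Fin q')),
      (∀ t, V t * star (V t) = 1) ∧ (∀ t, star (V t) * V t = 1) ∧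
      ∀ (f : DimDrop p q) (ε : ℝ),
        (∀ s t : unitInterval, |(s : ℝ) - t| ≤ L → ‖vl s f - vl t f‖ ≤ ε) →
        ∀ t, ‖vl t (φ f) - V t * T f * star (V t)‖ ≤ ε := by
  obtain ⟨K, hK, hK', ζ, e, V, hζ, -, h1, h2, hV⟩ := hφ
  refine ⟨V, (ri e).comp (bd.comp (vals fun k => ζ k 0)), h1, h2, ?_⟩
  intro f ε hf t
  have hε : 0 ≤ ε := by
    have := hf 0 0 (by simpa using hL)
    simpa using this
  have e1 : vl t (φ f) - V t * ((ri e).comp (bd.comp (vals fun k => ζ k 0))) f * star (V t) =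
      V t * ri e (bd ((fun k => vl (ζ k t) f) - fun k => vl (ζ k 0) f)) * star (V t) := by
    rw [hV, map_sub, map_sub, mul_sub, sub_mul]
    rfl
  rw [e1]
  refine (norm_conj_le (h1 t) (h2 t)).trans ((norm_ri_le e _).trans (norm_bd_le _ hε ?_))
  intro k
  refine hf (ζ k t) (ζ k 0) ((hζ k t 0).trans ?_)
  have ht : |(t : ℝ) - (0 : unitInterval)| ≤ 1 := by
    rw [Set.Icc.coe_zero, sub_zero, abs_of_nonneg t.2.1]
    exact t.2.2
  calc L * |(t : ℝ) - (0 : unitInterval)| ≤ L * 1 := mul_le_mul_of_nonneg_left ht hL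
    _ = L := mul_one L

end Pool.Agent.Lib.EJZ
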