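import Pool.Agent.Lib.EJZ.Full

/-!
# Decomposition of matrices commuting with some of the tensor factors

PROOF.  Let `S = P × Q`.  Conditional expectations on `CM S`: `E_l a := (1/|Q|) ∑_{u,v : Q} kr (Eu u v) * a * kr (Eu v u)`, which
equals `kl (a')`, `a' i j = (1/|Q|) ∑_v a (i,v) (j,v)`; `E_r a := (1/|P|) ∑_{u,v : P} kl (Eu u v) * a * kl (Eu v u)`, which
equals `kr (a'')`.  If `X` commutes with all `kl (kr y)` then
`X = (1/|Q|) ∑_{u,v} kl (kr (Eu u v)) * X * kl (kr (Eu v u))` (move `X` to the left and use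
`∑_{u,v} Eu u v * Eu v u = |Q| • 1`), so if `X = ∑ kl (a k) * kr (b k)` then also
`X = ∑ kl (E_l (a k)) * kr (b k)`.  Similarly for the other three conditions.  Start from
`X = ∑_{α,β,γ,δ} kl (X (α, γ) (β, δ) • Eu α β) * kr (Eu γ δ)` and replace `a k` by `E_l (a k)` if `x = 0`, by
`E_r (a k)` if `x = 1`, and leave it otherwise; the same for `b k` and `x'`.
-/

open scoped ComplexOrder
open Filter Topology

namespace Pool.Agent.Lib.EJZ

open Pool.Agent.Lib.EJS CStarLim

namespace DecompAux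

section

variable {S T : Type} [Fintype S] [DecidableEq S] [Fintype T] [DecidableEq T]

theorem kr_Eu_mul (u v : T) (a : CM (S × T)) (A B : S × T) :
    (kr (Eu u v) * a : CM (S × T)) A B = if A.2 = u then a (A.1, v) B else 0 := by
  rw [cm_mul, Fintype.sum_eq_single (A.1, v)]
  · by_cases h : A.2 = u <;> simp [kr_apply, Eu_apply, h]
  · rintro ⟨c, d⟩ h
    rw [kr_apply, Eu_apply]
    by_cases h1 : A.1 = c
    · by_cases h2 : d = v
      · subst h1 h2
        exact absurd rfl h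
      · simp [h2]
    · simp [h1]

theorem mul_kr_Eu (u v : T) (a : CM (S × T)) (A B : S × T) :
    (a * kr (Eu v u) : CM (S × T)) A B = if B.2 = u then a A (B.1, v) else 0 := by
  rw [cm_mul, Fintype.sum_eq_single (B.1, v)]
  · by_cases h : B.2 = u <;> simp [kr_apply, Eu_apply, h]
  · rintro ⟨c, d⟩ h
    rw [kr_apply, Eu_apply]
    by_cases h1 : c = B.1
    · by_cases h2 : d = v
      · subst h1 h2
        exact absurd rfl h
      · simp [h2]
    · simp [h1]

theorem kl_Eu_mul (u v : S) (a : CM (S × T)) (A B : S × T) :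
    (kl (Eu u v) * a : CM (S × T)) A B = if A.1 = u then a (v, A.2) B else 0 := by
  rw [cm_mul, Fintype.sum_eq_single (v, A.2)]
  · by_cases h : A.1 = u <;> simp [kl_apply, Eu_apply, h]
  · rintro ⟨c, d⟩ h
    rw [kl_apply, Eu_apply]
    by_cases h1 : A.2 = d
    · by_cases h2 : c = v
      · subst h1 h2
        exact absurd rfl h
      · simp [h2]
    · simp [h1]

theorem mul_kl_Eu (u v : S) (a : CM (S × T)) (A B : S × T) :
    (a * kl (Eu v u) : CM (S × T)) A B = if B.1 = u then a A (v, B.2) else 0 := by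
  rw [cm_mul, Fintype.sum_eq_single (v, B.2)]
  · by_cases h : B.1 = u <;> simp [kl_apply, Eu_apply, h]
  · rintro ⟨c, d⟩ h
    rw [kl_apply, Eu_apply]
    by_cases h1 : d = B.2
    · by_cases h2 : c = v
      · subst h1 h2
        exact absurd rfl h
      · simp [h2]
    · simp [h1]

theorem sum_Eu (T : Type) [Fintype T] [DecidableEq T] [Nonempty T] :
    ((Fintype.card T : ℂ)⁻¹) • ∑ i : T × T, (Eu i.1 i.2 * Eu i.2 i.1 : CM T) = 1 := by
  have hc : (Fintype.card T : ℂ) ≠ 0 := by exact_mod_cast Fintype.card_ne_zero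
  refine cm_ext fun a b => ?_
  rw [cm_smul, cm_sum, cm_one]
  have h1 : ∀ i : T × T, (Eu i.1 i.2 * Eu i.2 i.1 : CM T) a b =
      if a = i.1 ∧ b = i.1 then 1 else 0 := by
    intro i
    rw [cm_mul, Fintype.sum_eq_single i.2]
    · by_cases h : a = i.1 <;> by_cases h' : b = i.1 <;> simp [Eu_apply, h, h']
    · intro c hc
      simp [Eu_apply, hc]
  rw [Finset.sum_congr rfl fun i _ => h1 i, Fintype.sum_prod_type]
  by_cases h : a = b
  · subst h
    simp [hc]
  · rw [if_neg h, Finset.sum_eq_zero, mul_zero]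
    intro u _
    refine Finset.sum_eq_zero fun v _ => ?_
    rw [if_neg]
    rintro ⟨h1, h2⟩
    exact h (h1.trans h2.symm)

/-- the conditional expectation onto the left factor -/
noncomputable def El (a : CM (S × T)) : CM (S × T) :=
  ((Fintype.card T : ℂ)⁻¹) • ∑ i : T × T, kr (Eu i.1 i.2) * a * kr (Eu i.2 i.1)

/-- the conditional expectation onto the right factor -/
noncomputable def Er (a : CM (S × T)) : CM (S × T) :=
  ((Fintype.card S : ℂ)⁻¹) • ∑ i : S × S, kl (Eu i.1 i.2) * a * kl (Eu i.2 i.1)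

/-- the partial trace over the right factor -/
noncomputable def pl (a : CM (S × T)) : CM S :=
  fun i j => ((Fintype.card T : ℂ)⁻¹) * ∑ v, a (i, v) (j, v)

theorem pl_apply (a : CM (S × T)) (i j : S) :
    pl a i j = ((Fintype.card T : ℂ)⁻¹) * ∑ v, a (i, v) (j, v) := rfl

/-- the partial trace over the left factor -/
noncomputable def pr (a : CM (S × T)) : CM T :=
  fun i j => ((Fintype.card S : ℂ)⁻¹) * ∑ v, a (v, i) (v, j)

theorem pr_apply (a : CM (S × T)) (i j : T) :
    pr a i j = ((Fintype.card S : ℂ)⁻¹) * ∑ v, a (v, i) (v, j) := rfl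

/-- a slice -/
def slc (X : CM (S × T)) (γ δ : T) : CM S := fun α β => X (α, γ) (β, δ)

theorem slc_apply (X : CM (S × T)) (γ δ : T) (α β : S) : slc X γ δ α β = X (α, γ) (β, δ) := rfl

theorem El_range (a : CM (S × T)) : ∃ c : CM S, El a = kl c := by
  refine ⟨pl a, cm_ext fun A B => ?_⟩
  unfold El
  rw [cm_smul, cm_sum, kl_apply, pl_apply]
  have h1 : ∀ i : T × T, (kr (Eu i.1 i.2) * a * kr (Eu i.2 i.1) : CM (S × T)) A B =
      if A.2 = i.1 ∧ B.2 = i.1 then a (A.1, i.2) (B.1, i.2) else 0 := by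
    intro i
    rw [mul_kr_Eu, kr_Eu_mul]
    by_cases h : A.2 = i.1 <;> by_cases h' : B.2 = i.1 <;> simp [h, h']
  rw [Finset.sum_congr rfl fun i _ => h1 i, Fintype.sum_prod_type]
  by_cases h : A.2 = B.2
  · rw [if_pos h, Fintype.sum_eq_single A.2]
    · simp [h]
    · intro c hc
      refine Finset.sum_eq_zero fun v _ => ?_
      rw [if_neg]
      rintro ⟨h1, _⟩
      exact hc h1.symm
  · rw [if_neg h, Finset.sum_eq_zero, mul_zero]
    intro u _
    refine Finset.sum_eq_zero fun v _ => ?_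
    rw [if_neg]
    rintro ⟨h1, h2⟩
    exact h (h1.trans h2.symm)

theorem Er_range (a : CM (S × T)) : ∃ c : CM T, Er a = kr c := by
  refine ⟨pr a, cm_ext fun A B => ?_⟩
  unfold Er
  rw [cm_smul, cm_sum, kr_apply, pr_apply]
  have h1 : ∀ i : S × S, (kl (Eu i.1 i.2) * a * kl (Eu i.2 i.1) : CM (S × T)) A B =
      if A.1 = i.1 ∧ B.1 = i.1 then a (i.2, A.2) (i.2, B.2) else 0 := by
    intro i
    rw [mul_kl_Eu, kl_Eu_mul]
    by_cases h : A.1 = i.1 <;> by_cases h' : B.1 = i.1 <;> simp [h, h']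
  rw [Finset.sum_congr rfl fun i _ => h1 i, Fintype.sum_prod_type]
  by_cases h : A.1 = B.1
  · rw [if_pos h, Fintype.sum_eq_single A.1]
    · simp [h]
    · intro c hc
      refine Finset.sum_eq_zero fun v _ => ?_
      rw [if_neg]
      rintro ⟨h1, _⟩
      exact hc h1.symm
  · rw [if_neg h, Finset.sum_eq_zero, mul_zero]
    intro u _
    refine Finset.sum_eq_zero fun v _ => ?_
    rw [if_neg]
    rintro ⟨h1, h2⟩
    exact h (h1.trans h2.symm)

theorem avg_left {U : Type} [Fintype U] [DecidableEq U] {ι κ : Type} [Fintype ι] [Fintype κ]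
    (X : CM (S × U)) (c : ℂ) (y y' : ι → CM S) (hy : c • ∑ i, y i * y' i = 1)
    (hX : ∀ i, X * kl (y i) = kl (y i) * X) (a : κ → CM S) (b : κ → CM U)
    (h : X = ∑ k, kl (a k) * kr (b k)) :
    X = ∑ k, kl (c • ∑ i, y i * a k * y' i) * kr (b k) := by
  have h1 : ∀ k, (kl (c • ∑ i, y i * a k * y' i) * kr (b k) : CM (S × U)) =
      c • ∑ i, kl (y i) * (kl (a k) * kr (b k)) * kl (y' i) := by
    intro k
    rw [map_smul, map_sum, smul_mul_assoc, Finset.sum_mul]
    congr 1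
    refine Finset.sum_congr rfl fun i _ => ?_
    rw [map_mul, map_mul, mul_assoc, kl_comm_kr (y' i) (b k)]
    simp only [mul_assoc]
  rw [Finset.sum_congr rfl fun k _ => h1 k, ← Finset.smul_sum, Finset.sum_comm]
  have h2 : ∀ i, ∑ k, (kl (y i) * (kl (a k) * kr (b k)) * kl (y' i) : CM (S × U)) =
      X * kl (y i * y' i) := by
    intro i
    rw [← Finset.sum_mul, ← Finset.mul_sum, ← h, ← hX, map_mul, mul_assoc]
  rw [Finset.sum_congr rfl fun i _ => h2 i, ← Finset.mul_sum, ← map_sum, ← mul_smul_comm,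
    ← map_smul, hy, map_one, mul_one]

theorem avg_right {U : Type} [Fintype U] [DecidableEq U] {ι κ : Type} [Fintype ι] [Fintype κ]
    (X : CM (U × S)) (c : ℂ) (y y' : ι → CM S) (hy : c • ∑ i, y i * y' i = 1)
    (hX : ∀ i, X * kr (y i) = kr (y i) * X) (a : κ → CM U) (b : κ → CM S)
    (h : X = ∑ k, kl (a k) * kr (b k)) :
    X = ∑ k, kl (a k) * kr (c • ∑ i, y i * b k * y' i) := by
  have h1 : ∀ k, (kl (a k) * kr (c • ∑ i, y i * b k * y' i) : CM (U × S)) =
      c • ∑ i, kr (y i) * (kl (a k) * kr (b k)) * kr (y' i) := by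
    intro k
    rw [map_smul, map_sum, mul_smul_comm, Finset.mul_sum]
    congr 1
    refine Finset.sum_congr rfl fun i _ => ?_
    rw [map_mul, map_mul, ← mul_assoc, ← mul_assoc, kl_comm_kr (a k) (y i)]
    simp only [mul_assoc]
  rw [Finset.sum_congr rfl fun k _ => h1 k, ← Finset.smul_sum, Finset.sum_comm]
  have h2 : ∀ i, ∑ k, (kr (y i) * (kl (a k) * kr (b k)) * kr (y' i) : CM (U × S)) =
      X * kr (y i * y' i) := by
    intro i
    rw [← Finset.sum_mul, ← Finset.mul_sum, ← h, ← hX, map_mul, mul_assoc]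
  rw [Finset.sum_congr rfl fun i _ => h2 i, ← Finset.mul_sum, ← map_sum, ← mul_smul_comm,
    ← map_smul, hy, map_one, mul_one]

theorem sum_kr [Nonempty T] :
    ((Fintype.card T : ℂ)⁻¹) • ∑ i : T × T, (kr (Eu i.1 i.2) * kr (Eu i.2 i.1) : CM (S × T)) =
      1 := by
  have h := congrArg (kr : CM T →⋆ₐ[ℂ] CM (S × T)) (sum_Eu T)
  rw [map_smul, map_sum, map_one] at h
  rw [← h]
  congr 1
  exact Finset.sum_congr rfl fun i _ => (map_mul _ _ _).symm

theorem sum_kl [Nonempty S] :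
    ((Fintype.card S : ℂ)⁻¹) • ∑ i : S × S, (kl (Eu i.1 i.2) * kl (Eu i.2 i.1) : CM (S × T)) =
      1 := by
  have h := congrArg (kl : CM S →⋆ₐ[ℂ] CM (S × T)) (sum_Eu S)
  rw [map_smul, map_sum, map_one] at h
  rw [← h]
  congr 1
  exact Finset.sum_congr rfl fun i _ => (map_mul _ _ _).symm

end

theorem unit_ne : (0 : unitInterval) ≠ 1 := zero_ne_one

end DecompAux

open DecompAux in
theorem exists_decomp {P Q : Type} [Fintype P] [DecidableEq P] [Fintype Q] [DecidableEq Q]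
    [Nonempty P] [Nonempty Q] (X : CM ((P × Q) × (P × Q))) (x x' : unitInterval)
    (h0 : x = 0 → ∀ y : CM Q, X * kl (kr y) = kl (kr y) * X)
    (h1 : x = 1 → ∀ y : CM P, X * kl (kl y) = kl (kl y) * X)
    (h0' : x' = 0 → ∀ y : CM Q, X * kr (kr y) = kr (kr y) * X)
    (h1' : x' = 1 → ∀ y : CM P, X * kr (kl y) = kr (kl y) * X) :
    ∃ (κ : Type) (_ : Fintype κ) (a b : κ → CM (P × Q)), X = ∑ k, kl (a k) * kr (b k) ∧
      (∀ k, x = 0 → ∃ c : CM P, a k = kl c) ∧ (∀ k, x = 1 → ∃ c : CM Q, a k = kr c) ∧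
      (∀ k, x' = 0 → ∃ c : CM P, b k = kl c) ∧ (∀ k, x' = 1 → ∃ c : CM Q, b k = kr c) := by
  -- the map for the left factor
  obtain ⟨E, hE, hE0, hE1⟩ : ∃ E : CM (P × Q) → CM (P × Q),
      (∀ (a b : (P × Q) × (P × Q) → CM (P × Q)), X = ∑ k, kl (a k) * kr (b k) →
        X = ∑ k, kl (E (a k)) * kr (b k)) ∧ (x = 0 → ∀ a, ∃ c : CM P, E a = kl c) ∧
        (x = 1 → ∀ a, ∃ c : CM Q, E a = kr c) := by
    by_cases hx0 : x = 0
    · refine ⟨El, fun a b h => ?_, fun _ a => El_range a, fun hx1 => ?_⟩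
      · exact avg_left X _ _ _ sum_kr (fun i => h0 hx0 _) a b h
      · exact absurd (hx0.symm.trans hx1) unit_ne
    by_cases hx1 : x = 1
    · refine ⟨Er, fun a b h => ?_, fun hx => absurd hx hx0, fun _ a => Er_range a⟩
      exact avg_left X _ _ _ sum_kl (fun i => h1 hx1 _) a b h
    · exact ⟨id, fun a b h => h, fun hx => absurd hx hx0, fun hx => absurd hx hx1⟩
  obtain ⟨E', hE', hE0', hE1'⟩ : ∃ E : CM (P × Q) → CM (P × Q),
      (∀ (a b : (P × Q) × (P × Q) → CM (P × Q)), X = ∑ k, kl (a k) * kr (b k) →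
        X = ∑ k, kl (a k) * kr (E (b k))) ∧ (x' = 0 → ∀ a, ∃ c : CM P, E a = kl c) ∧
        (x' = 1 → ∀ a, ∃ c : CM Q, E a = kr c) := by
    by_cases hx0 : x' = 0
    · refine ⟨El, fun a b h => ?_, fun _ a => El_range a, fun hx1 => ?_⟩
      · exact avg_right X _ _ _ sum_kr (fun i => h0' hx0 _) a b h
      · exact absurd (hx0.symm.trans hx1) unit_ne
    by_cases hx1 : x' = 1
    · refine ⟨Er, fun a b h => ?_, fun hx => absurd hx hx0, fun _ a => Er_range a⟩
      exact avg_right X _ _ _ sum_kl (fun i => h1' hx1 _) a b h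
    · exact ⟨id, fun a b h => h, fun hx => absurd hx hx0, fun hx => absurd hx hx1⟩
  have hX : X = ∑ k : (P × Q) × (P × Q), kl (slc X k.1 k.2) * kr (Eu k.1 k.2) := by
    refine cm_ext fun A B => ?_
    rw [cm_sum, Fintype.sum_eq_single (A.2, B.2)]
    · rw [kl_mul_kr_apply, slc_apply]
      simp [Eu_apply]
    · rintro ⟨γ, δ⟩ h
      rw [kl_mul_kr_apply, Eu_apply, if_neg, mul_zero]
      rintro ⟨h1, h2⟩
      apply h
      rw [h1, h2]
  refine ⟨(P × Q) × (P × Q), inferInstance, fun k => E (slc X k.1 k.2),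
    fun k => E' (Eu k.1 k.2), hE' _ _ (hE _ _ hX), fun k hx => hE0 hx _, fun k hx => hE1 hx _,
    fun k hx => hE0' hx _, fun k hx => hE1' hx _⟩

end Pool.Agent.Lib.EJZ
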