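import Pool.Agent.Lib.EJZ.Hat
import Pool.Agent.Lib.EJZ.Decomp

/-!
# Functions on the square with the boundary conditions are limits of sums of elementary tensors

PROOF.  Uniform continuity of `W` on the compact square: choose `N > 0` with
`‖W s t - W s' t'‖ ≤ ε` for `|s - s'| ≤ 1/N`, `|t - t'| ≤ 1/N`.  Take `x r`, `h r` from `exists_hat N`.  For every pair `(r, r')`
apply `exists_decomp` to `W (x r) (x r')` (the hypotheses follow from `hb` since e.g. `x r = 0` gives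
`W 0 (x r')`), getting `κ_{r r'}`, `a`, `b`.  Index set: the sigma type of all `(r, r', k)`.  Put
`f (r, r', k) := mkD (t ↦ (h r t : ℂ) • a k)` (at `0`: if `h r 0 ≠ 0` then `x r = 0`, so `a k = kl c`; else the value is `0`;
same at `1`) and `g (r, r', k) := mkD (t ↦ (h r' t : ℂ) • b k)`.  Then
`∑ kl (vl s f) * kr (vl t g) = ∑_{r,r'} h r s * h r' t • W (x r) (x r')`, a convex combination of values of `W` at
points which are `1/N`-close to `(s, t)`.
-/

open scoped ComplexOrder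
open Filter Topology

namespace Pool.Agent.Lib.EJZ

open Pool.Agent.Lib.EJS CStarLim

namespace ApproxWAux

theorem cont {p q : ℕ} (h : C(unitInterval, ℝ)) (a : CM (Fin p × Fin q)) :
    Continuous fun t : unitInterval => ((h t : ℝ) : ℂ) • a :=
  (Complex.continuous_ofReal.comp h.continuous).smul continuous_const

theorem end0 {p q : ℕ} {c : ℝ} {a : CM (Fin p × Fin q)}
    (h : c ≠ 0 → ∃ y : CM (Fin p), a = kl y) : ∃ y : CM (Fin p), ((c : ℝ) : ℂ) • a = kl y := by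
  by_cases hc : c = 0
  · refine ⟨0, ?_⟩
    rw [hc, Complex.ofReal_zero, zero_smul, map_zero]
  · obtain ⟨y, hy⟩ := h hc
    refine ⟨((c : ℝ) : ℂ) • y, ?_⟩
    rw [hy, map_smul]

theorem end1 {p q : ℕ} {c : ℝ} {a : CM (Fin p × Fin q)}
    (h : c ≠ 0 → ∃ y : CM (Fin q), a = kr y) : ∃ y : CM (Fin q), ((c : ℝ) : ℂ) • a = kr y := by
  by_cases hc : c = 0
  · refine ⟨0, ?_⟩
    rw [hc, Complex.ofReal_zero, zero_smul, map_zero]
  · obtain ⟨y, hy⟩ := h hc
    refine ⟨((c : ℝ) : ℂ) • y, ?_⟩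
    rw [hy, map_smul]

end ApproxWAux

theorem exists_sum_approx {p q : ℕ} (hp : 0 < p) (hq : 0 < q)
    (W : unitInterval → unitInterval → CM ((Fin p × Fin q) × (Fin p × Fin q)))
    (hW : Continuous fun z : unitInterval × unitInterval => W z.1 z.2) (hb : Bdry W) {ε : ℝ}
    (hε : 0 < ε) :
    ∃ (κ : Type) (_ : Fintype κ) (f g : κ → DimDrop p q), ∀ s t,
      ‖W s t - ∑ k, kl (vl s (f k)) * kr (vl t (g k))‖ ≤ ε := by
  have : Nonempty (Fin p) := ⟨⟨0, hp⟩⟩
  have : Nonempty (Fin q) := ⟨⟨0, hq⟩⟩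
  have huc := CompactSpace.uniformContinuous_of_continuous hW
  obtain ⟨δ, hδ, hδW⟩ := Metric.uniformContinuous_iff.1 huc ε hε
  obtain ⟨n, hn⟩ := exists_nat_one_div_lt hδ
  obtain ⟨x, h, hh0, hh1, hhx, hhz, hho⟩ := exists_hat (n + 1) n.succ_pos
  have hclose : ∀ (r r' : Fin (n + 1 + 1)) (s t : unitInterval), h r s ≠ 0 → h r' t ≠ 0 →
      ‖W s t - W (x r) (x r')‖ ≤ ε := by
    intro r r' s t h1 h2
    have h3 := hhx r s h1
    have h4 := hhx r' t h2
    have h5 : dist (s, t) (x r, x r') < δ := by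
      rw [Prod.dist_eq]
      refine max_lt ?_ ?_
      · rw [Subtype.dist_eq, Real.dist_eq, abs_sub_comm]
        refine lt_of_le_of_lt h3 ?_
        push_cast
        exact hn
      · rw [Subtype.dist_eq, Real.dist_eq, abs_sub_comm]
        refine lt_of_le_of_lt h4 ?_
        push_cast
        exact hn
    have h6 := hδW h5
    rw [dist_eq_norm] at h6
    exact h6.le
  choose κ hκ a b hX ha0 ha1 hb0 hb1 using fun r r' : Fin (n + 1 + 1) =>
    exists_decomp (W (x r) (x r')) (x r) (x r')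
      (fun hx y => by rw [hx]; exact hb.left _ y)
      (fun hx y => by rw [hx]; exact hb.right _ y)
      (fun hx y => by rw [hx]; exact hb.bottom _ y)
      (fun hx y => by rw [hx]; exact hb.top _ y)
  refine ⟨Σ z : Fin (n + 1 + 1) × Fin (n + 1 + 1), κ z.1 z.2, ?_, ?_, ?_, ?_⟩
  · exact Sigma.instFintype
  · exact fun z => mkD ⟨fun t => ((h z.1.1 t : ℝ) : ℂ) • a z.1.1 z.1.2 z.2,
      ApproxWAux.cont (h z.1.1) _⟩
      (ApproxWAux.end0 (fun h0 => ha0 z.1.1 z.1.2 z.2 (hhz z.1.1 h0)))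
      (ApproxWAux.end1 (fun h0 => ha1 z.1.1 z.1.2 z.2 (hho z.1.1 h0)))
  · exact fun z => mkD ⟨fun t => ((h z.1.2 t : ℝ) : ℂ) • b z.1.1 z.1.2 z.2,
      ApproxWAux.cont (h z.1.2) _⟩
      (ApproxWAux.end0 (fun h0 => hb0 z.1.1 z.1.2 z.2 (hhz z.1.2 h0)))
      (ApproxWAux.end1 (fun h0 => hb1 z.1.1 z.1.2 z.2 (hho z.1.2 h0)))
  · intro s t
    have hsum : ∑ z : (Σ z : Fin (n + 1 + 1) × Fin (n + 1 + 1), κ z.1 z.2),
        kl (((h z.1.1 s : ℝ) : ℂ) • a z.1.1 z.1.2 z.2) *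
          kr (((h z.1.2 t : ℝ) : ℂ) • b z.1.1 z.1.2 z.2) =
        ∑ z : Fin (n + 1 + 1) × Fin (n + 1 + 1),
          (((h z.1 s * h z.2 t : ℝ)) : ℂ) • W (x z.1) (x z.2) := by
      rw [Fintype.sum_sigma]
      refine Finset.sum_congr rfl fun z _ => ?_
      rw [hX z.1 z.2, Finset.smul_sum]
      refine Finset.sum_congr rfl fun k _ => ?_
      rw [map_smul, map_smul, smul_mul_smul_comm]
      push_cast
      rfl
    have hone : ∑ z : Fin (n + 1 + 1) × Fin (n + 1 + 1), (h z.1 s * h z.2 t) = 1 := by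
      rw [Fintype.sum_prod_type]
      simp only [← Finset.mul_sum, hh1, mul_one]
    have hW1 : W s t = ∑ z : Fin (n + 1 + 1) × Fin (n + 1 + 1),
          (((h z.1 s * h z.2 t : ℝ)) : ℂ) • W s t := by
      rw [← Finset.sum_smul, ← Complex.ofReal_sum, hone, Complex.ofReal_one, one_smul]
    have hdiff : W s t - ∑ z : (Σ z : Fin (n + 1 + 1) × Fin (n + 1 + 1), κ z.1 z.2),
        kl (((h z.1.1 s : ℝ) : ℂ) • a z.1.1 z.1.2 z.2) *
          kr (((h z.1.2 t : ℝ) : ℂ) • b z.1.1 z.1.2 z.2) =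
        ∑ z : Fin (n + 1 + 1) × Fin (n + 1 + 1),
          (((h z.1 s * h z.2 t : ℝ)) : ℂ) • (W s t - W (x z.1) (x z.2)) := by
      rw [hsum]
      conv_lhs => rw [hW1]
      rw [← Finset.sum_sub_distrib]
      refine Finset.sum_congr rfl fun z _ => ?_
      rw [smul_sub]
    have hfin : ‖W s t - ∑ z : (Σ z : Fin (n + 1 + 1) × Fin (n + 1 + 1), κ z.1 z.2),
        kl (((h z.1.1 s : ℝ) : ℂ) • a z.1.1 z.1.2 z.2) *
          kr (((h z.1.2 t : ℝ) : ℂ) • b z.1.1 z.1.2 z.2)‖ ≤ ε := by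
      rw [hdiff]
      calc ‖∑ z : Fin (n + 1 + 1) × Fin (n + 1 + 1),
          (((h z.1 s * h z.2 t : ℝ)) : ℂ) • (W s t - W (x z.1) (x z.2))‖
          ≤ ∑ z : Fin (n + 1 + 1) × Fin (n + 1 + 1),
          ‖(((h z.1 s * h z.2 t : ℝ)) : ℂ) • (W s t - W (x z.1) (x z.2))‖ := norm_sum_le _ _
        _ ≤ ∑ z : Fin (n + 1 + 1) × Fin (n + 1 + 1), (h z.1 s * h z.2 t) * ε := by
          refine Finset.sum_le_sum fun z _ => ?_
          have hnn : 0 ≤ h z.1 s * h z.2 t := mul_nonneg (hh0 _ _) (hh0 _ _)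
          rw [norm_smul, Complex.norm_real, Real.norm_of_nonneg hnn]
          by_cases h1 : h z.1 s = 0
          · simp [h1]
          by_cases h2 : h z.2 t = 0
          · simp [h2]
          exact mul_le_mul_of_nonneg_left (hclose _ _ _ _ h1 h2) hnn
        _ = ε := by rw [← Finset.sum_mul, hone, one_mul]
    exact hfin

end Pool.Agent.Lib.EJZ
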