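import Pool.Agent.Lib.CStarLim.Completion
import Pool.Agent.Lib.EJZ.Defs

/-!
# Dimension drop algebras are separable

PROOF.  `C([0,1], E)` is second countable for a separable metric space `E` (instance
`ContinuousMap.instSecondCountableTopology` or similar); `CM S` is finite dimensional, hence separable;
a subtype of a second countable space is second countable.
-/

open scoped ComplexOrder
open Filter Topology

namespace Pool.Agent.Lib.EJZ

open Pool.Agent.Lib.EJS CStarLim

theorem separable_dimDrop (p q : ℕ) : TopologicalSpace.SeparableSpace (DimDrop p q) := by
  have h0 : SecondCountableTopology (CM (Fin p × Fin q)) :=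
    inferInstanceAs (SecondCountableTopology ((Fin p × Fin q) → (Fin p × Fin q) → ℂ))
  have h1 : SecondCountableTopology C(unitInterval, CM (Fin p × Fin q)) := inferInstance
  have h2 : SecondCountableTopology (MFun p q) := h1
  have h3 : SecondCountableTopology (DimDrop p q) :=
    TopologicalSpace.Subtype.secondCountableTopology _
  infer_instance

end Pool.Agent.Lib.EJZ
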