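import Pool.Agent.Lib.EJZ.Stage
import Pool.Agent.Lib.EJZ.Sep
import Mathlib.Algebra.Star.UnitaryStarAlgAut

/-!
# Approximately coherent homomorphisms with values in a relative commutant

PROOF.  Notation: `D n = DimDrop (p n) (q n)`, `ρh n := (s.ι (n+1)).comp (ρ n) : D n → s.Lim`.  `ρh n x` commutes with
`s.ι m y` for all `m ≤ n` (`hρ`, `s.ι (n+1) (s.map n y) = s.ι n y`, `ι_tr`).
Let `d n` be a dense sequence in `D n` (`separable_dimDrop`, `TopologicalSpace.denseSeq`), the set of the statement is its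
range.  For `n k` let `F n k : Finset (D n)` be the set of all `tr s _ (d m l)` with `m ≤ n`, `l ≤ k`.
Let `M n k` be the number from `flip_stage` (target algebra `s.Lim`) for `n`, `F n k`, `ε = (1/2)^k`.  Define
`N 0 = n₀`, `N (k+1) = max (M (N k) k) (N k + 1)`; strictly increasing.
`σ k := (ρh (N (k+1))).comp (tr s (N k ≤ N (k+1))) : D (N k) → s.Lim`.
The maps `α := ρh (N (k+1))` and `β := σ (k+1)` on `D (N (k+1))` commute: `α x` lies in the range of
`s.ι (N (k+1) + 1)` and `β y = ρh (N (k+2)) _` commutes with `s.ι m _` for `m ≤ N (k+2)`, and `N (k+1) + 1 ≤ N (k+2)`.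
So there is `w k` (unitary) with `‖w k * β (tr z) * star (w k) - α (tr z)‖ ≤ (1/2)^k` for `z ∈ F (N k) k` (`tr` from `N k` to
`N (k+1)`), i.e. `‖w k * σ (k+1) (tr z) * star (w k) - σ k z‖ ≤ (1/2)^k`, and `w k` commutes with `s.ι n₀ y` since
`α x` and `β x` do.  Put `u 0 = 1`, `u (k+1) = u k * w k` and `τ k x := u k * σ k x * star (u k)`.  Then
`‖τ (k+1) (tr z) - τ k z‖ ≤ (1/2)^k` for `z ∈ F (N k) k`.  For `a = d m l` and `k ≥ l` with `m ≤ N k` the element `tr a` of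
`D (N k)` is in `F (N k) k` (and `tr_tr`).
-/

open scoped ComplexOrder
open Filter Topology

namespace Pool.Agent.Lib.EJZ

open Pool.Agent.Lib.EJS CStarLim

namespace CentSeqAux

/-- the strictly increasing sequence of indices -/
def NN (M : ℕ → ℕ → ℕ) (n₀ : ℕ) : ℕ → ℕ
  | 0 => n₀
  | k + 1 => max (M (NN M n₀ k) k) (NN M n₀ k + 1)

theorem NN_lt (M : ℕ → ℕ → ℕ) (n₀ k : ℕ) : NN M n₀ k < NN M n₀ (k + 1) :=
  lt_of_lt_of_le (Nat.lt_succ_self _) (le_max_right _ _)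

theorem NN_mono (M : ℕ → ℕ → ℕ) (n₀ : ℕ) : StrictMono (NN M n₀) :=
  strictMono_nat_of_lt_succ (NN_lt M n₀)

theorem le_NN (M : ℕ → ℕ → ℕ) (n₀ k : ℕ) : M (NN M n₀ k) k ≤ NN M n₀ (k + 1) :=
  le_max_left _ _

/-- products -/
def uu {B : Type*} [Monoid B] (w : ℕ → B) : ℕ → B
  | 0 => 1
  | k + 1 => uu w k * w k

theorem aux {A : ℕ → Type} [∀ n, CStarAlgebra (A n)] (s : IndSys A)
    (sep : ∀ n, TopologicalSpace.SeparableSpace (A n))
    (hf : ∀ n (F : Finset (A n)) (ε : ℝ), 0 < ε → ∃ M, n ≤ M ∧ ∀ m (h : n ≤ m), M ≤ m →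
      ∀ (i j : A m →⋆ₐ[ℂ] s.Lim), (∀ x y, i x * j y = j y * i x) →
      ∃ w : s.Lim, w * star w = 1 ∧ star w * w = 1 ∧
        (∀ c, (∀ x, c * i x = i x * c) → (∀ x, c * j x = j x * c) → c * w = w * c) ∧
        ∀ z ∈ F, ‖w * i (tr s h z) * star w - j (tr s h z)‖ ≤ ε)
    (ρ : ∀ n, A n →⋆ₐ[ℂ] A (n + 1)) (hρ : ∀ n x y, s.map n x * ρ n y = ρ n y * s.map n x)
    (n₀ : ℕ) :
    ∃ (N : ℕ → ℕ) (τ : ∀ k, A (N k) →⋆ₐ[ℂ] s.Lim)
      (D : ∀ m, Set (A m)), StrictMono N ∧ (∀ m, Dense (D m)) ∧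
      (∀ k x y, τ k x * s.ι n₀ y = s.ι n₀ y * τ k x) ∧
      ∀ m, ∀ a ∈ D m, ∃ k₀, ∀ k, k₀ ≤ k → ∀ (h : m ≤ N k) (h' : m ≤ N (k + 1)),
        ‖τ (k + 1) (tr s h' a) - τ k (tr s h a)‖ ≤ (1 / 2) ^ k := by
  classical
  let d : ∀ n, ℕ → A n := fun n => TopologicalSpace.denseSeq (A n)
  have hd : ∀ n, DenseRange (d n) := fun n => TopologicalSpace.denseRange_denseSeq (A n)
  let F : ∀ n : ℕ, ℕ → Finset (A n) := fun n k =>
    ((Finset.range (n + 1)) ×ˢ (Finset.range (k + 1))).image fun x =>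
      if h : x.1 ≤ n then tr s h (d x.1 x.2) else 0
  have hF : ∀ n k m l (h : m ≤ n), l ≤ k → tr s h (d m l) ∈ F n k := by
    intro n k m l h hl
    refine Finset.mem_image.2 ⟨(m, l), Finset.mem_product.2 ⟨?_, ?_⟩, ?_⟩
    · exact Finset.mem_range.2 (by simpa using Nat.lt_succ_of_le h)
    · exact Finset.mem_range.2 (by simpa using Nat.lt_succ_of_le hl)
    · simp only
      rw [dif_pos h]
  choose M hM hM' using fun n k => hf n (F n k) ((1 / 2 : ℝ) ^ k) (by positivity)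
  set N := NN M n₀ with hNdef
  have hN : ∀ k, N k < N (k + 1) := NN_lt M n₀
  have hNm : StrictMono N := NN_mono M n₀
  have hN0 : N 0 = n₀ := rfl
  have hMN : ∀ k, M (N k) k ≤ N (k + 1) := le_NN M n₀
  -- the maps `ρh`
  let ρh : ∀ n, A n →⋆ₐ[ℂ] s.Lim := fun n => (s.ι (n + 1)).comp (ρ n)
  have hρh : ∀ n x, ρh n x = s.ι (n + 1) (ρ n x) := fun n x => rfl
  have hcomm : ∀ n m (_ : m ≤ n) x y, ρh n x * s.ι m y = s.ι m y * ρh n x := by
    intro n m h x y
    have h1 : s.ι m y = s.ι (n + 1) (s.map n (tr s h y)) := by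
      rw [IndSys.ι_map (s := s), ι_tr]
    rw [h1, hρh, ← map_mul, ← map_mul, hρ]
  let σ : ∀ k, A (N k) →⋆ₐ[ℂ] s.Lim := fun k => (ρh (N (k + 1))).comp (tr s (hN k).le)
  have hσ : ∀ k x, σ k x = ρh (N (k + 1)) (tr s (hN k).le x) := fun k x => rfl
  have hcom : ∀ k x y, σ (k + 1) x * ρh (N (k + 1)) y = ρh (N (k + 1)) y * σ (k + 1) x := by
    intro k x y
    rw [hσ, hρh (N (k + 1)) y]
    exact hcomm _ _ (Nat.succ_le_of_lt (hN (k + 1))) _ _
  choose w hw1 hw2 hw3 hw4 using fun k =>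
    hM' (N k) k (N (k + 1)) (hN k).le (hMN k) (σ (k + 1)) (ρh (N (k + 1))) (hcom k)
  have hn₀ : ∀ k, n₀ ≤ N k := fun k => hN0 ▸ hNm.monotone (Nat.zero_le k)
  have hwc : ∀ k y, s.ι n₀ y * w k = w k * s.ι n₀ y := by
    intro k y
    refine hw3 k _ (fun x => ?_) (fun x => ?_)
    · rw [hσ]
      exact (hcomm _ _ (hn₀ _) _ _).symm
    · exact (hcomm _ _ (hn₀ _) _ _).symm
  -- the products
  have hu1 : ∀ k, uu w k * star (uu w k) = 1 := by
    intro k
    induction k with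
    | zero => simp [uu]
    | succ k ih =>
      rw [uu, star_mul]
      calc uu w k * w k * (star (w k) * star (uu w k))
          = uu w k * (w k * star (w k)) * star (uu w k) := by simp only [mul_assoc]
        _ = 1 := by rw [hw1, mul_one, ih]
  have hu2 : ∀ k, star (uu w k) * uu w k = 1 := by
    intro k
    induction k with
    | zero => simp [uu]
    | succ k ih =>
      rw [uu, star_mul]
      calc star (w k) * star (uu w k) * (uu w k * w k)
          = star (w k) * (star (uu w k) * uu w k) * w k := by simp only [mul_assoc]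
        _ = 1 := by rw [ih, mul_one, hw2]
  have huc : ∀ k y, s.ι n₀ y * uu w k = uu w k * s.ι n₀ y := by
    intro k y
    induction k with
    | zero => simp [uu]
    | succ k ih => rw [uu, ← mul_assoc, ih, mul_assoc, hwc, mul_assoc]
  have huc' : ∀ k y, s.ι n₀ y * star (uu w k) = star (uu w k) * s.ι n₀ y := by
    intro k y
    have h1 := congrArg star (huc k (star y))
    rw [star_mul, star_mul, map_star, star_star] at h1
    exact h1.symm
  have hum : ∀ k, uu w k ∈ unitary s.Lim := fun k => Unitary.mem_iff.2 ⟨hu2 k, hu1 k⟩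
  let τ : ∀ k, A (N k) →⋆ₐ[ℂ] s.Lim := fun k =>
    ((Unitary.conjStarAlgAut ℂ s.Lim ⟨uu w k, hum k⟩ : s.Lim ≃⋆ₐ[ℂ] s.Lim) :
      s.Lim →⋆ₐ[ℂ] s.Lim).comp (σ k)
  have hτ : ∀ k x, τ k x = uu w k * σ k x * star (uu w k) := fun k x => rfl
  refine ⟨N, τ, fun m => Set.range (d m), hNm, hd, fun k x y => ?_, ?_⟩
  · rw [hτ]
    have h1 : σ k x * s.ι n₀ y = s.ι n₀ y * σ k x := by
      rw [hσ]
      exact hcomm _ _ (hn₀ _) _ _
    calc uu w k * σ k x * star (uu w k) * s.ι n₀ y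
        = uu w k * σ k x * (star (uu w k) * s.ι n₀ y) := by rw [mul_assoc]
      _ = uu w k * (σ k x * s.ι n₀ y) * star (uu w k) := by
          rw [← huc']
          simp only [mul_assoc]
      _ = (uu w k * s.ι n₀ y) * σ k x * star (uu w k) := by
          rw [h1]
          simp only [mul_assoc]
      _ = s.ι n₀ y * (uu w k * σ k x * star (uu w k)) := by
          rw [← huc]
          simp only [mul_assoc]
  · rintro m _ ⟨l, rfl⟩
    refine ⟨l, fun k hk h h' => ?_⟩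
    have h1 := hw4 k (tr s h (d m l)) (hF (N k) k m l h hk)
    rw [tr_tr s h (hN k).le h'] at h1
    have h2 : ρh (N (k + 1)) (tr s h' (d m l)) = σ k (tr s h (d m l)) := by
      rw [hσ, tr_tr s h (hN k).le h']
    rw [h2] at h1
    have h3 : τ (k + 1) (tr s h' (d m l)) - τ k (tr s h (d m l)) =
        uu w k * (w k * σ (k + 1) (tr s h' (d m l)) * star (w k) - σ k (tr s h (d m l))) *
          star (uu w k) := by
      rw [hτ, hτ, uu, star_mul, mul_sub, sub_mul]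
      simp only [mul_assoc]
    rw [h3, CStarRing.norm_mul_mem_unitary _ (Unitary.star_mem (hum k)),
      CStarRing.norm_mem_unitary_mul _ (hum k)]
    exact h1

end CentSeqAux

theorem exists_central_seq {p q : ℕ → ℕ} (s : IndSys fun n => DimDrop (p n) (q n))
    (hp : ∀ n, 0 < p n) (hq : ∀ n, 0 < q n) (hd : ∀ n, IsDiag (1 / 2) (s.map n))
    (ρ : ∀ n, DimDrop (p n) (q n) →⋆ₐ[ℂ] DimDrop (p (n + 1)) (q (n + 1)))
    (hρ : ∀ n x y, s.map n x * ρ n y = ρ n y * s.map n x) (n₀ : ℕ) :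
    ∃ (N : ℕ → ℕ) (τ : ∀ k, DimDrop (p (N k)) (q (N k)) →⋆ₐ[ℂ] s.Lim)
      (D : ∀ m, Set (DimDrop (p m) (q m))), StrictMono N ∧ (∀ m, Dense (D m)) ∧
      (∀ k x y, τ k x * s.ι n₀ y = s.ι n₀ y * τ k x) ∧
      ∀ m, ∀ a ∈ D m, ∃ k₀, ∀ k, k₀ ≤ k → ∀ (h : m ≤ N k) (h' : m ≤ N (k + 1)),
        ‖τ (k + 1) (tr s h' a) - τ k (tr s h a)‖ ≤ (1 / 2) ^ k := by
  refine CentSeqAux.aux s (fun n => separable_dimDrop (p n) (q n)) (fun n F ε hε => ?_) ρ hρ n₀
  obtain ⟨M, hM, h⟩ := flip_stage s hp hq hd n F hε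
  exact ⟨M, hM, fun m hm hMm i j hij => h m hm hMm s.Lim i j hij⟩

end Pool.Agent.Lib.EJZ
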