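import Pool.Agent.Lib.CStarLim.Completion
import Pool.Agent.Lib.EJS.DimPath

/-!
# Pointwise limits of homomorphisms

PROOF.  All `T k` are contractive, so `T k a` is a Cauchy sequence for every `a` (approximate `a` by elements
of the dense set); take limits (`cauchySeq_tendsto_of_complete`) and pass to the limit in the
algebraic identities (`tendsto_nhds_unique`).  Pattern: `EJS/Intertwine.lean`, lines 155 - 230.
-/

open scoped ComplexOrder
open Filter Topology

namespace Pool.Agent.Lib.EJZ

open Pool.Agent.Lib.EJS CStarLim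

theorem exists_lim_hom {A B : Type*} [CStarAlgebra A] [CStarAlgebra B] (T : ℕ → A →⋆ₐ[ℂ] B)
    (D : Set A) (hD : Dense D) (h : ∀ a ∈ D, CauchySeq fun k => T k a) :
    ∃ T' : A →⋆ₐ[ℂ] B, ∀ a, Tendsto (fun k => T k a) atTop (𝓝 (T' a)) := by
  have hTn : ∀ k a, ‖T k a‖ ≤ ‖a‖ := fun k a => NonUnitalStarAlgHom.norm_apply_le (T k) a
  have hTc : ∀ a, CauchySeq (fun n => T n a) := by
    intro a
    rw [Metric.cauchySeq_iff']
    intro δ hδ
    obtain ⟨b, hbD, hk⟩ := Metric.mem_closure_iff.1 (hD a) (δ / 3) (by positivity)
    obtain ⟨N, hN⟩ := (Metric.cauchySeq_iff'.1 (h b hbD)) (δ / 3) (by positivity)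
    refine ⟨N, fun n hn => ?_⟩
    have h1 := hN n hn
    rw [dist_eq_norm] at h1 hk ⊢
    have e1 : T n a - T N a = T n (a - b) + (T n b - T N b) - T N (a - b) := by
      rw [map_sub, map_sub]
      abel
    rw [e1]
    refine lt_of_le_of_lt ((norm_sub_le _ _).trans (add_le_add (norm_add_le _ _) le_rfl)) ?_
    have h2 := hTn n (a - b)
    have h3 := hTn N (a - b)
    linarith
  choose σf hσf using fun a => cauchySeq_tendsto_of_complete (hTc a)
  have hmul : ∀ a b, σf (a * b) = σf a * σf b := by
    intro a b
    refine tendsto_nhds_unique (hσf (a * b)) ?_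
    refine ((hσf a).mul (hσf b)).congr fun n => ?_
    rw [map_mul]
  have hadd : ∀ a b, σf (a + b) = σf a + σf b := by
    intro a b
    refine tendsto_nhds_unique (hσf (a + b)) ?_
    refine ((hσf a).add (hσf b)).congr fun n => ?_
    rw [map_add]
  have halg : ∀ r : ℂ, σf (algebraMap ℂ A r) = algebraMap ℂ B r := by
    intro r
    refine tendsto_nhds_unique (hσf _) ?_
    refine (tendsto_const_nhds (x := algebraMap ℂ B r)).congr fun n => ?_
    rw [AlgHomClass.commutes]
  have hstar : ∀ a, σf (star a) = star (σf a) := by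
    intro a
    refine tendsto_nhds_unique (hσf (star a)) ?_
    refine ((hσf a).star).congr fun n => ?_
    rw [map_star]
  have hone : σf 1 = 1 := by
    refine tendsto_nhds_unique (hσf 1) ?_
    refine (tendsto_const_nhds (x := (1 : B))).congr fun n => ?_
    rw [map_one]
  have hzero : σf 0 = 0 := by
    refine tendsto_nhds_unique (hσf 0) ?_
    refine (tendsto_const_nhds (x := (0 : B))).congr fun n => ?_
    rw [map_zero]
  exact ⟨{ toFun := σf
           map_one' := hone
           map_mul' := hmul
           map_zero' := hzero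
           map_add' := hadd
           commutes' := halg
           map_star' := hstar }, hσf⟩

end Pool.Agent.Lib.EJZ
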