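import Pool.Agent.Lib.EJZ.CentSeq
import Pool.Agent.Lib.EJZ.LimHom

/-!
# Central endomorphisms of the limit

PROOF.  Let `N, τ, D` be as in `exists_central_seq`.  For `m` and `k` with `m ≤ k` one has `m ≤ N k` (`StrictMono.le_apply`);
put `T m k := (τ (m+k)).comp (tr s (m ≤ N (m+k))) : D m → s.Lim`.  On the dense set it is Cauchy
(geometric series, `EJS` `cauchy_geo` in `EJS/Intertwine.lean` or `cauchySeq_of_le_geometric`), so
`exists_lim_hom` gives `θ m` with `T m k a → θ m a`.  Compatibility `θ (m+1) (s.map m a) = θ m a`: the sequences are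
shifts of each other (`tr_map`).  `σ := IndSys.lift θ _`, `lift_ι`.  Every `T m k x` commutes with `s.ι n₀ y`, so `θ m x` does,
and then `σ x` by density (`IndSys.lim_induction`).
`central_lim`: approximate `F` by `s.ι n '' F'` and use `σ` for `n₀ = n`:
`‖σ x * y - y * σ x‖ ≤ 2 * ‖σ x‖ * ‖y - s.ι n y'‖` and `‖σ x‖ ≤ ‖x‖`.
-/

open scoped ComplexOrder
open Filter Topology

namespace Pool.Agent.Lib.EJZ

open Pool.Agent.Lib.EJS CStarLim

namespace CentralAux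

theorem cauchy_geo {E : Type*} [SeminormedAddCommGroup E] {f : ℕ → E} {k : ℕ}
    (h : ∀ n, k ≤ n → ‖f (n + 1) - f n‖ ≤ (1 / 2 : ℝ) ^ n) : CauchySeq f := by
  rw [← cauchySeq_shift k]
  refine cauchySeq_of_le_geometric (1 / 2) ((1 / 2) ^ k) (by norm_num) (fun n => ?_)
  have h1 := h (n + k) (by omega)
  rw [dist_comm, dist_eq_norm, add_right_comm n 1 k]
  refine h1.trans (le_of_eq ?_)
  rw [pow_add, mul_comm]

theorem aux {A : ℕ → Type} [∀ n, CStarAlgebra (A n)] (s : IndSys A) (n₀ : ℕ)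
    (H : ∃ (N : ℕ → ℕ) (τ : ∀ k, A (N k) →⋆ₐ[ℂ] s.Lim)
      (D : ∀ m, Set (A m)), StrictMono N ∧ (∀ m, Dense (D m)) ∧
      (∀ k x y, τ k x * s.ι n₀ y = s.ι n₀ y * τ k x) ∧
      ∀ m, ∀ a ∈ D m, ∃ k₀, ∀ k, k₀ ≤ k → ∀ (h : m ≤ N k) (h' : m ≤ N (k + 1)),
        ‖τ (k + 1) (tr s h' a) - τ k (tr s h a)‖ ≤ (1 / 2) ^ k) :
    ∃ σ : s.Lim →⋆ₐ[ℂ] s.Lim, ∀ x y, σ x * s.ι n₀ y = s.ι n₀ y * σ x := by
  obtain ⟨N, τ, D, hN, hD, hc, hτ⟩ := H
  have hle : ∀ m k, m ≤ N (m + k) := fun m k =>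
    (Nat.le_add_right m k).trans (hN.le_apply)
  let T : ∀ m, ℕ → A m →⋆ₐ[ℂ] s.Lim := fun m k => (τ (m + k)).comp (tr s (hle m k))
  have hT : ∀ m k a, T m k a = τ (m + k) (tr s (hle m k) a) := fun m k a => rfl
  have hcau : ∀ m, ∀ a ∈ D m, CauchySeq fun k => T m k a := by
    intro m a ha
    obtain ⟨k₀, hk₀⟩ := hτ m a ha
    refine cauchy_geo (k := k₀) fun k hk => ?_
    have h1 := hk₀ (m + k) (by omega) (hle m k) (hle m (k + 1))
    refine h1.trans ?_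
    exact pow_le_pow_of_le_one (by norm_num) (by norm_num) (by omega)
  choose θ hθ using fun m => exists_lim_hom (T m) (D m) (hD m) (hcau m)
  have hcomp : ∀ m a, θ (m + 1) (s.map m a) = θ m a := by
    intro m a
    refine tendsto_nhds_unique (hθ (m + 1) (s.map m a)) ?_
    have h1 : Tendsto (fun k => T m (k + 1) a) atTop (𝓝 (θ m a)) :=
      (tendsto_add_atTop_iff_nat 1).2 (hθ m a)
    refine h1.congr fun k => ?_
    rw [hT, hT]
    have key : ∀ (j j' : ℕ) (_ : j = j') (h : m ≤ N j) (h' : m + 1 ≤ N j'),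
        τ j (tr s h a) = τ j' (tr s h' (s.map m a)) := by
      rintro j _ rfl h h'
      rw [tr_map s h' h]
    exact key _ _ (by omega) _ _
  refine ⟨IndSys.lift θ hcomp, fun x y => ?_⟩
  refine IndSys.lim_induction (P := fun x => IndSys.lift θ hcomp x * s.ι n₀ y =
    s.ι n₀ y * IndSys.lift θ hcomp x) ?_ (fun n a => ?_) x
  · have h1 : Continuous (IndSys.lift θ hcomp) :=
      AddMonoidHomClass.continuous_of_bound (IndSys.lift θ hcomp) 1 fun x => by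
        simpa using NonUnitalStarAlgHom.norm_apply_le (IndSys.lift θ hcomp) x
    exact isClosed_eq (h1.mul continuous_const) (continuous_const.mul h1)
  · rw [IndSys.lift_ι]
    refine tendsto_nhds_unique ((hθ n a).mul_const (s.ι n₀ y)) ?_
    refine ((hθ n a).const_mul (s.ι n₀ y)).congr fun k => ?_
    rw [hT, hc]

end CentralAux

theorem exists_central_hom {p q : ℕ → ℕ} (s : IndSys fun n => DimDrop (p n) (q n))
    (hp : ∀ n, 0 < p n) (hq : ∀ n, 0 < q n) (hd : ∀ n, IsDiag (1 / 2) (s.map n))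
    (ρ : ∀ n, DimDrop (p n) (q n) →⋆ₐ[ℂ] DimDrop (p (n + 1)) (q (n + 1)))
    (hρ : ∀ n x y, s.map n x * ρ n y = ρ n y * s.map n x) (n₀ : ℕ) :
    ∃ σ : s.Lim →⋆ₐ[ℂ] s.Lim, ∀ x y, σ x * s.ι n₀ y = s.ι n₀ y * σ x :=
  CentralAux.aux s n₀ (exists_central_seq s hp hq hd ρ hρ n₀)

theorem central_lim {p q : ℕ → ℕ} (s : IndSys fun n => DimDrop (p n) (q n))
    (hp : ∀ n, 0 < p n) (hq : ∀ n, 0 < q n) (hd : ∀ n, IsDiag (1 / 2) (s.map n))
    (ρ : ∀ n, DimDrop (p n) (q n) →⋆ₐ[ℂ] DimDrop (p (n + 1)) (q (n + 1)))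
    (hρ : ∀ n x y, s.map n x * ρ n y = ρ n y * s.map n x) (F : Finset s.Lim) {ε : ℝ}
    (hε : 0 < ε) : ∃ σ : s.Lim →⋆ₐ[ℂ] s.Lim, ∀ x ∈ F, ∀ y ∈ F, ‖σ x * y - y * σ x‖ < ε := by
  -- a bound for the norms
  obtain ⟨B, hB0, hB⟩ : ∃ B : ℝ, 0 < B ∧ ∀ x ∈ F, ‖x‖ ≤ B := by
    refine ⟨1 + ∑ x ∈ F, ‖x‖, ?_, fun x hx => ?_⟩
    · have : 0 ≤ ∑ x ∈ F, ‖x‖ := Finset.sum_nonneg fun x _ => norm_nonneg x
      linarith
    · have := Finset.single_le_sum (f := fun x => ‖x‖) (fun x _ => norm_nonneg x) hx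
      linarith
  set δ : ℝ := ε / (2 * B + 1) with hδ
  have hδ0 : 0 < δ := by positivity
  obtain ⟨n, -, a, ha⟩ := IndSys.exists_ι_norm_sub_lt_family (s := s) (fun x : F => (x : s.Lim)) hδ0 0
  obtain ⟨σ, hσ⟩ := exists_central_hom s hp hq hd ρ hρ n
  refine ⟨σ, fun x hx y hy => ?_⟩
  have h1 := ha ⟨y, hy⟩
  simp only at h1
  have h2 : σ x * y - y * σ x = σ x * (y - s.ι n (a ⟨y, hy⟩)) - (y - s.ι n (a ⟨y, hy⟩)) * σ x := by
    rw [mul_sub, sub_mul, hσ]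
    abel
  have h3 : ‖σ x‖ ≤ B := (NonUnitalStarAlgHom.norm_apply_le σ x).trans (hB x hx)
  rw [h2]
  calc ‖σ x * (y - s.ι n (a ⟨y, hy⟩)) - (y - s.ι n (a ⟨y, hy⟩)) * σ x‖
      ≤ ‖σ x * (y - s.ι n (a ⟨y, hy⟩))‖ + ‖(y - s.ι n (a ⟨y, hy⟩)) * σ x‖ := norm_sub_le _ _
    _ ≤ ‖σ x‖ * ‖y - s.ι n (a ⟨y, hy⟩)‖ + ‖y - s.ι n (a ⟨y, hy⟩)‖ * ‖σ x‖ :=
        add_le_add (norm_mul_le _ _) (norm_mul_le _ _)
    _ ≤ B * δ + δ * B := by
        have h4 := norm_nonneg (σ x)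
        have h5 := norm_nonneg (y - s.ι n (a ⟨y, hy⟩))
        gcongr
    _ < ε := by
        rw [hδ]
        have : 0 < 2 * B + 1 := by positivity
        rw [← mul_lt_mul_iff_left₀ this]
        field_simp
        nlinarith

end Pool.Agent.Lib.EJZ
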