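import Pool.Agent.Lib.CStarLim.Limit
import Pool.Agent.Lib.EJS.DimPath

/-!
# The connecting maps `A n → A m` of an inductive system
-/

open scoped ComplexOrder
open Filter Topology

namespace Pool.Agent.Lib.EJZ

open Pool.Agent.Lib.EJS CStarLim

universe u

variable {A : ℕ → Type u} [∀ n, CStarAlgebra (A n)]

/-- the connecting map from `A n` to `A m` -/
noncomputable def tr (s : IndSys A) {n m : ℕ} (h : n ≤ m) : A n →⋆ₐ[ℂ] A m where
  toFun a := s.gen n a m
  map_one' := IndSys.gen_one n h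
  map_mul' a b := IndSys.gen_mul n a b h
  map_zero' := IndSys.gen_zero n h
  map_add' a b := IndSys.gen_add n a b h
  commutes' c := IndSys.gen_algebraMap n c h
  map_star' a := IndSys.gen_star n a h

variable (s : IndSys A)

theorem tr_apply {n m : ℕ} (h : n ≤ m) (a : A n) : tr s h a = s.gen n a m := rfl

theorem tr_self {n : ℕ} (h : n ≤ n) (a : A n) : tr s h a = a := IndSys.gen_self n a

theorem tr_self' {n : ℕ} (h : n ≤ n) : tr s h = StarAlgHom.id ℂ (A n) := by
  ext a
  exact tr_self s h a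

theorem tr_succ {n m : ℕ} (h : n ≤ m) (h' : n ≤ m + 1) (a : A n) :
    tr s h' a = s.map m (tr s h a) := IndSys.gen_succ h a

theorem tr_succ' {n m : ℕ} (h : n ≤ m) (h' : n ≤ m + 1) :
    tr s h' = (s.map m).comp (tr s h) := by
  ext a
  exact tr_succ s h h' a

theorem tr_map {n m : ℕ} (h : n + 1 ≤ m) (h' : n ≤ m) (a : A n) :
    tr s h (s.map n a) = tr s h' a := IndSys.gen_map n a h

theorem tr_tr {n m k : ℕ} (h : n ≤ m) (h' : m ≤ k) (h'' : n ≤ k) (a : A n) :
    tr s h' (tr s h a) = tr s h'' a := by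
  induction k, h' using Nat.le_induction with
  | base => rw [tr_self]
  | succ k hk ih => rw [tr_succ s hk, ih (h.trans hk), tr_succ s (h.trans hk)]

theorem norm_tr {n m : ℕ} (h : n ≤ m) (a : A n) : ‖tr s h a‖ = ‖a‖ := IndSys.norm_gen n a h

theorem ι_tr {n m : ℕ} (h : n ≤ m) (a : A n) : s.ι m (tr s h a) = s.ι n a := IndSys.ι_gen n a h

end Pool.Agent.Lib.EJZ
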