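import Pool.Agent.Lib.EJS.DimBase
import Pool.Agent.Lib.EJZ.Defs
import Pool.Agent.Lib.EJZ.Tr

/-!
# Composition of diagonal homomorphisms

PROOF.  Let `φ` have the data `K, ζ, e, V` and `ψ` the data `K', η, e', U`.  Then
`vl t (ψ (φ f)) = U t * ri e' (bd fun k => vl (η k t) (φ f)) * star (U t)` and
`vl (η k t) (φ f) = V (η k t) * ri e (bd fun j => vl (ζ j (η k t)) f) * star (V (η k t))`.  Put
`W t := U t * ri e' (bd fun k => V (η k t))` (unitary; continuous since `η k` is Lipschitz, hence
continuous) and let `e''` be the composite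
`Fin p'' × Fin q'' ≃ (Fin p' × Fin q') × K' ≃ ((Fin p × Fin q) × K) × K' ≃ (Fin p × Fin q) × (K × K')`.
The eigenvalue functions are `fun (j, k) t => ζ j (η k t)`; Lipschitz constant `L * L'` uses `0 ≤ L`; they are
together onto: `x = ζ j y`, `y = η k z`.
`isDiag_tr`: induction on `m`, `tr_self'`, `tr_succ'`.
-/

open scoped ComplexOrder
open Filter Topology

namespace Pool.Agent.Lib.EJZ

open Pool.Agent.Lib.EJS CStarLim

theorem isDiag_id (p q : ℕ) : IsDiag 1 (StarAlgHom.id ℂ (DimDrop p q)) := by
  refine ⟨Unit, inferInstance, inferInstance, fun _ t => t, (Equiv.prodPUnit _).symm,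
    ContinuousMap.const _ 1, ?_, ?_, ?_, ?_, ?_⟩
  · intro _ s t
    simp
  · intro x
    exact ⟨(), x, rfl⟩
  · intro t
    simp
  · intro t
    simp
  · intro f t
    refine cm_ext fun a b => ?_
    simp only [ContinuousMap.const_apply, one_mul, star_one, mul_one]
    rw [ri_apply, bd_apply]
    simp

theorem continuous_ri {S T : Type} [Fintype S] [DecidableEq S] [Fintype T] [DecidableEq T]
    (e : T ≃ S) : Continuous (ri e) :=
  map_continuous (ri e)

theorem continuous_bd {S K : Type} [Fintype S] [DecidableEq S] [Fintype K] [DecidableEq K] :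
    Continuous (bd : (K → CM S) →⋆ₐ[ℂ] CM (S × K)) :=
  map_continuous (bd : (K → CM S) →⋆ₐ[ℂ] CM (S × K))

theorem IsDiag.comp {p q p' q' p'' q'' : ℕ} {L L' : ℝ} {φ : DimDrop p q →⋆ₐ[ℂ] DimDrop p' q'}
    {ψ : DimDrop p' q' →⋆ₐ[ℂ] DimDrop p'' q''} (hL : 0 ≤ L) (hφ : IsDiag L φ)
    (hψ : IsDiag L' ψ) : IsDiag (L * L') (ψ.comp φ) := by
  obtain ⟨K, iK, dK, ζ, e, V, hζ, hζs, hV1, hV2, hφ⟩ := hφ
  obtain ⟨K', iK', dK', η, e', U, hη, hηs, hU1, hU2, hψ⟩ := hψ
  have hηc : ∀ k, Continuous (η k) := by
    intro k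
    have : LipschitzWith (Real.toNNReal L') (η k) := by
      refine LipschitzWith.of_dist_le_mul fun s t => ?_
      rw [Subtype.dist_eq, Subtype.dist_eq, Real.dist_eq, Real.dist_eq]
      refine (hη k s t).trans ?_
      exact mul_le_mul_of_nonneg_right (Real.le_coe_toNNReal L') (abs_nonneg _)
    exact this.continuous
  have hVc : Continuous fun t => (fun k => V (η k t) : K' → CM (Fin p' × Fin q')) :=
    continuous_pi fun k => V.continuous.comp (hηc k)
  let W : C(unitInterval, CM (Fin p'' × Fin q'')) :=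
    ⟨fun t => U t * ri e' (bd fun k => V (η k t)),
      U.continuous.mul ((continuous_ri e').comp (continuous_bd.comp hVc))⟩
  have hW : ∀ t, W t = U t * ri e' (bd fun k => V (η k t)) := fun t => rfl
  have hP1 : ∀ t, (fun k => V (η k t) : K' → CM (Fin p' × Fin q')) *
      star (fun k => V (η k t) : K' → CM (Fin p' × Fin q')) = 1 := by
    intro t
    funext k
    exact hV1 (η k t)
  have hP2 : ∀ t, star (fun k => V (η k t) : K' → CM (Fin p' × Fin q')) *
      (fun k => V (η k t) : K' → CM (Fin p' × Fin q')) = 1 := by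
    intro t
    funext k
    exact hV2 (η k t)
  have hst : ∀ t, star (ri e' (bd fun k => V (η k t))) =
      ri e' (bd (star fun k => V (η k t))) := by
    intro t
    rw [map_star, map_star]
  let e'' : Fin p'' × Fin q'' ≃ (Fin p × Fin q) × (K × K') :=
    (e'.trans (e.prodCongr (Equiv.refl K'))).trans (Equiv.prodAssoc _ _ _)
  refine ⟨K × K', inferInstance, inferInstance, fun k t => ζ k.1 (η k.2 t), e'', W, ?_, ?_, ?_, ?_,
    ?_⟩
  · rintro ⟨j, k⟩ s t
    refine (hζ j _ _).trans ?_
    rw [mul_assoc]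
    exact mul_le_mul_of_nonneg_left (hη k s t) hL
  · intro x
    obtain ⟨j, y, hy⟩ := hζs x
    obtain ⟨k, z, hz⟩ := hηs y
    exact ⟨(j, k), z, by simp only [hz, hy]⟩
  · intro t
    rw [hW, star_mul, hst]
    have h1 : ri e' (bd fun k => V (η k t)) *
        ri e' (bd (star fun k => V (η k t))) = 1 := by
      rw [← map_mul, ← map_mul, hP1, map_one, map_one]
    calc U t * ri e' (bd fun k => V (η k t)) *
        (ri e' (bd (star fun k => V (η k t))) * star (U t))
        = U t * (ri e' (bd fun k => V (η k t)) *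
          ri e' (bd (star fun k => V (η k t)))) * star (U t) := by simp only [mul_assoc]
      _ = 1 := by rw [h1, mul_one, hU1]
  · intro t
    rw [hW, star_mul, hst]
    have h1 : ri e' (bd (star fun k => V (η k t))) *
        ri e' (bd fun k => V (η k t)) = 1 := by
      rw [← map_mul, ← map_mul, hP2, map_one, map_one]
    calc ri e' (bd (star fun k => V (η k t))) * star (U t) *
        (U t * ri e' (bd fun k => V (η k t)))
        = ri e' (bd (star fun k => V (η k t))) * (star (U t) * U t) *
          ri e' (bd fun k => V (η k t)) := by simp only [mul_assoc]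
      _ = 1 := by rw [hU2, mul_one, h1]
  · intro f t
    have h1 : vl t ((ψ.comp φ) f) = vl t (ψ (φ f)) := rfl
    rw [h1, hψ, hW, star_mul, hst]
    have h2 : (fun k => vl (η k t) (φ f)) = (fun k => V (η k t) : K' → CM (Fin p' × Fin q')) *
        (fun k => ri e (bd fun j => vl (ζ j (η k t)) f) : K' → CM (Fin p' × Fin q')) *
        star (fun k => V (η k t) : K' → CM (Fin p' × Fin q')) := by
      funext k
      exact hφ f (η k t)
    have h3 : ri e' (bd (fun k => ri e (bd fun j => vl (ζ j (η k t)) f) :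
        K' → CM (Fin p' × Fin q'))) =
        ri e'' (bd fun k : K × K' => vl (ζ k.1 (η k.2 t)) f) := by
      refine cm_ext fun a b => ?_
      rw [ri_apply, bd_apply, ri_apply, bd_apply]
      simp only [ri_apply, bd_apply, e'', Equiv.trans_apply, Equiv.prodCongr_apply,
        Equiv.prodAssoc_apply, Prod.map, Equiv.refl_apply, Prod.mk.injEq]
      by_cases h4 : (e' a).2 = (e' b).2 <;> by_cases h5 : (e (e' a).1).2 = (e (e' b).1).2 <;>
        simp [h4, h5]
    rw [h2, map_mul, map_mul, map_mul, map_mul, h3]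
    simp only [mul_assoc]

theorem isDiag_tr {p q : ℕ → ℕ} (s : IndSys fun n => DimDrop (p n) (q n))
    (hd : ∀ n, IsDiag (1 / 2) (s.map n)) {n m : ℕ} (h : n ≤ m) :
    IsDiag ((1 / 2) ^ (m - n)) (tr s h) := by
  induction m, h using Nat.le_induction with
  | base =>
    rw [tr_self', Nat.sub_self, pow_zero]
    exact isDiag_id _ _
  | succ m hm ih =>
    rw [tr_succ' s hm, Nat.succ_sub hm, pow_succ]
    exact IsDiag.comp (by positivity) ih (hd m)

end Pool.Agent.Lib.EJZ
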