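import Pool.Agent.Lib.CStarLim.Completion
import Pool.Agent.Lib.EJZ.Defs

/-!
# The two commuting embeddings `f ↦ f ⊗ 1`, `f ↦ 1 ⊗ f` into `Z_{p p, q q}`

PROOF.  Let `e : Fin (p*p) × Fin (q*q) ≃ (Fin p × Fin q) × (Fin p × Fin q)` send `((i,i'),(j,j'))` to
`((i,j),(i',j'))` (`finProdFinEquiv`).  `φ f` is the function `t ↦ ri e (kl (vl t f))` and `ρ f` is
`t ↦ ri e (kr (vl t f))`.  Boundary: `kl (kl x)` reindexed by `e` is `kl` of `kl x` reindexed by
`Fin (p*p) ≃ Fin p × Fin p`, and so on (compare entries).  Either use `mkD` directly or `exists_hom_of_path`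
with `K = Fin p × Fin q`, `ζ = id`, `e₀ = e₁ = e` (then `V` may be nonconstant; for commutation it is
simpler to define both maps directly with `V = 1`; `bd fun _ => x = kl x`).  `IsDiag 1 φ` with
`K = Fin p × Fin q` (nonempty since `0 < p`, `0 < q`), `ζ k t = t`, `V = 1`.  Commutation: `kl_comm_kr`
pointwise and `vl_ext`.
-/

open scoped ComplexOrder
open Filter Topology

namespace Pool.Agent.Lib.EJZ

open Pool.Agent.Lib.EJS CStarLim

namespace DblAux

variable {p q p' q' : ℕ}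

/-- a star homomorphism between the fibres which respects both boundary conditions -/
noncomputable def liftD (θ : CM (Fin p × Fin q) →⋆ₐ[ℂ] CM (Fin p' × Fin q'))
    (h0 : ∀ x : CM (Fin p), ∃ x' : CM (Fin p'), θ (kl x) = kl x')
    (h1 : ∀ y : CM (Fin q), ∃ y' : CM (Fin q'), θ (kr y) = kr y') :
    DimDrop p q →⋆ₐ[ℂ] DimDrop p' q' where
  toFun f := mkD ⟨fun t => θ (vl t f), (map_continuous θ).comp (continuous_vl f)⟩
    (by
      obtain ⟨x, hx⟩ := vl_zero f
      obtain ⟨x', hx'⟩ := h0 x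
      exact ⟨x', by rw [← hx', ← hx]; rfl⟩)
    (by
      obtain ⟨y, hy⟩ := vl_one f
      obtain ⟨y', hy'⟩ := h1 y
      exact ⟨y', by rw [← hy', ← hy]; rfl⟩)
  map_one' := vl_ext fun t => by
    rw [vl_mkD, ContinuousMap.coe_mk, map_one, map_one, map_one]
  map_mul' f g := vl_ext fun t => by
    rw [vl_mkD, ContinuousMap.coe_mk, map_mul, map_mul, map_mul]
    rfl
  map_zero' := vl_ext fun t => by
    rw [vl_mkD, ContinuousMap.coe_mk, map_zero, map_zero, map_zero]
  map_add' f g := vl_ext fun t => by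
    rw [vl_mkD, ContinuousMap.coe_mk, map_add, map_add, map_add]
    rfl
  commutes' r := vl_ext fun t => by
    rw [vl_mkD, ContinuousMap.coe_mk, AlgHomClass.commutes (vl t), AlgHomClass.commutes θ,
      AlgHomClass.commutes (vl t)]
  map_star' f := vl_ext fun t => by
    rw [vl_mkD, ContinuousMap.coe_mk, map_star, map_star, map_star]
    rfl

theorem vl_liftD (θ : CM (Fin p × Fin q) →⋆ₐ[ℂ] CM (Fin p' × Fin q'))
    (h0 : ∀ x : CM (Fin p), ∃ x' : CM (Fin p'), θ (kl x) = kl x')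
    (h1 : ∀ y : CM (Fin q), ∃ y' : CM (Fin q'), θ (kr y) = kr y')
    (f : DimDrop p q) (t : unitInterval) : vl t (liftD θ h0 h1 f) = θ (vl t f) := rfl

/-- the reordering of the factors -/
def eD (p q : ℕ) : Fin (p * p) × Fin (q * q) ≃ (Fin p × Fin q) × (Fin p × Fin q) :=
  (finProdFinEquiv.symm.prodCongr finProdFinEquiv.symm).trans (Equiv.prodProdProdComm _ _ _ _)

theorem eD_apply (p q : ℕ) (a : Fin (p * p) × Fin (q * q)) :
    eD p q a = (((finProdFinEquiv.symm a.1).1, (finProdFinEquiv.symm a.2).1),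
      ((finProdFinEquiv.symm a.1).2, (finProdFinEquiv.symm a.2).2)) := rfl

theorem eq_iff {n : ℕ} (a b : Fin (n * n)) :
    a = b ↔ (finProdFinEquiv.symm a : Fin n × Fin n).1 = (finProdFinEquiv.symm b).1 ∧
      (finProdFinEquiv.symm a : Fin n × Fin n).2 = (finProdFinEquiv.symm b).2 := by
  rw [← Prod.ext_iff, Equiv.apply_eq_iff_eq]

theorem l0 (x : CM (Fin p)) :
    ((ri (eD p q)).comp (kl : CM (Fin p × Fin q) →⋆ₐ[ℂ] CM ((Fin p × Fin q) × (Fin p × Fin q))))
      (kl x) = kl (ri finProdFinEquiv.symm (kl x : CM (Fin p × Fin p))) := by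
  refine cm_ext fun a b => ?_
  rw [StarAlgHom.comp_apply, ri_apply, kl_apply, kl_apply, kl_apply, ri_apply, kl_apply, eD_apply,
    eD_apply]
  simp only [Prod.mk.injEq, eq_iff a.2 b.2]
  split_ifs <;> simp_all

theorem l1 (y : CM (Fin q)) :
    ((ri (eD p q)).comp (kl : CM (Fin p × Fin q) →⋆ₐ[ℂ] CM ((Fin p × Fin q) × (Fin p × Fin q))))
      (kr y) = kr (ri finProdFinEquiv.symm (kl y : CM (Fin q × Fin q))) := by
  refine cm_ext fun a b => ?_
  rw [StarAlgHom.comp_apply, ri_apply, kl_apply, kr_apply, kr_apply, ri_apply, kl_apply, eD_apply,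
    eD_apply]
  simp only [Prod.mk.injEq, eq_iff a.1 b.1]
  split_ifs <;> simp_all

theorem r0 (x : CM (Fin p)) :
    ((ri (eD p q)).comp (kr : CM (Fin p × Fin q) →⋆ₐ[ℂ] CM ((Fin p × Fin q) × (Fin p × Fin q))))
      (kl x) = kl (ri finProdFinEquiv.symm (kr x : CM (Fin p × Fin p))) := by
  refine cm_ext fun a b => ?_
  rw [StarAlgHom.comp_apply, ri_apply, kr_apply, kl_apply, kl_apply, ri_apply, kr_apply, eD_apply,
    eD_apply]
  simp only [Prod.mk.injEq, eq_iff a.2 b.2]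
  split_ifs <;> simp_all

theorem r1 (y : CM (Fin q)) :
    ((ri (eD p q)).comp (kr : CM (Fin p × Fin q) →⋆ₐ[ℂ] CM ((Fin p × Fin q) × (Fin p × Fin q))))
      (kr y) = kr (ri finProdFinEquiv.symm (kr y : CM (Fin q × Fin q))) := by
  refine cm_ext fun a b => ?_
  rw [StarAlgHom.comp_apply, ri_apply, kr_apply, kr_apply, kr_apply, ri_apply, kr_apply, eD_apply,
    eD_apply]
  simp only [Prod.mk.injEq, eq_iff a.1 b.1]
  split_ifs <;> simp_all

theorem bd_const (x : CM (Fin p × Fin q)) :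
    (bd (fun _ : Fin p × Fin q => x) : CM ((Fin p × Fin q) × (Fin p × Fin q))) = kl x :=
  cm_ext fun a b => by rw [bd_apply, kl_apply]

end DblAux

theorem exists_dbl (p q : ℕ) (hp : 0 < p) (hq : 0 < q) :
    ∃ φ ρ : DimDrop p q →⋆ₐ[ℂ] DimDrop (p * p) (q * q), IsDiag 1 φ ∧
      ∀ f g, φ f * ρ g = ρ g * φ f := by
  refine ⟨DblAux.liftD ((ri (DblAux.eD p q)).comp kl) (fun x => ⟨_, DblAux.l0 x⟩)
      (fun y => ⟨_, DblAux.l1 y⟩),
    DblAux.liftD ((ri (DblAux.eD p q)).comp kr) (fun x => ⟨_, DblAux.r0 x⟩)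
      (fun y => ⟨_, DblAux.r1 y⟩), ?_, ?_⟩
  · refine ⟨Fin p × Fin q, inferInstance, inferInstance, fun _ t => t, DblAux.eD p q,
      ContinuousMap.const _ 1, ?_, ?_, ?_, ?_, ?_⟩
    · intro k s t
      rw [one_mul]
    · intro x
      exact ⟨(⟨0, hp⟩, ⟨0, hq⟩), x, rfl⟩
    · intro t
      simp
    · intro t
      simp
    · intro f t
      rw [DblAux.vl_liftD, DblAux.bd_const]
      simp
  · intro f g
    refine vl_ext fun t => ?_
    rw [map_mul, map_mul, DblAux.vl_liftD, DblAux.vl_liftD, StarAlgHom.comp_apply,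
      StarAlgHom.comp_apply, ← map_mul, ← map_mul, kl_comm_kr]

end Pool.Agent.Lib.EJZ
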