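import Pool.Agent.Lib.CStarLim.Completion
import Pool.Agent.Lib.EJS.DimBase
import Pool.Agent.Lib.EJZ.Defs

/-!
# The fibres of a dimension drop algebra

PROOF.  `x = 0`: `U = Fin p`, `lam = kl`; `x = 1`: `U = Fin q`, `lam = kr`; otherwise `U = Fin p × Fin q` and
`lam = StarAlgHom.id`.  `B g a := mkD (t ↦ (g t : ℂ) • lam a)`: if `x ≠ 0` then `g 0 = 0` and the value at `0` is `0 = kl 0`;
if `x = 0` the value at `0` is `g 0 • kl a = kl (g 0 • a)`; similarly at `1`.  (`x = 0` forces `x ≠ 1`, so `g 1 = 0`.)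
-/

open scoped ComplexOrder
open Filter Topology

namespace Pool.Agent.Lib.EJZ

open Pool.Agent.Lib.EJS CStarLim

namespace FiberAux

theorem general {p q : ℕ} (x : unitInterval) {U : Type} [Fintype U] [DecidableEq U]
    (lam : CM U →⋆ₐ[ℂ] CM (Fin p × Fin q)) (g : C(unitInterval, ℝ))
    (h0 : ∀ a, ∃ y : CM (Fin p), (g 0 : ℂ) • lam a = kl y)
    (h1 : ∀ a, ∃ y : CM (Fin q), (g 1 : ℂ) • lam a = kr y) :
    ∃ B : CM U →ₗ[ℂ] DimDrop p q, ∀ a t, vl t (B a) = (g t : ℂ) • lam a := by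
  have hc : ∀ a : CM U, Continuous fun t : unitInterval => (g t : ℂ) • lam a := fun a =>
    (Complex.continuous_ofReal.comp g.continuous).smul continuous_const
  let D : CM U → DimDrop p q := fun a => mkD ⟨fun t => (g t : ℂ) • lam a, hc a⟩ (h0 a) (h1 a)
  have hD : ∀ a t, vl t (D a) = (g t : ℂ) • lam a := fun a t => vl_mkD _ _ _ t
  refine ⟨{ toFun := D, map_add' := ?_, map_smul' := ?_ }, hD⟩
  · intro a b
    apply vl_ext
    intro t
    refine Eq.trans ?_ (map_add (vl t) (D a) (D b)).symm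
    rw [hD, hD, hD, map_add, smul_add]
  · intro c a
    apply vl_ext
    intro t
    refine Eq.trans ?_ (map_smul (vl t) c (D a)).symm
    rw [hD, hD, map_smul, smul_comm]

end FiberAux

open FiberAux in
theorem exists_fiber {p q : ℕ} (hp : 0 < p) (hq : 0 < q) (x : unitInterval) :
    ∃ (U : Type) (_ : Fintype U) (_ : DecidableEq U) (_ : Nonempty U)
      (lam : CM U →⋆ₐ[ℂ] CM (Fin p × Fin q)), (∀ f : DimDrop p q, ∃ a, vl x f = lam a) ∧
      ∀ g : C(unitInterval, ℝ), (g 0 ≠ 0 → x = 0) → (g 1 ≠ 0 → x = 1) →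
        ∃ B : CM U →ₗ[ℂ] DimDrop p q, ∀ a t, vl t (B a) = (g t : ℂ) • lam a := by
  haveI : Nonempty (Fin p) := ⟨⟨0, hp⟩⟩
  haveI : Nonempty (Fin q) := ⟨⟨0, hq⟩⟩
  by_cases hx0 : x = 0
  · subst hx0
    refine ⟨Fin p, inferInstance, inferInstance, inferInstance, kl, fun f => vl_zero f, ?_⟩
    intro g _ hg1
    have hg : g 1 = 0 := by
      by_contra h
      exact zero_ne_one (hg1 h)
    refine general 0 kl g (fun a => ⟨(g 0 : ℂ) • a, ?_⟩) (fun a => ⟨0, ?_⟩)
    · rw [map_smul]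
    · rw [hg, Complex.ofReal_zero, zero_smul, map_zero]
  · by_cases hx1 : x = 1
    · subst hx1
      refine ⟨Fin q, inferInstance, inferInstance, inferInstance, kr, fun f => vl_one f, ?_⟩
      intro g hg0 _
      have hg : g 0 = 0 := by
        by_contra h
        exact hx0 (hg0 h)
      refine general 1 kr g (fun a => ⟨0, ?_⟩) (fun a => ⟨(g 1 : ℂ) • a, ?_⟩)
      · rw [hg, Complex.ofReal_zero, zero_smul, map_zero]
      · rw [map_smul]
    · refine ⟨Fin p × Fin q, inferInstance, inferInstance, inferInstance,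
        StarAlgHom.id ℂ _, fun f => ⟨vl x f, rfl⟩, ?_⟩
      intro g hg0 hg1
      have h0 : g 0 = 0 := by
        by_contra h
        exact hx0 (hg0 h)
      have h1 : g 1 = 0 := by
        by_contra h
        exact hx1 (hg1 h)
      refine general x (StarAlgHom.id ℂ _) g (fun a => ⟨0, ?_⟩) (fun a => ⟨0, ?_⟩)
      · rw [h0, Complex.ofReal_zero, zero_smul, map_zero]
      · rw [h1, Complex.ofReal_zero, zero_smul, map_zero]

end Pool.Agent.Lib.EJZ
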