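import Pool.Agent.Lib.CStarLim.Completion
import Pool.Agent.Lib.EJZ.Defs

/-!
# The flips

PROOF.  Compare entries.  In words: `f13` is the permutation matrix of the exchange of the two `P`-factors of
`(P ⊗ Q) ⊗ (P ⊗ Q)`, `g24` of the exchange of the two `Q`-factors, `sw` of the exchange of the two halves.
Each row of each of these matrices has exactly one nonzero entry, so `Fintype.sum_eq_single` (twice
`Fintype.sum_prod_type` if convenient) computes the products.  A convenient way: first prove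
`(f13 * X) a b = X ((a.2.1, a.1.2), (a.1.1, a.2.2)) b` and `(X * f13) a b = X a ((b.2.1, b.1.2), (b.1.1, b.2.2))`,
similarly for `g24` and `sw`; then everything is immediate.
-/

open scoped ComplexOrder
open Filter Topology

namespace Pool.Agent.Lib.EJZ

open Pool.Agent.Lib.EJS CStarLim

variable {P Q : Type} [Fintype P] [DecidableEq P] [Fintype Q] [DecidableEq Q]

namespace SwapFAux

private def s13 (a : (P × Q) × (P × Q)) : (P × Q) × (P × Q) := ((a.2.1, a.1.2), (a.1.1, a.2.2))

private def s24 (a : (P × Q) × (P × Q)) : (P × Q) × (P × Q) := ((a.1.1, a.2.2), (a.2.1, a.1.2))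

private theorem f13_eq (a b : (P × Q) × (P × Q)) : f13 P Q a b = if b = s13 a then 1 else 0 := by
  unfold f13 s13
  refine if_congr ?_ rfl rfl
  constructor
  · rintro ⟨h1, h2, h3, h4⟩
    exact Prod.ext (Prod.ext h2.symm h3.symm) (Prod.ext h1.symm h4.symm)
  · rintro rfl
    exact ⟨rfl, rfl, rfl, rfl⟩

private theorem f13_eq' (a b : (P × Q) × (P × Q)) : f13 P Q a b = if a = s13 b then 1 else 0 := by
  unfold f13 s13
  refine if_congr ?_ rfl rfl
  constructor
  · rintro ⟨h1, h2, h3, h4⟩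
    exact Prod.ext (Prod.ext h1 h3) (Prod.ext h2 h4)
  · rintro rfl
    exact ⟨rfl, rfl, rfl, rfl⟩

private theorem g24_eq (a b : (P × Q) × (P × Q)) : g24 P Q a b = if b = s24 a then 1 else 0 := by
  unfold g24 s24
  refine if_congr ?_ rfl rfl
  constructor
  · rintro ⟨h1, h2, h3, h4⟩
    exact Prod.ext (Prod.ext h1.symm h4.symm) (Prod.ext h2.symm h3.symm)
  · rintro rfl
    exact ⟨rfl, rfl, rfl, rfl⟩

private theorem g24_eq' (a b : (P × Q) × (P × Q)) : g24 P Q a b = if a = s24 b then 1 else 0 := by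
  unfold g24 s24
  refine if_congr ?_ rfl rfl
  constructor
  · rintro ⟨h1, h2, h3, h4⟩
    exact Prod.ext (Prod.ext h1 h3) (Prod.ext h2 h4)
  · rintro rfl
    exact ⟨rfl, rfl, rfl, rfl⟩

private theorem sw_eq (a b : (P × Q) × (P × Q)) :
    sw P Q a b = if b = (a.2, a.1) then 1 else 0 := by
  unfold sw
  refine if_congr ?_ rfl rfl
  constructor
  · rintro ⟨h1, h2⟩
    exact Prod.ext h2.symm h1.symm
  · rintro rfl
    exact ⟨rfl, rfl⟩

private theorem sw_eq' (a b : (P × Q) × (P × Q)) :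
    sw P Q a b = if a = (b.2, b.1) then 1 else 0 := by
  unfold sw
  refine if_congr ?_ rfl rfl
  constructor
  · rintro ⟨h1, h2⟩
    exact Prod.ext h1 h2
  · rintro rfl
    exact ⟨rfl, rfl⟩

private theorem f13_mul (X : CM ((P × Q) × (P × Q))) (a b : (P × Q) × (P × Q)) :
    (f13 P Q * X) a b = X (s13 a) b := by
  rw [cm_mul]
  simp only [f13_eq, ite_mul, one_mul, zero_mul, Finset.sum_ite_eq', Finset.mem_univ, if_true]

private theorem mul_f13 (X : CM ((P × Q) × (P × Q))) (a b : (P × Q) × (P × Q)) :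
    (X * f13 P Q) a b = X a (s13 b) := by
  rw [cm_mul]
  simp only [f13_eq', mul_ite, mul_one, mul_zero, Finset.sum_ite_eq', Finset.mem_univ, if_true]

private theorem g24_mul (X : CM ((P × Q) × (P × Q))) (a b : (P × Q) × (P × Q)) :
    (g24 P Q * X) a b = X (s24 a) b := by
  rw [cm_mul]
  simp only [g24_eq, ite_mul, one_mul, zero_mul, Finset.sum_ite_eq', Finset.mem_univ, if_true]

private theorem mul_g24 (X : CM ((P × Q) × (P × Q))) (a b : (P × Q) × (P × Q)) :
    (X * g24 P Q) a b = X a (s24 b) := by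
  rw [cm_mul]
  simp only [g24_eq', mul_ite, mul_one, mul_zero, Finset.sum_ite_eq', Finset.mem_univ, if_true]

private theorem sw_mul (X : CM ((P × Q) × (P × Q))) (a b : (P × Q) × (P × Q)) :
    (sw P Q * X) a b = X (a.2, a.1) b := by
  rw [cm_mul]
  simp only [sw_eq, ite_mul, one_mul, zero_mul, Finset.sum_ite_eq', Finset.mem_univ, if_true]

private theorem mul_sw (X : CM ((P × Q) × (P × Q))) (a b : (P × Q) × (P × Q)) :
    (X * sw P Q) a b = X a (b.2, b.1) := by
  rw [cm_mul]
  simp only [sw_eq', mul_ite, mul_one, mul_zero, Finset.sum_ite_eq', Finset.mem_univ, if_true]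

end SwapFAux

open SwapFAux

theorem f13_star : star (f13 P Q) = f13 P Q := by
  refine cm_ext fun a b => ?_
  rw [cm_star, f13_eq, f13_eq']
  split_ifs <;> simp

theorem f13_sq : f13 P Q * f13 P Q = 1 := by
  refine cm_ext fun a b => ?_
  rw [f13_mul, f13_eq, cm_one]
  refine if_congr ?_ rfl rfl
  unfold s13
  constructor
  · rintro rfl
    rfl
  · rintro rfl
    rfl

theorem g24_star : star (g24 P Q) = g24 P Q := by
  refine cm_ext fun a b => ?_
  rw [cm_star, g24_eq, g24_eq']
  split_ifs <;> simp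

theorem g24_sq : g24 P Q * g24 P Q = 1 := by
  refine cm_ext fun a b => ?_
  rw [g24_mul, g24_eq, cm_one]
  refine if_congr ?_ rfl rfl
  unfold s24
  constructor
  · rintro rfl
    rfl
  · rintro rfl
    rfl

theorem f13_g24 : f13 P Q * g24 P Q = sw P Q := by
  refine cm_ext fun a b => ?_
  rw [f13_mul, g24_eq, sw_eq]
  rfl

theorem g24_f13 : g24 P Q * f13 P Q = sw P Q := by
  refine cm_ext fun a b => ?_
  rw [g24_mul, f13_eq, sw_eq]
  rfl

theorem sw_star : star (sw P Q) = sw P Q := by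
  refine cm_ext fun a b => ?_
  rw [cm_star, sw_eq, sw_eq']
  split_ifs <;> simp

theorem sw_sq : sw P Q * sw P Q = 1 := by
  refine cm_ext fun a b => ?_
  rw [sw_mul, sw_eq, cm_one]
  refine if_congr ?_ rfl rfl
  constructor
  · rintro rfl
    rfl
  · rintro rfl
    rfl

theorem sw_kl (x : CM (P × Q)) : sw P Q * kl x = kr x * sw P Q := by
  refine cm_ext fun a b => ?_
  rw [sw_mul, mul_sw, kl_apply, kr_apply]

theorem sw_kr (x : CM (P × Q)) : sw P Q * kr x = kl x * sw P Q := by
  refine cm_ext fun a b => ?_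
  rw [sw_mul, mul_sw, kl_apply, kr_apply]

theorem f13_kl_kr (y : CM Q) : f13 P Q * kl (kr y) = kl (kr y) * f13 P Q := by
  refine cm_ext fun a b => ?_
  rw [f13_mul, mul_f13, kl_apply, kl_apply, kr_apply, kr_apply]
  unfold s13
  by_cases h1 : a.1.1 = b.2.1 <;> by_cases h2 : a.2.1 = b.1.1 <;> by_cases h3 : a.2.2 = b.2.2 <;>
    simp [h1, h2, h3, Prod.ext_iff]

theorem f13_kr_kr (y : CM Q) : f13 P Q * kr (kr y) = kr (kr y) * f13 P Q := by
  refine cm_ext fun a b => ?_
  rw [f13_mul, mul_f13, kr_apply, kr_apply, kr_apply, kr_apply]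
  unfold s13
  by_cases h1 : a.1.1 = b.2.1 <;> by_cases h2 : a.2.1 = b.1.1 <;> by_cases h3 : a.1.2 = b.1.2 <;>
    simp [h1, h2, h3, Prod.ext_iff]

theorem g24_kl_kl (x : CM P) : g24 P Q * kl (kl x) = kl (kl x) * g24 P Q := by
  refine cm_ext fun a b => ?_
  rw [g24_mul, mul_g24, kl_apply, kl_apply, kl_apply, kl_apply]
  unfold s24
  by_cases h1 : a.1.2 = b.2.2 <;> by_cases h2 : a.2.2 = b.1.2 <;> by_cases h3 : a.2.1 = b.2.1 <;>
    simp [h1, h2, h3, Prod.ext_iff]

theorem g24_kr_kl (x : CM P) : g24 P Q * kr (kl x) = kr (kl x) * g24 P Q := by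
  refine cm_ext fun a b => ?_
  rw [g24_mul, mul_g24, kr_apply, kr_apply, kl_apply, kl_apply]
  unfold s24
  by_cases h1 : a.1.2 = b.2.2 <;> by_cases h2 : a.2.2 = b.1.2 <;> by_cases h3 : a.1.1 = b.1.1 <;>
    simp [h1, h2, h3, Prod.ext_iff]

end Pool.Agent.Lib.EJZ
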