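import Pool.Agent.Lib.EJZ.Pth
import Pool.Agent.Lib.EJZ.SwapF

/-!
# Boundary conditions of `WM`

PROOF.  Write `L = kl`, `R = kr`, `f = f13`, `g = g24`, `S = sw = f g = g f`, `a = L(V₀)^* g L(V₀)`,
`b = L(V₁)^* f L(V₁)`, `x_τ = pth x τ`.  Facts: `S L(x) = R(x) S`; `L` and `R` commute; `f` commutes with
`L(kr y)`, `R(kr y)`; `g` commutes with `L(kl x)`, `R(kl x)`; `x_0 = 1`, `x_1 = x`; `(u^* x u)_τ = u^* x_τ u`.
On the boundary `rM` is: `s = 0`: `b_t a`; `t = 1`: `b a_{1-s}`; `s = 1`: `a_{1-t} b`; `t = 0`: `a b_s` (in the corners both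
branches agree or `s ≤ t` decides; compute the `max`).  Hence
left   `W(0,t) = R(V_t) S b_t a L(V₀)^* = R(V_t V₁^*) f_t R(V₁ V₀^*) f`, commutes with `L(kr y)`
  (use `a L(V₀)^* = L(V₀)^* g`, `S b_t = R(V₁)^* S f_t L(V₁)`, `f_t S = S f_t`, `S L(V₁ V₀^*) = R(V₁ V₀^*) S`, `S g = f`);
top    `W(s,1) = g L(V₁) a_{1-s} L(V_s)^*` (use `S b = R(V₁)^* g L(V₁)`), and
  `a_{1-s} = L(V₀)^* g_{1-s} L(V₀)`; commutes with `R(kl x)`;
right  `W(1,t) = R(V_t) S a_{1-t} b L(V₁)^* = R(V_t V₀^*) g_{1-t} R(V₀ V₁^*) g`, commutes with `L(kl x)`;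
bottom `W(s,0) = f L(V₀) b_s L(V_s)^*` (use `S a = R(V₀)^* f L(V₀)`), `b_s = L(V₁)^* f_s L(V₁)`; commutes with `R(kr y)`.
-/

open scoped ComplexOrder
open Filter Topology

namespace Pool.Agent.Lib.EJZ

open Pool.Agent.Lib.EJS CStarLim

variable {P Q : Type} [Fintype P] [DecidableEq P] [Fintype Q] [DecidableEq Q]

namespace SqBdAux

private theorem unit_l {x : CM (P × Q)} (h : x * star x = 1) :
    (kl x : CM ((P × Q) × (P × Q))) * star (kl x) = 1 := by
  rw [← map_star, ← map_mul, h, map_one]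

private theorem unit_r {x : CM (P × Q)} (h : x * star x = 1) :
    (kr x : CM ((P × Q) × (P × Q))) * star (kr x) = 1 := by
  rw [← map_star, ← map_mul, h, map_one]

private theorem unit_l' {x : CM (P × Q)} (h : star x * x = 1) :
    star (kl x : CM ((P × Q) × (P × Q))) * kl x = 1 := by
  rw [← map_star, ← map_mul, h, map_one]

private theorem sw_kls (x : CM (P × Q)) : sw P Q * star (kl x) = star (kr x) * sw P Q := by
  rw [← map_star, sw_kl, map_star]

private theorem sw_f : sw P Q * f13 P Q = g24 P Q := by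
  rw [← g24_f13, mul_assoc, f13_sq, mul_one]

private theorem sw_g : sw P Q * g24 P Q = f13 P Q := by
  rw [← f13_g24, mul_assoc, g24_sq, mul_one]

private theorem f_sw : f13 P Q * sw P Q = g24 P Q := by
  rw [← f13_g24, ← mul_assoc, f13_sq, one_mul]

private theorem g_sw : g24 P Q * sw P Q = f13 P Q := by
  rw [← g24_f13, ← mul_assoc, g24_sq, one_mul]

private theorem sw_pf (τ : ℝ) : sw P Q * pth (f13 P Q) τ = pth (f13 P Q) τ * sw P Q :=
  (pth_comm (by rw [f_sw, sw_f]) τ).symm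

private theorem sw_pg (τ : ℝ) : sw P Q * pth (g24 P Q) τ = pth (g24 P Q) τ * sw P Q :=
  (pth_comm (by rw [g_sw, sw_g]) τ).symm

private theorem pth_aM {V₀ : CM (P × Q)} (h : star V₀ * V₀ = 1) (τ : ℝ) :
    pth (aM V₀) τ = star (kl V₀) * pth (g24 P Q) τ * kl V₀ :=
  pth_conj (unit_l' h) τ

private theorem pth_bM {V₁ : CM (P × Q)} (h : star V₁ * V₁ = 1) (τ : ℝ) :
    pth (bM V₁) τ = star (kl V₁) * pth (f13 P Q) τ * kl V₁ :=
  pth_conj (unit_l' h) τ

private theorem rM_left (V₀ V₁ : CM (P × Q)) {t : ℝ} (h0 : 0 ≤ t) (h1 : t ≤ 1) :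
    rM V₀ V₁ 0 t = pth (bM V₁) t * aM V₀ := by
  unfold rM
  rw [if_pos h0, max_eq_left (by linarith), max_eq_right (by linarith)]
  have : (1 : ℝ) - 2 * 0 = 1 := by norm_num
  rw [this, pth_one, sub_zero]

private theorem rM_top (V₀ V₁ : CM (P × Q)) {s : ℝ} (h0 : 0 ≤ s) (h1 : s ≤ 1) :
    rM V₀ V₁ s 1 = bM V₁ * pth (aM V₀) (1 - s) := by
  unfold rM
  rw [if_pos h1, max_eq_right (by linarith), max_eq_left (by linarith)]
  have : (2 : ℝ) * 1 - 1 = 1 := by norm_num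
  rw [this, pth_one]

private theorem rM_right (V₀ V₁ : CM (P × Q)) {t : ℝ} (h0 : 0 ≤ t) (h1 : t ≤ 1) :
    rM V₀ V₁ 1 t = pth (aM V₀) (1 - t) * bM V₁ := by
  rcases h1.eq_or_lt with h | h
  · subst h
    rw [rM_top V₀ V₁ zero_le_one le_rfl, sub_self, pth_zero, one_mul, mul_one]
  · unfold rM
    rw [if_neg (not_le.2 h), max_eq_left (by linarith), max_eq_right (by linarith)]
    have : (2 : ℝ) * 1 - 1 = 1 := by norm_num
    rw [this, pth_one]

private theorem rM_bottom (V₀ V₁ : CM (P × Q)) {s : ℝ} (h0 : 0 ≤ s) (h1 : s ≤ 1) :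
    rM V₀ V₁ s 0 = aM V₀ * pth (bM V₁) s := by
  rcases h0.eq_or_lt with h | h
  · subst h
    rw [rM_left V₀ V₁ le_rfl zero_le_one, pth_zero, one_mul, mul_one]
  · unfold rM
    rw [if_neg (not_le.2 h), max_eq_right (by linarith), max_eq_left (by linarith)]
    have : (1 : ℝ) - 2 * 0 = 1 := by norm_num
    rw [this, pth_one, sub_zero]

variable {V : unitInterval → CM (P × Q)}

private theorem WM_left (h1 : ∀ t, V t * star (V t) = 1) (h2 : ∀ t, star (V t) * V t = 1)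
    (t : unitInterval) : WM V 0 t =
      kr (V t) * (star (kr (V 1)) * (pth (f13 P Q) t * (kr (V 1) * (star (kr (V 0)) *
        f13 P Q)))) := by
  unfold WM
  rw [Set.Icc.coe_zero, rM_left _ _ t.2.1 t.2.2, pth_bM (h2 1)]
  unfold aM
  have e1 : ∀ Z : CM ((P × Q) × (P × Q)), sw P Q * (kl (V 1) * Z) = kr (V 1) * (sw P Q * Z) := by
    intro Z; rw [← mul_assoc, sw_kl, mul_assoc]
  have e2 : ∀ Z : CM ((P × Q) × (P × Q)),
      sw P Q * (star (kl (V 1)) * Z) = star (kr (V 1)) * (sw P Q * Z) := by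
    intro Z; rw [← mul_assoc, sw_kls, mul_assoc]
  have e3 : ∀ Z : CM ((P × Q) × (P × Q)),
      sw P Q * (star (kl (V 0)) * Z) = star (kr (V 0)) * (sw P Q * Z) := by
    intro Z; rw [← mul_assoc, sw_kls, mul_assoc]
  have e4 : ∀ Z : CM ((P × Q) × (P × Q)),
      sw P Q * (pth (f13 P Q) t * Z) = pth (f13 P Q) t * (sw P Q * Z) := by
    intro Z; rw [← mul_assoc, sw_pf, mul_assoc]
  simp only [mul_assoc]
  rw [unit_l (h1 0), mul_one, e2, e4, e1, e3, sw_g]

private theorem WM_right (h1 : ∀ t, V t * star (V t) = 1) (h2 : ∀ t, star (V t) * V t = 1)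
    (t : unitInterval) : WM V 1 t =
      kr (V t) * (star (kr (V 0)) * (pth (g24 P Q) (1 - t) * (kr (V 0) * (star (kr (V 1)) *
        g24 P Q)))) := by
  unfold WM
  rw [Set.Icc.coe_one, rM_right _ _ t.2.1 t.2.2, pth_aM (h2 0)]
  unfold bM
  have e1 : ∀ Z : CM ((P × Q) × (P × Q)), sw P Q * (kl (V 0) * Z) = kr (V 0) * (sw P Q * Z) := by
    intro Z; rw [← mul_assoc, sw_kl, mul_assoc]
  have e2 : ∀ Z : CM ((P × Q) × (P × Q)),
      sw P Q * (star (kl (V 1)) * Z) = star (kr (V 1)) * (sw P Q * Z) := by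
    intro Z; rw [← mul_assoc, sw_kls, mul_assoc]
  have e3 : ∀ Z : CM ((P × Q) × (P × Q)),
      sw P Q * (star (kl (V 0)) * Z) = star (kr (V 0)) * (sw P Q * Z) := by
    intro Z; rw [← mul_assoc, sw_kls, mul_assoc]
  have e4 : ∀ Z : CM ((P × Q) × (P × Q)),
      sw P Q * (pth (g24 P Q) (1 - t) * Z) = pth (g24 P Q) (1 - t) * (sw P Q * Z) := by
    intro Z; rw [← mul_assoc, sw_pg, mul_assoc]
  simp only [mul_assoc]
  rw [unit_l (h1 1), mul_one, e3, e4, e1, e2, sw_f]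

private theorem WM_top (h1 : ∀ t, V t * star (V t) = 1) (h2 : ∀ t, star (V t) * V t = 1)
    (s : unitInterval) : WM V s 1 =
      g24 P Q * (kl (V 1) * (star (kl (V 0)) * (pth (g24 P Q) (1 - s) * (kl (V 0) *
        star (kl (V s)))))) := by
  unfold WM
  rw [Set.Icc.coe_one, rM_top _ _ s.2.1 s.2.2, pth_aM (h2 0)]
  unfold bM
  have e2 : ∀ Z : CM ((P × Q) × (P × Q)),
      sw P Q * (star (kl (V 1)) * Z) = star (kr (V 1)) * (sw P Q * Z) := by
    intro Z; rw [← mul_assoc, sw_kls, mul_assoc]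
  have e3 : ∀ Z : CM ((P × Q) × (P × Q)), kr (V 1) * (star (kr (V 1)) * Z) = Z := by
    intro Z; rw [← mul_assoc, unit_r (h1 1), one_mul]
  have e4 : ∀ Z : CM ((P × Q) × (P × Q)), sw P Q * (f13 P Q * Z) = g24 P Q * Z := by
    intro Z; rw [← mul_assoc, sw_f]
  simp only [mul_assoc]
  rw [e2, e3, e4]

private theorem WM_bottom (h1 : ∀ t, V t * star (V t) = 1) (h2 : ∀ t, star (V t) * V t = 1)
    (s : unitInterval) : WM V s 0 =
      f13 P Q * (kl (V 0) * (star (kl (V 1)) * (pth (f13 P Q) s * (kl (V 1) *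
        star (kl (V s)))))) := by
  unfold WM
  rw [Set.Icc.coe_zero, rM_bottom _ _ s.2.1 s.2.2, pth_bM (h2 1)]
  unfold aM
  have e2 : ∀ Z : CM ((P × Q) × (P × Q)),
      sw P Q * (star (kl (V 0)) * Z) = star (kr (V 0)) * (sw P Q * Z) := by
    intro Z; rw [← mul_assoc, sw_kls, mul_assoc]
  have e3 : ∀ Z : CM ((P × Q) × (P × Q)), kr (V 0) * (star (kr (V 0)) * Z) = Z := by
    intro Z; rw [← mul_assoc, unit_r (h1 0), one_mul]
  have e4 : ∀ Z : CM ((P × Q) × (P × Q)), sw P Q * (g24 P Q * Z) = f13 P Q * Z := by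
    intro Z; rw [← mul_assoc, sw_g]
  simp only [mul_assoc]
  rw [e2, e3, e4]

private theorem comm_kl (x z : CM (P × Q)) :
    Commute (kl x : CM ((P × Q) × (P × Q))) (kr z) := commute_kl_kr x z

private theorem comm_kls (x z : CM (P × Q)) :
    Commute (star (kl x) : CM ((P × Q) × (P × Q))) (kr z) := by
  rw [← map_star]
  exact commute_kl_kr _ _

private theorem comm_kr (x z : CM (P × Q)) :
    Commute (kr x : CM ((P × Q) × (P × Q))) (kl z) := (commute_kl_kr z x).symm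

private theorem comm_krs (x z : CM (P × Q)) :
    Commute (star (kr x) : CM ((P × Q) × (P × Q))) (kl z) := by
  rw [← map_star]
  exact (commute_kl_kr _ _).symm

end SqBdAux

open SqBdAux

theorem bdry_WM {V : unitInterval → CM (P × Q)} (h1 : ∀ t, V t * star (V t) = 1)
    (h2 : ∀ t, star (V t) * V t = 1) : Bdry (WM V) where
  left t y := by
    rw [WM_left h1 h2]
    exact (comm_kr _ _).mul_left ((comm_krs _ _).mul_left (Commute.mul_left (pth_comm (f13_kl_kr y) _)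
      ((comm_kr _ _).mul_left ((comm_krs _ _).mul_left (f13_kl_kr y)))))
  right t x := by
    rw [WM_right h1 h2]
    exact (comm_kr _ _).mul_left ((comm_krs _ _).mul_left (Commute.mul_left (pth_comm (g24_kl_kl x) _)
      ((comm_kr _ _).mul_left ((comm_krs _ _).mul_left (g24_kl_kl x)))))
  bottom s y := by
    rw [WM_bottom h1 h2]
    exact Commute.mul_left (f13_kr_kr y) ((comm_kl _ _).mul_left ((comm_kls _ _).mul_left
      (Commute.mul_left (pth_comm (f13_kr_kr y) _) ((comm_kl _ _).mul_left (comm_kls _ _)))))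
  top s x := by
    rw [WM_top h1 h2]
    exact Commute.mul_left (g24_kr_kl x) ((comm_kl _ _).mul_left ((comm_kls _ _).mul_left
      (Commute.mul_left (pth_comm (g24_kr_kl x) _) ((comm_kl _ _).mul_left (comm_kls _ _)))))

end Pool.Agent.Lib.EJZ
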