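import Pool.Agent.Lib.EJZ.Pth

/-!
# Continuity of `WM`

PROOF.  `rM V₀ V₁ s t` is defined by two formulas which agree for `s = t` (then one of
`max 0 (2 t - 1)`, `max 0 (1 - 2 t)` is `0` and `pth _ 0 = 1`), use `Continuous.if_le` and `continuous_pth`.  `kr`, `kl` are
star homomorphisms, hence continuous.
-/

open scoped ComplexOrder
open Filter Topology

namespace Pool.Agent.Lib.EJZ

open Pool.Agent.Lib.EJS CStarLim

variable {P Q : Type} [Fintype P] [DecidableEq P] [Fintype Q] [DecidableEq Q]

namespace SqContAux

theorem continuous_hom {S T : Type} [Fintype S] [DecidableEq S] [Fintype T] [DecidableEq T]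
    (φ : CM S →⋆ₐ[ℂ] CM T) : Continuous φ :=
  AddMonoidHomClass.continuous_of_bound φ 1 fun x => by
    rw [one_mul]
    exact NonUnitalStarAlgHom.norm_apply_le φ x

end SqContAux

theorem continuous_rM (V₀ V₁ : CM (P × Q)) :
    Continuous fun z : ℝ × ℝ => rM V₀ V₁ z.1 z.2 := by
  unfold rM
  apply Continuous.if_le
  · exact ((continuous_pth (bM V₁)).comp (by fun_prop)).mul
      ((continuous_pth (aM V₀)).comp (by fun_prop))
  · exact ((continuous_pth (aM V₀)).comp (by fun_prop)).mul
      ((continuous_pth (bM V₁)).comp (by fun_prop))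
  · exact continuous_fst
  · exact continuous_snd
  · rintro ⟨s, t⟩ h
    change s = t at h
    subst h
    simp only [sub_self]
    rcases le_total (2 * s) 1 with h | h
    · rw [max_eq_left (by linarith : 2 * s - 1 ≤ 0), pth_zero, one_mul, mul_one]
    · rw [max_eq_left (by linarith : 1 - 2 * s ≤ 0), pth_zero, one_mul, mul_one]

open SqContAux in
theorem continuous_WM {V : unitInterval → CM (P × Q)} (hV : Continuous V) :
    Continuous fun z : unitInterval × unitInterval => WM V z.1 z.2 := by
  unfold WM
  refine Continuous.mul (Continuous.mul (Continuous.mul ?_ continuous_const) ?_) ?_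
  · exact (continuous_hom (kr : CM (P × Q) →⋆ₐ[ℂ] CM ((P × Q) × (P × Q)))).comp
      (hV.comp continuous_snd)
  · exact (continuous_rM (V 0) (V 1)).comp
      ((continuous_subtype_val.comp continuous_fst).prodMk
        (continuous_subtype_val.comp continuous_snd))
  · exact ((continuous_hom (kl : CM (P × Q) →⋆ₐ[ℂ] CM ((P × Q) × (P × Q)))).comp
      (hV.comp continuous_fst)).star

end Pool.Agent.Lib.EJZ
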