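import Pool.Agent.Lib.EJZ.SqUni

/-!
# `WM` almost implements the flip

PROOF.  Write `L = kl`, `R = kr`, `c_t = c t`, `V_t = V t`.  `‖V_t^* c_t V_t - d‖ ≤ ε` for all `t`.
(1) `a := aM (V 0)` satisfies `‖a L(d) - L(d) a‖ ≤ 2 ε`: `c_0 = kl x`, so `g24` commutes with `L(c_0)`
(`g24_kl_kl`), `a L(V₀^* c_0 V₀) = L(V₀^* c_0 V₀) a`, and `‖d - V₀^* c_0 V₀‖ ≤ ε`.
(2) `b := bM (V 1)`: the same with `c_1 = kr y` and `f13_kl_kr`.
(3) `r := rM (V 0) (V 1) s t` is a product of a `pth a _` and a `pth b _`; by `norm_pth_comm_le` and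
unitarity `‖r L(d) - L(d) r‖ ≤ 4 ε`.
(4) `W L(c_s) W^* - R(c_t)`: `L(V_s)^* L(c_s) L(V_s)` is `ε`-close to `L(d)`; `r L(d) r^*` is `4 ε`-close to `L(d)`;
`R(V_t) S L(d) S^* R(V_t)^* = R(V_t d V_t^*)` is `ε`-close to `R(c_t)`.  Total `6 ε`.
(`kl`, `kr` are contractive; the norm of a unitary is at most `1`.)
-/

open scoped ComplexOrder
open Filter Topology

namespace Pool.Agent.Lib.EJZ

open Pool.Agent.Lib.EJS CStarLim

variable {P Q : Type} [Fintype P] [DecidableEq P] [Fintype Q] [DecidableEq Q]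

namespace SqEstAux

variable {T : Type} [Fintype T] [DecidableEq T]

private theorem norm_le_one {u : CM T} (h : star u * u = 1) : ‖u‖ ≤ 1 := by
  have h1 : ‖u‖ * ‖u‖ = ‖(1 : CM T)‖ := by rw [← CStarRing.norm_star_mul_self, h]
  have h2 : ‖(1 : CM T)‖ ≤ 1 := by
    have h3 : ‖(1 : CM T)‖ * ‖(1 : CM T)‖ = ‖(1 : CM T)‖ := by
      rw [← CStarRing.norm_star_mul_self, star_one, one_mul]
    by_contra h4
    push Not at h4
    nlinarith
  nlinarith [norm_nonneg u]

private theorem norm_mul3_le {u x v : CM T} (hu : ‖u‖ ≤ 1) (hv : ‖v‖ ≤ 1) :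
    ‖u * x * v‖ ≤ ‖x‖ := by
  calc ‖u * x * v‖ ≤ ‖u * x‖ * ‖v‖ := norm_mul_le _ _
    _ ≤ ‖u * x‖ * 1 := mul_le_mul_of_nonneg_left hv (norm_nonneg _)
    _ = ‖u * x‖ := mul_one _
    _ ≤ ‖u‖ * ‖x‖ := norm_mul_le _ _
    _ ≤ 1 * ‖x‖ := mul_le_mul_of_nonneg_right hu (norm_nonneg _)
    _ = ‖x‖ := one_mul _

private theorem norm_kl_le (x : CM (P × Q)) : ‖(kl x : CM ((P × Q) × (P × Q)))‖ ≤ ‖x‖ :=
  NonUnitalStarAlgHom.norm_apply_le (kl : CM (P × Q) →⋆ₐ[ℂ] CM ((P × Q) × (P × Q))) x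

private theorem norm_kr_le (x : CM (P × Q)) : ‖(kr x : CM ((P × Q) × (P × Q)))‖ ≤ ‖x‖ :=
  NonUnitalStarAlgHom.norm_apply_le (kr : CM (P × Q) →⋆ₐ[ℂ] CM ((P × Q) × (P × Q))) x

/-- commutator estimate for products -/
private theorem comm_mul_le {u v d : CM T} {a b : ℝ} (hu : ‖u‖ ≤ 1) (hv : ‖v‖ ≤ 1)
    (h1 : ‖u * d - d * u‖ ≤ a) (h2 : ‖v * d - d * v‖ ≤ b) :
    ‖(u * v) * d - d * (u * v)‖ ≤ a + b := by
  have e : (u * v) * d - d * (u * v) = u * (v * d - d * v) + (u * d - d * u) * v := by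
    simp only [mul_sub, sub_mul, mul_assoc]
    abel
  rw [e]
  have h3 : ‖u * (v * d - d * v)‖ ≤ b := by
    refine (norm_mul_le _ _).trans ?_
    nlinarith [norm_nonneg (v * d - d * v), norm_nonneg u]
  have h4 : ‖(u * d - d * u) * v‖ ≤ a := by
    refine (norm_mul_le _ _).trans ?_
    nlinarith [norm_nonneg (u * d - d * u), norm_nonneg v]
  linarith [norm_add_le (u * (v * d - d * v)) ((u * d - d * u) * v)]

/-- commutator with something near an element which commutes -/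
private theorem comm_near_le {u d e : CM T} {ε : ℝ} (hu : ‖u‖ ≤ 1) (he : ‖d - e‖ ≤ ε)
    (h : u * e = e * u) : ‖u * d - d * u‖ ≤ 2 * ε := by
  have e1 : u * d - d * u = u * (d - e) - (d - e) * u := by
    simp only [mul_sub, sub_mul, h]
    abel
  rw [e1]
  have h3 : ‖u * (d - e)‖ ≤ ε := by
    refine (norm_mul_le _ _).trans ?_
    nlinarith [norm_nonneg (d - e), norm_nonneg u]
  have h4 : ‖(d - e) * u‖ ≤ ε := by
    refine (norm_mul_le _ _).trans ?_
    nlinarith [norm_nonneg (d - e), norm_nonneg u]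
  linarith [norm_sub_le (u * (d - e)) ((d - e) * u)]

/-- conjugation by a unitary -/
private theorem conj_near_le {V c d : CM T} {ε : ℝ} (h1 : V * star V = 1) (h2 : star V * V = 1)
    (hc : ‖c - V * d * star V‖ ≤ ε) : ‖d - star V * c * V‖ ≤ ε := by
  have e1 : star V * (c - V * d * star V) * V = star V * c * V - d := by
    have e2 : star V * (V * d * star V) * V = (star V * V) * d * (star V * V) := by
      simp only [mul_assoc]
    rw [mul_sub, sub_mul, e2, h2, one_mul, mul_one]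
  have h4 : ‖star V * (c - V * d * star V) * V‖ ≤ ‖c - V * d * star V‖ :=
    norm_mul3_le (norm_le_one (by rw [star_star]; exact h1)) (norm_le_one h2)
  rw [norm_sub_rev, ← e1]
  exact h4.trans hc

private theorem commuteFlip {u x : CM T} {F e : CM T} (h1 : u * star u = 1)
    (h : F * x = x * F) (he : e = star u * x * u) :
    (star u * F * u) * e = e * (star u * F * u) := by
  subst he
  calc (star u * F * u) * (star u * x * u) = star u * F * (u * star u) * x * u := by
        simp only [mul_assoc]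
    _ = star u * (F * x) * u := by rw [h1, mul_one]; simp only [mul_assoc]
    _ = star u * x * (u * star u) * F * u := by rw [h, h1, mul_one]; simp only [mul_assoc]
    _ = (star u * x * u) * (star u * F * u) := by simp only [mul_assoc]

end SqEstAux

open SqEstAux

theorem norm_WM_conj_le {V : unitInterval → CM (P × Q)} (h1 : ∀ t, V t * star (V t) = 1)
    (h2 : ∀ t, star (V t) * V t = 1) (c : unitInterval → CM (P × Q)) (d : CM (P × Q)) {ε : ℝ}
    (h0 : ∃ x : CM P, c 0 = kl x) (h3 : ∃ y : CM Q, c 1 = kr y)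
    (hc : ∀ t, ‖c t - V t * d * star (V t)‖ ≤ ε) (s t : unitInterval) :
    ‖WM V s t * kl (c s) * star (WM V s t) - kr (c t)‖ ≤ 6 * ε := by
  have hL1 : ∀ t, (kl (V t) : CM ((P × Q) × (P × Q))) * star (kl (V t)) = 1 := fun t => by
    rw [← map_star, ← map_mul, h1, map_one]
  have hL2 : ∀ t, star (kl (V t) : CM ((P × Q) × (P × Q))) * kl (V t) = 1 := fun t => by
    rw [← map_star, ← map_mul, h2, map_one]
  have hR1 : ∀ t, (kr (V t) : CM ((P × Q) × (P × Q))) * star (kr (V t)) = 1 := fun t => by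
    rw [← map_star, ← map_mul, h1, map_one]
  have hR2 : ∀ t, star (kr (V t) : CM ((P × Q) × (P × Q))) * kr (V t) = 1 := fun t => by
    rw [← map_star, ← map_mul, h2, map_one]
  have hnear : ∀ t, ‖(kl d : CM ((P × Q) × (P × Q))) - star (kl (V t)) * kl (c t) * kl (V t)‖ ≤ ε := by
    intro t
    have e1 : (kl d : CM ((P × Q) × (P × Q))) - star (kl (V t)) * kl (c t) * kl (V t) =
        kl (d - star (V t) * c t * V t) := by
      rw [map_sub, map_mul, map_mul, map_star]
    rw [e1]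
    exact (norm_kl_le _).trans (conj_near_le (h1 t) (h2 t) (hc t))
  -- the flips almost commute with `kl d`
  have ha : ‖aM (V 0) * kl d - kl d * aM (V 0)‖ ≤ 2 * ε := by
    obtain ⟨x, hx⟩ := h0
    refine comm_near_le (norm_le_one ?_) (hnear 0) ?_
    · rw [star_aM, aM_sq (h1 0) (h2 0)]
    · exact commuteFlip (hL1 0) (by rw [hx]; exact g24_kl_kl x) rfl
  have hb : ‖bM (V 1) * kl d - kl d * bM (V 1)‖ ≤ 2 * ε := by
    obtain ⟨y, hy⟩ := h3
    refine comm_near_le (norm_le_one ?_) (hnear 1) ?_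
    · rw [star_bM, bM_sq (h1 1) (h2 1)]
    · exact commuteFlip (hL1 1) (by rw [hy]; exact f13_kl_kr y) rfl
  have hpa : ∀ τ, ‖pth (aM (V 0)) τ‖ ≤ 1 := fun τ =>
    norm_le_one (star_mul_pth (star_aM _) (aM_sq (h1 0) (h2 0)) τ)
  have hpb : ∀ τ, ‖pth (bM (V 1)) τ‖ ≤ 1 := fun τ =>
    norm_le_one (star_mul_pth (star_bM _) (bM_sq (h1 1) (h2 1)) τ)
  have hr : ‖rM (V 0) (V 1) s t * kl d - kl d * rM (V 0) (V 1) s t‖ ≤ 4 * ε := by
    have hab : ∀ τ σ, ‖(pth (bM (V 1)) τ * pth (aM (V 0)) σ) * kl d -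
        kl d * (pth (bM (V 1)) τ * pth (aM (V 0)) σ)‖ ≤ 2 * ε + 2 * ε := fun τ σ =>
      comm_mul_le (hpb τ) (hpa σ) ((norm_pth_comm_le _ _ _).trans hb)
        ((norm_pth_comm_le _ _ _).trans ha)
    have hba : ∀ τ σ, ‖(pth (aM (V 0)) τ * pth (bM (V 1)) σ) * kl d -
        kl d * (pth (aM (V 0)) τ * pth (bM (V 1)) σ)‖ ≤ 2 * ε + 2 * ε := fun τ σ =>
      comm_mul_le (hpa τ) (hpb σ) ((norm_pth_comm_le _ _ _).trans ha)
        ((norm_pth_comm_le _ _ _).trans hb)
    unfold rM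
    split_ifs
    · exact (hab _ _).trans (by linarith)
    · exact (hba _ _).trans (by linarith)
  have hrn : ‖rM (V 0) (V 1) s t‖ ≤ 1 :=
    norm_le_one (star_mul_rM (h1 0) (h2 0) (h1 1) (h2 1) _ _)
  have hru : rM (V 0) (V 1) s t * star (rM (V 0) (V 1) s t) = 1 :=
    rM_mul_star (h1 0) (h2 0) (h1 1) (h2 1) _ _
  have hrs : ‖star (rM (V 0) (V 1) s t)‖ ≤ 1 := norm_le_one (by rw [star_star]; exact hru)
  -- first step
  have s1 : ‖star (kl (V s)) * kl (c s) * kl (V s) - (kl d : CM ((P × Q) × (P × Q)))‖ ≤ ε := by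
    rw [norm_sub_rev]; exact hnear s
  -- second step
  set r := rM (V 0) (V 1) s t with hrdef
  have s2 : ‖r * (star (kl (V s)) * kl (c s) * kl (V s)) * star r - kl d‖ ≤ 5 * ε := by
    have e1 : r * (star (kl (V s)) * kl (c s) * kl (V s)) * star r - kl d =
        r * (star (kl (V s)) * kl (c s) * kl (V s) - kl d) * star r +
          (r * kl d - kl d * r) * star r := by
      have e2 : kl d * r * star r = kl d := by rw [mul_assoc, hru, mul_one]
      rw [mul_sub, sub_mul, sub_mul, e2]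
      abel
    rw [e1]
    have h4 := norm_mul3_le (x := star (kl (V s)) * kl (c s) * kl (V s) - kl d) hrn hrs
    have h5 : ‖(r * kl d - kl d * r) * star r‖ ≤ 4 * ε := by
      refine (norm_mul_le _ _).trans ?_
      nlinarith [norm_nonneg (r * kl d - kl d * r), norm_nonneg (star r)]
    linarith [norm_add_le (r * (star (kl (V s)) * kl (c s) * kl (V s) - kl d) * star r)
      ((r * kl d - kl d * r) * star r)]
  -- third step
  have hS : star (sw P Q) * sw P Q = 1 := by rw [sw_star, sw_sq]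
  have hu : ‖(kr (V t) : CM ((P × Q) × (P × Q))) * sw P Q‖ ≤ 1 :=
    norm_le_one (star_mul_of_two (hR2 t) hS)
  have hS' : sw P Q * star (sw P Q) = 1 := by rw [sw_star, sw_sq]
  have hus : ‖star ((kr (V t) : CM ((P × Q) × (P × Q))) * sw P Q)‖ ≤ 1 :=
    norm_le_one (by rw [star_star]; exact mul_star_of_two (hR1 t) hS')
  have e3 : WM V s t * kl (c s) * star (WM V s t) =
      (kr (V t) * sw P Q) * (r * (star (kl (V s)) * kl (c s) * kl (V s)) * star r) *
        star (kr (V t) * sw P Q) := by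
    unfold WM
    rw [← hrdef]
    simp only [star_mul, star_star, mul_assoc]
  have e4 : (kr (V t) * sw P Q) * kl d * star (kr (V t) * sw P Q) =
      kr (V t * d * star (V t)) := by
    calc (kr (V t) * sw P Q) * kl d * star (kr (V t) * sw P Q)
        = kr (V t) * (sw P Q * kl d) * sw P Q * star (kr (V t)) := by
          rw [star_mul, sw_star]; simp only [mul_assoc]
      _ = kr (V t) * kr d * (sw P Q * sw P Q) * star (kr (V t)) := by
          rw [sw_kl]; simp only [mul_assoc]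
      _ = kr (V t * d * star (V t)) := by
          rw [sw_sq, mul_one, map_mul, map_mul, map_star]
  have e5 : WM V s t * kl (c s) * star (WM V s t) - kr (c t) =
      (kr (V t) * sw P Q) * (r * (star (kl (V s)) * kl (c s) * kl (V s)) * star r - kl d) *
        star (kr (V t) * sw P Q) - kr (c t - V t * d * star (V t)) := by
    rw [mul_sub, sub_mul, e4, e3, map_sub]
    abel
  rw [e5]
  have h6 := norm_mul3_le
    (x := r * (star (kl (V s)) * kl (c s) * kl (V s)) * star r - kl d) hu hus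
  have h7 : ‖(kr (c t - V t * d * star (V t)) : CM ((P × Q) × (P × Q)))‖ ≤ ε :=
    (norm_kr_le _).trans (hc t)
  refine (norm_sub_le _ _).trans ?_
  linarith

end Pool.Agent.Lib.EJZ
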