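import Pool.Agent.Lib.EJZ.NormIneq
import Pool.Agent.Lib.EJZ.ApproxW

/-!
# Transfer of unitaries on the square to arbitrary completions

PROOF.  Call `(X, y)` with `X : [0,1]² → CM _` and `y : C` related if
`X s t = ∑ k, kl (vl s (f k)) * kr (vl t (g k))` and `y = ∑ k, i (f k) * j (g k)` for some finite family.  Related pairs
are closed under sums, products, star and contain `(1, 1)`, `(kl ∘ x, i x)`, `(kr ∘ y, j y)` (products: index set
`κ × κ'`, `kl_comm_kr` and `hc`); by `norm_sum_le` a related pair satisfies `‖y‖ ≤ sup ‖X s t‖`.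
By `exists_sum_approx` choose related pairs `(X_n, y_n)` with `‖W s t - X_n s t‖ ≤ 2^{-n}`.  Then
`‖y_n - y_m‖ ≤ 2^{-n} + 2^{-m}`, so `y_n → w`.  `(X_n^* X_n - 1, y_n^* y_n - 1)` is related, so
`‖y_n^* y_n - 1‖ ≤ sup ‖X_n^* X_n - 1‖ → 0`, hence `w^* w = 1`, similarly `w w^* = 1`.  Each `y_n` commutes with every `c`
commuting with the images, so `w` does.  Finally
`‖y_n i(x) y_n^* - j(y)‖ ≤ sup ‖X_n kl(vl s x) X_n^* - kr(vl t y)‖ ≤ ε + const * 2^{-n}`.
-/

open scoped ComplexOrder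
open Filter Topology

namespace Pool.Agent.Lib.EJZ

open Pool.Agent.Lib.EJS CStarLim

namespace TransferAux

section General

variable {A : Type*} [CStarAlgebra A]

theorem norm_one_le' : ‖(1 : A)‖ ≤ 1 := by
  have h := CStarRing.norm_star_mul_self (x := (1 : A))
  rw [star_one, one_mul] at h
  by_contra hc
  push Not at hc
  nlinarith

theorem norm_uni {W : A} (h : star W * W = 1) : ‖W‖ ≤ 1 := by
  have h1 := CStarRing.norm_star_mul_self (x := W)
  rw [h] at h1
  have h2 := norm_one_le' (A := A)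
  by_contra hc
  push Not at hc
  nlinarith [norm_nonneg W]

theorem conj_diff {X W : A} {δ : ℝ} (hW : ‖W‖ ≤ 1) (h : ‖W - X‖ ≤ δ) (hδ : δ ≤ 1) (a : A) :
    ‖X * a * star X - W * a * star W‖ ≤ 3 * δ * ‖a‖ := by
  have h0 : 0 ≤ δ := (norm_nonneg _).trans h
  have h' : ‖X - W‖ ≤ δ := by rwa [norm_sub_rev]
  have hX : ‖X‖ ≤ 1 + δ := by
    calc ‖X‖ = ‖W + (X - W)‖ := by rw [add_sub_cancel]
      _ ≤ ‖W‖ + ‖X - W‖ := norm_add_le _ _
      _ ≤ 1 + δ := add_le_add hW h'
  have e : X * a * star X - W * a * star W =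
      (X - W) * a * star X + W * a * star (X - W) := by
    rw [star_sub]
    noncomm_ring
  rw [e]
  have ha := norm_nonneg a
  calc ‖(X - W) * a * star X + W * a * star (X - W)‖
      ≤ ‖(X - W) * a * star X‖ + ‖W * a * star (X - W)‖ := norm_add_le _ _
    _ ≤ ‖X - W‖ * ‖a‖ * ‖star X‖ + ‖W‖ * ‖a‖ * ‖star (X - W)‖ :=
        add_le_add (norm_mul₃_le ..) (norm_mul₃_le ..)
    _ = ‖X - W‖ * ‖a‖ * ‖X‖ + ‖W‖ * ‖a‖ * ‖X - W‖ := by rw [norm_star, norm_star]
    _ ≤ δ * ‖a‖ * (1 + δ) + 1 * ‖a‖ * δ := by gcongr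
    _ ≤ 3 * δ * ‖a‖ := by nlinarith [mul_nonneg h0 ha, mul_nonneg (mul_nonneg h0 ha) (sub_nonneg.2 hδ)]

end General

section Related

variable {p q : ℕ} {C : Type*} [CStarAlgebra C]

/-- related pairs -/
def Rel (i j : DimDrop p q →⋆ₐ[ℂ] C)
    (X : unitInterval → unitInterval → CM ((Fin p × Fin q) × (Fin p × Fin q))) (y : C) : Prop :=
  ∃ (κ : Type) (_ : Fintype κ) (f g : κ → DimDrop p q),
    (∀ s t, X s t = ∑ k, kl (vl s (f k)) * kr (vl t (g k))) ∧ y = ∑ k, i (f k) * j (g k)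

variable {i j : DimDrop p q →⋆ₐ[ℂ] C}
  {X X' : unitInterval → unitInterval → CM ((Fin p × Fin q) × (Fin p × Fin q))} {y y' : C}

theorem Rel.norm_le (hp : 0 < p) (hq : 0 < q) (hc : ∀ x y, i x * j y = j y * i x)
    (h : Rel i j X y) {M : ℝ} (hM : 0 ≤ M) (hX : ∀ s t, ‖X s t‖ ≤ M) : ‖y‖ ≤ M := by
  obtain ⟨κ, hκ, f, g, h1, rfl⟩ := h
  refine norm_sum_le hp hq i j hc f g hM fun s t => ?_
  rw [← h1]
  exact hX s t

theorem Rel.add (h : Rel i j X y) (h' : Rel i j X' y') :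
    Rel i j (fun s t => X s t + X' s t) (y + y') := by
  obtain ⟨κ, hκ, f, g, h1, rfl⟩ := h
  obtain ⟨κ', hκ', f', g', h1', rfl⟩ := h'
  refine ⟨κ ⊕ κ', inferInstance, Sum.elim f f', Sum.elim g g', fun s t => ?_, ?_⟩
  · show X s t + X' s t = _
    rw [Fintype.sum_sum_type, h1, h1']
    rfl
  · rw [Fintype.sum_sum_type]
    rfl

theorem Rel.neg (h : Rel i j X y) : Rel i j (fun s t => - X s t) (-y) := by
  obtain ⟨κ, hκ, f, g, h1, rfl⟩ := h
  refine ⟨κ, hκ, fun k => - f k, g, fun s t => ?_, ?_⟩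
  · show - X s t = _
    rw [h1, ← Finset.sum_neg_distrib]
    refine Finset.sum_congr rfl fun k _ => ?_
    rw [map_neg, map_neg, neg_mul]
  · rw [← Finset.sum_neg_distrib]
    refine Finset.sum_congr rfl fun k _ => ?_
    rw [map_neg, neg_mul]

theorem Rel.sub (h : Rel i j X y) (h' : Rel i j X' y') :
    Rel i j (fun s t => X s t - X' s t) (y - y') := by
  have := h.add h'.neg
  simpa only [sub_eq_add_neg] using this

theorem Rel.mul (hc : ∀ x y, i x * j y = j y * i x) (h : Rel i j X y) (h' : Rel i j X' y') :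
    Rel i j (fun s t => X s t * X' s t) (y * y') := by
  obtain ⟨κ, hκ, f, g, h1, rfl⟩ := h
  obtain ⟨κ', hκ', f', g', h1', rfl⟩ := h'
  refine ⟨κ × κ', inferInstance, fun k => f k.1 * f' k.2, fun k => g k.1 * g' k.2,
    fun s t => ?_, ?_⟩
  · show X s t * X' s t = _
    rw [h1, h1', Finset.sum_mul_sum, Fintype.sum_prod_type]
    refine Finset.sum_congr rfl fun k _ => Finset.sum_congr rfl fun k' _ => ?_
    rw [map_mul, map_mul, map_mul, map_mul, mul_assoc, mul_assoc,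
      ← mul_assoc (kr (vl t (g k))), ← kl_comm_kr, mul_assoc]
  · rw [Finset.sum_mul_sum, Fintype.sum_prod_type]
    refine Finset.sum_congr rfl fun k _ => Finset.sum_congr rfl fun k' _ => ?_
    rw [map_mul, map_mul, mul_assoc, mul_assoc, ← mul_assoc (j (g k)), ← hc, mul_assoc]

theorem Rel.star (hc : ∀ x y, i x * j y = j y * i x) (h : Rel i j X y) :
    Rel i j (fun s t => star (X s t)) (star y) := by
  obtain ⟨κ, hκ, f, g, h1, rfl⟩ := h
  refine ⟨κ, hκ, fun k => Star.star (f k), fun k => Star.star (g k), fun s t => ?_, ?_⟩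
  · show Star.star (X s t) = _
    rw [h1, star_sum]
    refine Finset.sum_congr rfl fun k _ => ?_
    rw [star_mul, map_star, map_star, map_star, map_star, ← star_mul, ← star_mul, kl_comm_kr]
  · rw [star_sum]
    refine Finset.sum_congr rfl fun k _ => ?_
    rw [star_mul, map_star, map_star, ← star_mul, ← star_mul, hc]

theorem Rel.one : Rel i j (fun _ _ => 1) 1 :=
  ⟨Unit, inferInstance, fun _ => 1, fun _ => 1, fun s t => by simp, by simp⟩

theorem Rel.kl (x : DimDrop p q) : Rel i j (fun s _ => kl (vl s x)) (i x) :=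
  ⟨Unit, inferInstance, fun _ => x, fun _ => 1, fun s t => by simp, by simp⟩

theorem Rel.kr (x : DimDrop p q) : Rel i j (fun _ t => kr (vl t x)) (j x) :=
  ⟨Unit, inferInstance, fun _ => 1, fun _ => x, fun s t => by simp, by simp⟩

theorem Rel.comm (h : Rel i j X y) {c : C} (h1 : ∀ x, c * i x = i x * c)
    (h2 : ∀ x, c * j x = j x * c) : c * y = y * c := by
  obtain ⟨κ, hκ, f, g, _, rfl⟩ := h
  rw [Finset.mul_sum, Finset.sum_mul]
  refine Finset.sum_congr rfl fun k _ => ?_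
  rw [← mul_assoc, h1, mul_assoc, h2, mul_assoc]

end Related

end TransferAux

open TransferAux

theorem exists_transfer {p q : ℕ} (hp : 0 < p) (hq : 0 < q) {C : Type*} [CStarAlgebra C]
    (i j : DimDrop p q →⋆ₐ[ℂ] C) (hc : ∀ x y, i x * j y = j y * i x)
    (W : unitInterval → unitInterval → CM ((Fin p × Fin q) × (Fin p × Fin q)))
    (hW : Continuous fun z : unitInterval × unitInterval => W z.1 z.2) (hb : Bdry W)
    (h1 : ∀ s t, W s t * star (W s t) = 1) (h2 : ∀ s t, star (W s t) * W s t = 1) :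
    ∃ w : C, w * star w = 1 ∧ star w * w = 1 ∧
      (∀ c, (∀ x, c * i x = i x * c) → (∀ x, c * j x = j x * c) → c * w = w * c) ∧
      ∀ (x y : DimDrop p q) (ε : ℝ), 0 ≤ ε →
        (∀ s t, ‖W s t * kl (vl s x) * star (W s t) - kr (vl t y)‖ ≤ ε) →
        ‖w * i x * star w - j y‖ ≤ ε := by
  -- the approximation
  have hδ : ∀ n : ℕ, (0 : ℝ) < (1 / 2) ^ n := fun n => by positivity
  have hδ1 : ∀ n : ℕ, ((1 : ℝ) / 2) ^ n ≤ 1 := fun n => pow_le_one₀ (by norm_num) (by norm_num)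
  have hex : ∀ n : ℕ, ∃ (X : unitInterval → unitInterval → CM ((Fin p × Fin q) × (Fin p × Fin q)))
      (y : C), Rel i j X y ∧ ∀ s t, ‖W s t - X s t‖ ≤ (1 / 2) ^ n := by
    intro n
    obtain ⟨κ, hκ, f, g, h⟩ := exists_sum_approx hp hq W hW hb (hδ n)
    exact ⟨fun s t => ∑ k, kl (vl s (f k)) * kr (vl t (g k)), ∑ k, i (f k) * j (g k),
      ⟨κ, hκ, f, g, fun _ _ => rfl, rfl⟩, h⟩
  choose X y hR hX using hex
  have hWn : ∀ s t, ‖W s t‖ ≤ 1 := fun s t => norm_uni (h2 s t)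
  have hWn' : ∀ s t, ‖star (W s t)‖ ≤ 1 := fun s t =>
    norm_uni (by rw [star_star]; exact h1 s t)
  -- the limit
  have hy : ∀ n m, ‖y n - y m‖ ≤ (1 / 2) ^ n + (1 / 2) ^ m := by
    intro n m
    refine ((hR n).sub (hR m)).norm_le hp hq hc (by positivity) fun s t => ?_
    calc ‖X n s t - X m s t‖ = ‖(W s t - X m s t) - (W s t - X n s t)‖ := by
          rw [sub_sub_sub_cancel_left]
      _ ≤ ‖W s t - X m s t‖ + ‖W s t - X n s t‖ := norm_sub_le _ _
      _ ≤ (1 / 2) ^ m + (1 / 2) ^ n := add_le_add (hX m s t) (hX n s t)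
      _ = (1 / 2) ^ n + (1 / 2) ^ m := add_comm _ _
  have hcau : CauchySeq y := by
    refine cauchySeq_of_le_geometric (1 / 2) 2 (by norm_num) fun n => ?_
    rw [dist_eq_norm]
    refine (hy n (n + 1)).trans ?_
    rw [pow_succ]
    have := hδ n
    linarith
  obtain ⟨w, hw⟩ := cauchySeq_tendsto_of_complete hcau
  have hlim : Tendsto (fun n : ℕ => ((1 : ℝ) / 2) ^ n) atTop (𝓝 0) :=
    tendsto_pow_atTop_nhds_zero_of_lt_one (by norm_num) (by norm_num)
  have hws : Tendsto (fun n => star (y n)) atTop (𝓝 (star w)) := hw.star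
  refine ⟨w, ?_, ?_, ?_, ?_⟩
  · -- w w^* = 1
    have hb1 : ∀ n, ‖y n * star (y n) - 1‖ ≤ 3 * (1 / 2) ^ n := by
      intro n
      refine (((hR n).mul hc ((hR n).star hc)).sub Rel.one).norm_le hp hq hc (by positivity)
        fun s t => ?_
      have := conj_diff (hWn s t) (hX n s t) (hδ1 n) 1
      rw [mul_one, mul_one, h1] at this
      refine this.trans ?_
      exact mul_le_of_le_one_right (by positivity) norm_one_le'
    have h3 : Tendsto (fun n => ‖y n * star (y n) - 1‖) atTop (𝓝 ‖w * star w - 1‖) :=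
      ((hw.mul hws).sub_const 1).norm
    have h4 : Tendsto (fun n : ℕ => 3 * ((1 : ℝ) / 2) ^ n) atTop (𝓝 (3 * 0)) :=
      hlim.const_mul 3
    have h5 : ‖w * star w - 1‖ ≤ 3 * 0 := le_of_tendsto_of_tendsto' h3 h4 hb1
    rw [mul_zero] at h5
    exact sub_eq_zero.1 (norm_le_zero_iff.1 h5)
  · have hb1 : ∀ n, ‖star (y n) * y n - 1‖ ≤ 3 * (1 / 2) ^ n := by
      intro n
      refine ((((hR n).star hc).mul hc (hR n)).sub Rel.one).norm_le hp hq hc (by positivity)
        fun s t => ?_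
      have h6 : ‖star (W s t) - star (X n s t)‖ ≤ (1 / 2) ^ n := by
        rw [← star_sub, norm_star]
        exact hX n s t
      have := conj_diff (hWn' s t) h6 (hδ1 n) 1
      rw [mul_one, mul_one, star_star, star_star, h2] at this
      refine this.trans ?_
      exact mul_le_of_le_one_right (by positivity) norm_one_le'
    have h3 : Tendsto (fun n => ‖star (y n) * y n - 1‖) atTop (𝓝 ‖star w * w - 1‖) :=
      ((hws.mul hw).sub_const 1).norm
    have h4 : Tendsto (fun n : ℕ => 3 * ((1 : ℝ) / 2) ^ n) atTop (𝓝 (3 * 0)) :=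
      hlim.const_mul 3
    have h5 : ‖star w * w - 1‖ ≤ 3 * 0 := le_of_tendsto_of_tendsto' h3 h4 hb1
    rw [mul_zero] at h5
    exact sub_eq_zero.1 (norm_le_zero_iff.1 h5)
  · intro c hc1 hc2
    have h3 : Tendsto (fun n => c * y n) atTop (𝓝 (c * w)) := hw.const_mul c
    have h4 : Tendsto (fun n => y n * c) atTop (𝓝 (w * c)) := hw.mul_const c
    exact tendsto_nhds_unique (h3.congr fun n => (hR n).comm hc1 hc2) h4
  · intro x z ε hε h
    have hb1 : ∀ n, ‖y n * i x * star (y n) - j z‖ ≤ ε + 3 * (1 / 2) ^ n * ‖x‖ := by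
      intro n
      refine (((((hR n).mul hc (Rel.kl x)).mul hc ((hR n).star hc))).sub (Rel.kr z)).norm_le
        hp hq hc (by positivity) fun s t => ?_
      have h5 := conj_diff (hWn s t) (hX n s t) (hδ1 n) (kl (vl s x))
      have h6 : ‖(kl (vl s x) : CM ((Fin p × Fin q) × (Fin p × Fin q)))‖ ≤ ‖x‖ :=
        (NonUnitalStarAlgHom.norm_apply_le (kl : CM (Fin p × Fin q) →⋆ₐ[ℂ]
          CM ((Fin p × Fin q) × (Fin p × Fin q))) (vl s x)).trans
          (norm_vl_le s x)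
      calc ‖X n s t * kl (vl s x) * star (X n s t) - kr (vl t z)‖
          = ‖(X n s t * kl (vl s x) * star (X n s t) - W s t * kl (vl s x) * star (W s t)) +
            (W s t * kl (vl s x) * star (W s t) - kr (vl t z))‖ := by
              rw [sub_add_sub_cancel]
        _ ≤ 3 * (1 / 2) ^ n * ‖(kl (vl s x) : CM ((Fin p × Fin q) × (Fin p × Fin q)))‖ + ε :=
            (norm_add_le _ _).trans (add_le_add h5 (h s t))
        _ ≤ 3 * (1 / 2) ^ n * ‖x‖ + ε := by gcongr
        _ = ε + 3 * (1 / 2) ^ n * ‖x‖ := add_comm _ _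
    have h3 : Tendsto (fun n => ‖y n * i x * star (y n) - j z‖) atTop
        (𝓝 ‖w * i x * star w - j z‖) :=
      (((hw.mul_const (i x)).mul hws).sub_const (j z)).norm
    have h4 : Tendsto (fun n : ℕ => ε + 3 * ((1 : ℝ) / 2) ^ n * ‖x‖) atTop
        (𝓝 (ε + 3 * 0 * ‖x‖)) :=
      tendsto_const_nhds.add ((hlim.const_mul 3).mul_const ‖x‖)
    have h5 : ‖w * i x * star w - j z‖ ≤ ε + 3 * 0 * ‖x‖ :=
      le_of_tendsto_of_tendsto' h3 h4 hb1
    simpa using h5

end Pool.Agent.Lib.EJZ
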