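import Pool.Agent.Lib.EJZ.ApproxD
import Pool.Agent.Lib.EJZ.SqBd
import Pool.Agent.Lib.EJZ.SqCont
import Pool.Agent.Lib.EJZ.SqEst
import Pool.Agent.Lib.EJZ.Transfer

/-!
# The flip lemma

PROOF.  `exists_model` gives `V`, `T`; apply `exists_transfer` to `W := WM V` (`continuous_WM`, `bdry_WM`,
`WM_mul_star`, `star_mul_WM`); the estimate is `norm_WM_conj_le` with `c t = vl t (φ f)`, `d = T f` (`vl_zero`, `vl_one`),
note `0 ≤ ε` from the hypothesis with `s = t`.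
-/

open scoped ComplexOrder
open Filter Topology

namespace Pool.Agent.Lib.EJZ

open Pool.Agent.Lib.EJS CStarLim

theorem flip_lemma {p q p' q' : ℕ} (hp' : 0 < p') (hq' : 0 < q') {L : ℝ} (hL : 0 ≤ L)
    {φ : DimDrop p q →⋆ₐ[ℂ] DimDrop p' q'} (hφ : IsDiag L φ) {C : Type*} [CStarAlgebra C]
    (i j : DimDrop p' q' →⋆ₐ[ℂ] C) (hc : ∀ x y, i x * j y = j y * i x) :
    ∃ w : C, w * star w = 1 ∧ star w * w = 1 ∧
      (∀ c, (∀ x, c * i x = i x * c) → (∀ x, c * j x = j x * c) → c * w = w * c) ∧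
      ∀ (f : DimDrop p q) (ε : ℝ),
        (∀ s t : unitInterval, |(s : ℝ) - t| ≤ L → ‖vl s f - vl t f‖ ≤ ε) →
        ‖w * i (φ f) * star w - j (φ f)‖ ≤ 6 * ε := by
  obtain ⟨V, T, hV1, hV2, hVT⟩ := exists_model hL hφ
  obtain ⟨w, hw1, hw2, hw3, hw4⟩ := exists_transfer hp' hq' i j hc (WM V)
    (continuous_WM V.continuous) (bdry_WM hV1 hV2) (WM_mul_star hV1 hV2) (star_mul_WM hV1 hV2)
  refine ⟨w, hw1, hw2, hw3, fun f ε hf => ?_⟩
  have hε : 0 ≤ ε := by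
    have h1 := hf 0 0 (by simpa using hL)
    simpa using h1
  refine hw4 (φ f) (φ f) (6 * ε) (by positivity) fun s t => ?_
  exact norm_WM_conj_le hV1 hV2 (fun t => vl t (φ f)) (T f) (vl_zero (φ f)) (vl_one (φ f))
    (hVT f ε hf) s t

end Pool.Agent.Lib.EJZ
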