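import Pool.Agent.Lib.CStarLim.Completion
import Pool.Agent.Lib.EJS.DimBase
import Pool.Agent.Lib.EJZ.Defs

/-!
# Nowhere zero elements of a dimension drop algebra are full

PROOF.  Let `H = star h * h`.  Take the finite family `E` consisting of
`x_{a,b} := mkD (t ↦ (1 - t) • kl (Eu a b))`, `a b : Fin p` (zero at `t = 1`),
`y_{c,d} := mkD (t ↦ t • kr (Eu c d))`, `c d : Fin q` (zero at `t = 0`), and
`z_{α,β} := mkD (t ↦ (t * (1 - t)) • Eu α β)`, `α β : Fin p × Fin q`.
Put `T := ∑ E * H * star E ≥ 0`.  For every `t` the matrix `vl t T` is invertible: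
for `0 < t < 1` the third part is `t² (1-t)² tr (H t) • 1` with `tr (H t) > 0` as `h t ≠ 0` and the other parts are
`≥ 0`; for `t = 0` the first part is `tr (x^* x) • 1` where `vl 0 h = kl x`, `x ≠ 0`, and the
other two parts are `0`; for `t = 1` the second part is `tr (y^* y) • 1` where `vl 1 h = kr y`.
(`∑_{a,b} E_ab M E_ba = tr M • 1`.)
So `T` is a unit in `C([0,1], CM _)` (`ContinuousMap.isUnit_iff_forall_isUnit`), hence in the closed
star subalgebra `DimDrop p q` (`StarSubalgebra.coe_isUnit` or spectral permanence), and `T ≥ 0`, so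
there is `δ > 0` with `δ ≤ T` in the spectral order of `DimDrop p q`
(`CFC.exists_pos_algebraMap_le_iff`), and `T - δ = star y * y` for some `y`
(`CStarAlgebra.nonneg_iff_eq_star_mul_self`).
-/

open scoped ComplexOrder
open Filter Topology

namespace Pool.Agent.Lib.EJZ

open Pool.Agent.Lib.EJS CStarLim

namespace FullAux

section Mat

variable {S : Type} [Fintype S] [DecidableEq S]

theorem eu_star (i j : S) : star (Eu i j : CM S) = Eu j i := by
  refine cm_ext fun a b => ?_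
  rw [cm_star, Eu_apply, Eu_apply]
  by_cases h : b = i ∧ a = j
  · rw [if_pos h, if_pos ⟨h.2, h.1⟩, star_one]
  · rw [if_neg h, if_neg fun h' => h ⟨h'.2, h'.1⟩, star_zero]

/-- the trace -/
def tr (M : CM S) : ℂ := ∑ i, M i i

theorem eu_mul_mul_apply (i j : S) (M : CM S) (a b : S) :
    (Eu i j * M * star (Eu i j)) a b = if a = i ∧ b = i then M j j else 0 := by
  rw [eu_star, cm_mul, Fintype.sum_eq_single j]
  · rw [cm_mul, Fintype.sum_eq_single j]
    · rw [Eu_apply, Eu_apply]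
      by_cases h1 : a = i <;> by_cases h2 : b = i <;> simp [h1, h2]
    · intro c hc
      rw [Eu_apply, if_neg fun h => hc h.2, zero_mul]
  · intro c hc
    rw [Eu_apply, if_neg fun h => hc h.1, mul_zero]

theorem sum_eu (M : CM S) :
    ∑ k : S × S, Eu k.1 k.2 * M * star (Eu k.1 k.2) = tr M • (1 : CM S) := by
  refine cm_ext fun a b => ?_
  rw [cm_sum, cm_smul, cm_one, Fintype.sum_prod_type]
  simp only [eu_mul_mul_apply]
  by_cases h : a = b
  · subst h
    rw [if_pos rfl, mul_one, Fintype.sum_eq_single a]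
    · simp [tr]
    · intro i hi
      refine Finset.sum_eq_zero fun j _ => ?_
      rw [if_neg fun h => hi h.1.symm]
  · rw [if_neg h, mul_zero]
    refine Finset.sum_eq_zero fun i _ => Finset.sum_eq_zero fun j _ => ?_
    rw [if_neg fun h' => h (h'.1.trans h'.2.symm)]

theorem tr_star_mul (m : CM S) : tr (star m * m) = ((∑ i, ∑ j, ‖m j i‖ ^ 2 : ℝ) : ℂ) := by
  unfold tr
  push_cast
  refine Finset.sum_congr rfl fun i _ => ?_
  rw [cm_mul]
  refine Finset.sum_congr rfl fun j _ => ?_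
  rw [cm_star]
  have := Complex.conj_mul' (m j i)
  simpa using this

theorem tr_pos {m : CM S} (h : m ≠ 0) : 0 < ∑ i, ∑ j, ‖m j i‖ ^ 2 := by
  obtain ⟨j, i, hji⟩ : ∃ j i, m j i ≠ 0 := by
    by_contra hc
    push Not at hc
    exact h (cm_ext hc)
  refine Finset.sum_pos' (fun i _ => Finset.sum_nonneg fun j _ => sq_nonneg _)
    ⟨i, Finset.mem_univ _, ?_⟩
  refine Finset.sum_pos' (fun j _ => sq_nonneg _) ⟨j, Finset.mem_univ _, ?_⟩
  have := norm_pos_iff.2 hji
  positivity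

end Mat

section Star

variable {B : Type*} [CStarAlgebra B]

theorem smul_conj {ι : Type} [Fintype ι] (M : ι → B) (H : B) (c : ℝ) :
    ∑ k, ((c : ℂ) • M k) * H * star ((c : ℂ) • M k) =
      ((c * c : ℝ) : ℂ) • ∑ k, M k * H * star (M k) := by
  rw [Finset.smul_sum]
  refine Finset.sum_congr rfl fun k _ => ?_
  rw [star_smul, smul_mul_assoc, smul_mul_assoc, mul_smul_comm, smul_smul]
  congr 1
  simp

theorem unit_of_part [PartialOrder B] [StarOrderedRing B] {P Q R : B} {c : ℝ} (hc : 0 < c)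
    (hP : P = (c : ℂ) • 1) (hQ : 0 ≤ Q) (hR : 0 ≤ R) : IsUnit (P + (Q + R)) := by
  have h1 : algebraMap ℝ B c = P := by
    rw [hP, Algebra.algebraMap_eq_smul_one]
    exact (Complex.coe_smul c (1 : B)).symm
  refine CStarAlgebra.isUnit_of_le (algebraMap ℝ B c) ?_ ?_
  · rw [h1]
    exact le_add_of_nonneg_right (add_nonneg hQ hR)
  · exact IsStrictlyPositive.iff_of_unital.2 ⟨algebraMap_nonneg B hc.le,
      (IsUnit.mk0 c hc.ne').map (algebraMap ℝ B)⟩

theorem conj_nonneg [PartialOrder B] [StarOrderedRing B] {ι : Type} [Fintype ι] (M : ι → B)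
    (m : B) : 0 ≤ ∑ k, M k * (star m * m) * star (M k) := by
  refine Finset.sum_nonneg fun k _ => ?_
  have : M k * (star m * m) * star (M k) = star (m * star (M k)) * (m * star (M k)) := by
    rw [star_mul, star_star]
    simp only [mul_assoc]
  rw [this]
  exact star_mul_self_nonneg _

end Star

section Drop

variable {p q : ℕ}

/-- the function `c • M` -/
noncomputable def sc (c : C(unitInterval, ℝ)) (M : CM (Fin p × Fin q))
    (h0 : c 0 = 0 ∨ ∃ x : CM (Fin p), M = kl x) (h1 : c 1 = 0 ∨ ∃ y : CM (Fin q), M = kr y) :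
    DimDrop p q :=
  mkD ⟨fun t => ((c t : ℝ) : ℂ) • M,
      (Complex.continuous_ofReal.comp c.continuous).smul continuous_const⟩
    (by
      rcases h0 with h | ⟨x, rfl⟩
      · refine ⟨0, ?_⟩
        show ((c 0 : ℝ) : ℂ) • M = kl 0
        rw [h, Complex.ofReal_zero, zero_smul, map_zero]
      · refine ⟨((c 0 : ℝ) : ℂ) • x, ?_⟩
        show ((c 0 : ℝ) : ℂ) • kl x = kl (((c 0 : ℝ) : ℂ) • x)
        rw [map_smul])
    (by
      rcases h1 with h | ⟨y, rfl⟩
      · refine ⟨0, ?_⟩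
        show ((c 1 : ℝ) : ℂ) • M = kr 0
        rw [h, Complex.ofReal_zero, zero_smul, map_zero]
      · refine ⟨((c 1 : ℝ) : ℂ) • y, ?_⟩
        show ((c 1 : ℝ) : ℂ) • kr y = kr (((c 1 : ℝ) : ℂ) • y)
        rw [map_smul])

theorem vl_sc (c : C(unitInterval, ℝ)) (M : CM (Fin p × Fin q))
    (h0 : c 0 = 0 ∨ ∃ x : CM (Fin p), M = kl x) (h1 : c 1 = 0 ∨ ∃ y : CM (Fin q), M = kr y)
    (t : unitInterval) : vl t (sc c M h0 h1) = ((c t : ℝ) : ℂ) • M := rfl

/-- `1 - t` -/
def c1 : C(unitInterval, ℝ) := ⟨fun t => 1 - t, by fun_prop⟩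

/-- `t` -/
def c2 : C(unitInterval, ℝ) := ⟨fun t => t, by fun_prop⟩

/-- `t (1 - t)` -/
def c3 : C(unitInterval, ℝ) := ⟨fun t => t * (1 - t), by fun_prop⟩

theorem c1_apply (t : unitInterval) : c1 t = 1 - t := rfl

theorem c2_apply (t : unitInterval) : c2 t = t := rfl

theorem c3_apply (t : unitInterval) : c3 t = t * (1 - t) := rfl

/-- the family -/
noncomputable def E1 (k : Fin p × Fin p) : DimDrop p q :=
  sc c1 (kl (Eu k.1 k.2)) (Or.inr ⟨_, rfl⟩) (Or.inl (by simp [c1_apply]))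

/-- the family -/
noncomputable def E2 (k : Fin q × Fin q) : DimDrop p q :=
  sc c2 (kr (Eu k.1 k.2)) (Or.inl (by simp [c2_apply])) (Or.inr ⟨_, rfl⟩)

/-- the family -/
noncomputable def E3 (k : (Fin p × Fin q) × (Fin p × Fin q)) : DimDrop p q :=
  sc c3 (Eu k.1 k.2) (Or.inl (by simp [c3_apply])) (Or.inl (by simp [c3_apply]))

theorem sum_E1 {h : DimDrop p q} (h0 : vl 0 h ≠ 0) : ∃ c : ℝ, 0 < c ∧
    ∑ k : Fin p × Fin p, vl 0 (E1 k : DimDrop p q) * (star (vl 0 h) * vl 0 h) *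
      star (vl 0 (E1 k : DimDrop p q)) = (c : ℂ) • 1 := by
  obtain ⟨x, hx⟩ := vl_zero h
  have hx0 : x ≠ 0 := by
    rintro rfl
    exact h0 (by rw [hx, map_zero])
  refine ⟨_, tr_pos hx0, ?_⟩
  have e1 : ∀ k : Fin p × Fin p, vl 0 (E1 k : DimDrop p q) = kl (Eu k.1 k.2) := by
    intro k
    unfold E1
    rw [vl_sc, c1_apply]
    simp
  simp only [e1, hx]
  rw [← tr_star_mul, ← map_star]
  have e2 : ∀ k : Fin p × Fin p, (kl (Eu k.1 k.2) * (kl (star x) * kl x) * star (kl (Eu k.1 k.2)) :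
      CM (Fin p × Fin q)) = kl (Eu k.1 k.2 * (star x * x) * star (Eu k.1 k.2)) := by
    intro k
    rw [map_mul, map_mul, map_mul, map_star, map_star]
  rw [Finset.sum_congr rfl fun k _ => e2 k, ← map_sum, sum_eu, map_smul, map_one]

theorem sum_E2 {h : DimDrop p q} (h0 : vl 1 h ≠ 0) : ∃ c : ℝ, 0 < c ∧
    ∑ k : Fin q × Fin q, vl 1 (E2 k : DimDrop p q) * (star (vl 1 h) * vl 1 h) *
      star (vl 1 (E2 k : DimDrop p q)) = (c : ℂ) • 1 := by
  obtain ⟨x, hx⟩ := vl_one h
  have hx0 : x ≠ 0 := by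
    rintro rfl
    exact h0 (by rw [hx, map_zero])
  refine ⟨_, tr_pos hx0, ?_⟩
  have e1 : ∀ k : Fin q × Fin q, vl 1 (E2 k : DimDrop p q) = kr (Eu k.1 k.2) := by
    intro k
    unfold E2
    rw [vl_sc, c2_apply]
    simp
  simp only [e1, hx]
  rw [← tr_star_mul, ← map_star]
  have e2 : ∀ k : Fin q × Fin q, (kr (Eu k.1 k.2) * (kr (star x) * kr x) * star (kr (Eu k.1 k.2)) :
      CM (Fin p × Fin q)) = kr (Eu k.1 k.2 * (star x * x) * star (Eu k.1 k.2)) := by
    intro k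
    rw [map_mul, map_mul, map_mul, map_star, map_star]
  rw [Finset.sum_congr rfl fun k _ => e2 k, ← map_sum, sum_eu, map_smul, map_one]

theorem sum_E3 {h : DimDrop p q} {t : unitInterval} (ht0 : t ≠ 0) (ht1 : t ≠ 1)
    (h0 : vl t h ≠ 0) : ∃ c : ℝ, 0 < c ∧
    ∑ k : (Fin p × Fin q) × (Fin p × Fin q), vl t (E3 k : DimDrop p q) *
      (star (vl t h) * vl t h) * star (vl t (E3 k : DimDrop p q)) = (c : ℂ) • 1 := by
  have hc : 0 < c3 t := by
    rw [c3_apply]
    have h1 : (0 : ℝ) < t := lt_of_le_of_ne t.2.1 fun e => ht0 (Subtype.ext e.symm)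
    have h2 : (t : ℝ) < 1 := lt_of_le_of_ne t.2.2 fun e => ht1 (Subtype.ext e)
    exact mul_pos h1 (by linarith)
  refine ⟨(c3 t * c3 t) * ∑ i, ∑ j, ‖vl t h j i‖ ^ 2, mul_pos (mul_pos hc hc) (tr_pos h0), ?_⟩
  have e1 : ∀ k : (Fin p × Fin q) × (Fin p × Fin q),
      vl t (E3 k : DimDrop p q) = ((c3 t : ℝ) : ℂ) • Eu k.1 k.2 := by
    intro k
    unfold E3
    rw [vl_sc]
  simp only [e1]
  rw [smul_conj, sum_eu, tr_star_mul, smul_smul, ← Complex.ofReal_mul]

end Drop

end FullAux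

open FullAux

theorem full_of_vl_ne_zero {p q : ℕ} (h : DimDrop p q) (hh : ∀ t, vl t h ≠ 0) :
    ∃ (κ : Type) (_ : Fintype κ) (E : κ → DimDrop p q) (δ : ℝ) (y : DimDrop p q), 0 < δ ∧
      ∑ i, E i * (star h * h) * star (E i) = (δ : ℂ) • 1 + star y * y := by
  have : Nontrivial (DimDrop p q) := by
    refine ⟨⟨h, 0, ?_⟩⟩
    rintro rfl
    exact hh 0 (map_zero _)
  let _ : PartialOrder (DimDrop p q) := CStarAlgebra.spectralOrder _
  let _ : StarOrderedRing (DimDrop p q) := CStarAlgebra.spectralOrderedRing _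
  let E : (Fin p × Fin p) ⊕ ((Fin q × Fin q) ⊕ ((Fin p × Fin q) × (Fin p × Fin q))) →
    DimDrop p q := Sum.elim E1 (Sum.elim E2 E3)
  set T : DimDrop p q := ∑ i, E i * (star h * h) * star (E i) with hT
  have hT0 : 0 ≤ T := conj_nonneg E h
  have hTt : ∀ t, vl t T =
      ∑ k : Fin p × Fin p, vl t (E1 k : DimDrop p q) * (star (vl t h) * vl t h) *
        star (vl t (E1 k : DimDrop p q)) +
      (∑ k : Fin q × Fin q, vl t (E2 k : DimDrop p q) * (star (vl t h) * vl t h) *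
        star (vl t (E2 k : DimDrop p q)) +
      ∑ k : (Fin p × Fin q) × (Fin p × Fin q), vl t (E3 k : DimDrop p q) *
        (star (vl t h) * vl t h) * star (vl t (E3 k : DimDrop p q))) := by
    intro t
    rw [hT, map_sum, Fintype.sum_sum_type, Fintype.sum_sum_type]
    simp only [map_mul, map_star]
    rfl
  have hu : ∀ t, IsUnit (vl t T) := by
    intro t
    rw [hTt]
    by_cases ht0 : t = 0
    · subst ht0
      obtain ⟨c, hc, e⟩ := sum_E1 (hh 0)
      exact unit_of_part hc e (conj_nonneg _ _) (conj_nonneg _ _)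
    by_cases ht1 : t = 1
    · subst ht1
      obtain ⟨c, hc, e⟩ := sum_E2 (hh 1)
      rw [add_left_comm]
      exact unit_of_part hc e (conj_nonneg _ _) (conj_nonneg _ _)
    · obtain ⟨c, hc, e⟩ := sum_E3 ht0 ht1 (hh t)
      rw [← add_assoc, add_comm]
      exact unit_of_part hc e (conj_nonneg _ _) (conj_nonneg _ _)
  have hU : IsUnit T := by
    rw [← StarSubalgebra.coe_isUnit]
    exact (ContinuousMap.isUnit_iff_forall_isUnit
      (show C(unitInterval, CStarMatrix (Fin p × Fin q) (Fin p × Fin q) ℂ) from T.1)).2 hu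
  have hS : IsStrictlyPositive T := IsStrictlyPositive.iff_of_unital.2 ⟨hT0, hU⟩
  obtain ⟨δ, hδ, hle⟩ := (CFC.exists_pos_algebraMap_le_iff hS.isSelfAdjoint).2
    fun x hx => hS.spectrum_pos hx
  obtain ⟨y, hy⟩ := CStarAlgebra.nonneg_iff_eq_star_mul_self.1 (sub_nonneg.2 hle)
  refine ⟨_, inferInstance, E, δ, y, hδ, ?_⟩
  rw [← hy, ← hT]
  have h1 : algebraMap ℝ (DimDrop p q) δ = (δ : ℂ) • 1 := by
    rw [Algebra.algebraMap_eq_smul_one]
    exact (Complex.coe_smul δ (1 : DimDrop p q)).symm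
  rw [h1, add_sub_cancel]

end Pool.Agent.Lib.EJZ
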