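import Pool.Agent.Lib.EJZ.Stage

/-!
# The half flip for the limit

PROOF.  Approximate `F` by `s.ι n '' F'` up to `ε / 4` (`IndSys.exists_ι_norm_sub_lt_family`), take `M` from
`flip_stage` for `F'`, `ε / 4`, and apply it with `m = M` to `i.comp (s.ι M)`, `j.comp (s.ι M)`; use `ι_tr` and that star
homomorphisms are contractive.
-/

open scoped ComplexOrder
open Filter Topology

namespace Pool.Agent.Lib.EJZ

open Pool.Agent.Lib.EJS CStarLim

universe v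

theorem half_flip_lim {p q : ℕ → ℕ} (s : IndSys fun n => DimDrop (p n) (q n))
    (hp : ∀ n, 0 < p n) (hq : ∀ n, 0 < q n) (hd : ∀ n, IsDiag (1 / 2) (s.map n))
    {C : Type v} [CStarAlgebra C] (i j : s.Lim →⋆ₐ[ℂ] C) (hc : ∀ x y, i x * j y = j y * i x)
    (F : Finset s.Lim) {ε : ℝ} (hε : 0 < ε) :
    ∃ w ∈ unitary C, ∀ z ∈ F, ‖w * i z * star w - j z‖ < ε := by
  classical
  obtain ⟨n, -, a, ha⟩ := IndSys.exists_ι_norm_sub_lt_family (s := s) (fun x : F => (x : s.Lim))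
    (by positivity : 0 < ε / 4) 0
  obtain ⟨M, hM, h⟩ := flip_stage s hp hq hd n (Finset.univ.image a)
    (by positivity : 0 < ε / 4)
  obtain ⟨w, hw1, hw2, -, hw4⟩ := h M hM le_rfl C (i.comp (s.ι M)) (j.comp (s.ι M))
    fun x y => hc _ _
  have hwm : w ∈ unitary C := Unitary.mem_iff.2 ⟨hw2, hw1⟩
  refine ⟨w, hwm, fun z hz => ?_⟩
  have h1 := ha ⟨z, hz⟩
  have h2 := hw4 (a ⟨z, hz⟩) (Finset.mem_image.2 ⟨⟨z, hz⟩, Finset.mem_univ _, rfl⟩)
  simp only [StarAlgHom.comp_apply, ι_tr] at h1 h2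
  have h3 : w * i z * star w - j z = w * i (z - s.ι n (a ⟨z, hz⟩)) * star w +
      (w * i (s.ι n (a ⟨z, hz⟩)) * star w - j (s.ι n (a ⟨z, hz⟩))) -
        j (z - s.ι n (a ⟨z, hz⟩)) := by
    rw [map_sub, map_sub, mul_sub, sub_mul]
    abel
  have h4 : ‖w * i (z - s.ι n (a ⟨z, hz⟩)) * star w‖ ≤ ‖z - s.ι n (a ⟨z, hz⟩)‖ := by
    rw [CStarRing.norm_mul_mem_unitary _ (Unitary.star_mem hwm),
      CStarRing.norm_mem_unitary_mul _ hwm]
    exact NonUnitalStarAlgHom.norm_apply_le i _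
  have h5 : ‖j (z - s.ι n (a ⟨z, hz⟩))‖ ≤ ‖z - s.ι n (a ⟨z, hz⟩)‖ :=
    NonUnitalStarAlgHom.norm_apply_le j _
  rw [h3]
  refine lt_of_le_of_lt ((norm_sub_le _ _).trans (add_le_add (norm_add_le _ _) le_rfl)) ?_
  linarith

end Pool.Agent.Lib.EJZ
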