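import Pool.Agent.Lib.CStarLim.Completion
import Pool.Agent.Lib.EJS.DimPath

/-!
# A partition of unity on `[0,1]`

PROOF.  `x r = r / N` and `h r t = max 0 (1 - |N t - r|)`.  For `t` with `k ≤ N t ≤ k + 1`, `k + 1 ≤ N`, only `h k` and
`h (k+1)` do not vanish at `t` and they sum to `1`.  If `h r t ≠ 0` then `|N t - r| < 1`.  `h r 0 ≠ 0` gives
`r < 1`, `h r 1 ≠ 0` gives `|N - r| < 1`.
-/

open scoped ComplexOrder
open Filter Topology

namespace Pool.Agent.Lib.EJZ

open Pool.Agent.Lib.EJS CStarLim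

theorem hat_eq (z : ℝ) : max 0 (1 - |z|) = min 1 (max 0 (z + 1)) - min 1 (max 0 z) := by
  rcases le_total 0 z with h | h
  · rw [abs_of_nonneg h, max_eq_right (by linarith : (0 : ℝ) ≤ z + 1),
      min_eq_left (by linarith : (1 : ℝ) ≤ z + 1), max_eq_right h]
    rcases le_total z 1 with h1 | h1
    · rw [min_eq_right h1, max_eq_right (by linarith)]
    · rw [min_eq_left h1, max_eq_left (by linarith)]
      ring
  · rw [abs_of_nonpos h, max_eq_left h, min_eq_right (by norm_num : (0 : ℝ) ≤ 1)]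
    rcases le_total (-1) z with h1 | h1
    · rw [max_eq_right (by linarith), max_eq_right (by linarith : (0 : ℝ) ≤ z + 1),
        min_eq_right (by linarith)]
      ring
    · rw [max_eq_left (by linarith), max_eq_left (by linarith : z + 1 ≤ 0),
        min_eq_right (by norm_num : (0 : ℝ) ≤ 1)]
      ring

theorem sum_hat (N : ℕ) {y : ℝ} (h0 : 0 ≤ y) (h1 : y ≤ N) :
    ∑ r : Fin (N + 1), max 0 (1 - |y - (r : ℕ)|) = 1 := by
  rw [Fin.sum_univ_eq_sum_range (fun r : ℕ => max 0 (1 - |y - (r : ℝ)|)) (N + 1)]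
  have h2 : ∀ r ∈ Finset.range (N + 1), max 0 (1 - |y - (r : ℝ)|) =
      (fun i : ℕ => min 1 (max 0 (y + 1 - (i : ℝ)))) r -
        (fun i : ℕ => min 1 (max 0 (y + 1 - (i : ℝ)))) (r + 1) := by
    intro r _
    rw [hat_eq]
    have e1 : y - (r : ℝ) + 1 = y + 1 - (r : ℝ) := by ring
    have e2 : y - (r : ℝ) = y + 1 - ((r + 1 : ℕ) : ℝ) := by push_cast; ring
    rw [e1]
    simp only
    rw [← e2]
  rw [Finset.sum_congr rfl h2, Finset.sum_range_sub']
  have e3 : y + 1 - ((N + 1 : ℕ) : ℝ) ≤ 0 := by push_cast; linarith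
  have e4 : (1 : ℝ) ≤ y + 1 - ((0 : ℕ) : ℝ) := by push_cast; linarith
  rw [max_eq_left e3, max_eq_right (by linarith), min_eq_left e4,
    min_eq_right (by norm_num : (0 : ℝ) ≤ 1)]
  norm_num

theorem exists_hat (N : ℕ) (hN : 0 < N) :
    ∃ (x : Fin (N + 1) → unitInterval) (h : Fin (N + 1) → C(unitInterval, ℝ)),
      (∀ r t, 0 ≤ h r t) ∧ (∀ t, ∑ r, h r t = 1) ∧
      (∀ r t, h r t ≠ 0 → |(x r : ℝ) - t| ≤ 1 / (N : ℝ)) ∧
      (∀ r, h r 0 ≠ 0 → x r = 0) ∧ (∀ r, h r 1 ≠ 0 → x r = 1) := by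
  have hN' : (0 : ℝ) < N := by exact_mod_cast hN
  have hne : ∀ (r : Fin (N + 1)) (t : unitInterval),
      max 0 (1 - |(N : ℝ) * t - (r : ℕ)|) ≠ 0 → |(N : ℝ) * t - (r : ℕ)| < 1 := by
    intro r t h
    by_contra hcon
    push Not at hcon
    exact h (max_eq_left (by linarith))
  refine ⟨fun r => ⟨((r : ℕ) : ℝ) / N, by positivity, ?_⟩,
    fun r => ⟨fun t => max 0 (1 - |(N : ℝ) * t - (r : ℕ)|), by fun_prop⟩, ?_, ?_, ?_, ?_, ?_⟩
  · rw [div_le_one hN']
    exact_mod_cast Nat.lt_succ_iff.1 r.2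
  · intro r t
    exact le_max_left _ _
  · intro t
    refine sum_hat N (mul_nonneg hN'.le t.2.1) ?_
    have := mul_le_mul_of_nonneg_left t.2.2 hN'.le
    linarith
  · intro r t h
    have h1 := hne r t h
    have e : ((r : ℕ) : ℝ) / N - t = -(((N : ℝ) * t - (r : ℕ)) / N) := by
      field_simp
      ring
    show |((r : ℕ) : ℝ) / N - t| ≤ _
    rw [e, abs_neg, abs_div, abs_of_pos hN']
    exact (div_le_div_iff_of_pos_right hN').2 h1.le
  · intro r h
    have h1 := hne r 0 h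
    have h2 : ((r : ℕ) : ℝ) < 1 := by
      have e : (N : ℝ) * ((0 : unitInterval) : ℝ) - (r : ℕ) = -((r : ℕ) : ℝ) := by
        simp
      rw [e, abs_neg, abs_of_nonneg (Nat.cast_nonneg _)] at h1
      exact h1
    have h3 : (r : ℕ) = 0 := by
      have : (r : ℕ) < 1 := by exact_mod_cast h2
      omega
    apply Subtype.ext
    show ((r : ℕ) : ℝ) / N = 0
    rw [h3]
    simp
  · intro r h
    have h1 := hne r 1 h
    have h2 : (N : ℝ) - (r : ℕ) < 1 := by
      have e : (N : ℝ) * ((1 : unitInterval) : ℝ) - (r : ℕ) = (N : ℝ) - ((r : ℕ) : ℝ) := by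
        simp
      rw [e] at h1
      exact (le_abs_self _).trans_lt h1
    have h3 : (r : ℕ) = N := by
      have : (N : ℝ) < ((r : ℕ) : ℝ) + 1 := by linarith
      have h4 : N < (r : ℕ) + 1 := by exact_mod_cast this
      have := r.2
      omega
    apply Subtype.ext
    show ((r : ℕ) : ℝ) / N = 1
    rw [h3]
    exact div_self hN'.ne'

end Pool.Agent.Lib.EJZ
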