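import Pool.Agent.Lib.EJZ.PathHom

/-!
# The Jiang-Su step (eigenvalue functions `t/2`, `(1+t)/2`, `1/2`)

Put `k0 = q + 1`, `k1 = p * (q + 1) + 1`, `p' = p * k0`, `q' = q * k1`, so `k1 = p' + 1`.  The index set of
the eigenvalue functions is `K = Fin k1 ⊕ Fin k0 ⊕ Fin (q * p' - 1)` with `ζ t = t / 2` on the first part
(`A`), `ζ t = (1 + t) / 2` on the second part (`B`) and `ζ t = 1 / 2` on the third part (`R`);
`|K| = k0 * k1` (note `1 ≤ q * p'`).  All `ζ` are `1/2`-Lipschitz and together onto (`A` covers `[0,1/2]` and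
`B` covers `[1/2,1]`; `k0, k1 > 0`).

At `t = 0` the blocks are `f 0 = kl x` on `A` and `h := f (1/2)` on `B ∪ R`, and
`|B ∪ R| = k0 + q * p' - 1 = q * k1 = q'`.  Since `p' = p * q + p` there is `Fin p' ≃ (Fin p × Fin q) ⊕ Fin p`,
so `Fin p' × Fin q' ≃ ((Fin p × Fin q) × Fin q') ⊕ (Fin p × Fin q')`; identify `Fin q' ≃ B ∪ R` in the first
summand and `Fin q' ≃ Fin q × A` in the second one.  This gives `e₀` with
`ri e₀ (bd ..) = kl (h ⊕ x)` (block diagonal matrix over `(Fin p × Fin q) ⊕ Fin p`).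

At `t = 1` the blocks are `f 1 = kr y` on `B` and `h = f (1/2)` on `A ∪ R`, and
`|A ∪ R| = k1 + q * p' - 1 = p' * k0`.  Since `q' = k0 * (p * q) + q` there is
`Fin q' ≃ (Fin k0 × (Fin p × Fin q)) ⊕ Fin q`, so
`Fin p' × Fin q' ≃ (Fin p' × Fin k0) × (Fin p × Fin q) ⊕ (Fin p' × Fin q)`; identify
`Fin p' × Fin k0 ≃ A ∪ R` in the first summand and `Fin p' ≃ Fin p × B` in the second one.  This gives
`e₁` with `ri e₁ (bd ..) = kr (h^{⊕ k0} ⊕ y)`.

Apply `exists_hom_of_path`.  All bijections between types of equal cardinality: `Fintype.equivOfCardEq`.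
The proof of `core` in `EJS/DimHom.lean` is a pattern for the combinatorics.
-/

open scoped ComplexOrder
open Filter Topology

namespace Pool.Agent.Lib.EJZ

open Pool.Agent.Lib.EJS CStarLim

namespace JStepAux

/-! ### the eigenvalue functions -/

/-- `t / 2` -/
noncomputable def lo (t : unitInterval) : unitInterval :=
  ⟨(t : ℝ) / 2, by constructor <;> linarith [t.2.1, t.2.2]⟩

/-- `(1 + t) / 2` -/
noncomputable def up (t : unitInterval) : unitInterval :=
  ⟨(1 + (t : ℝ)) / 2, by constructor <;> linarith [t.2.1, t.2.2]⟩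

/-- `1 / 2` -/
noncomputable def mid : unitInterval := ⟨1 / 2, by constructor <;> norm_num⟩

/-- the eigenvalue functions -/
noncomputable def zt {A B R : Type} : A ⊕ (B ⊕ R) → unitInterval → unitInterval
  | Sum.inl _, t => lo t
  | Sum.inr (Sum.inl _), t => up t
  | Sum.inr (Sum.inr _), _ => mid

theorem lo_zero : lo 0 = 0 := by
  apply Subtype.ext
  show (0 : ℝ) / 2 = 0
  norm_num

theorem lo_one : lo 1 = mid := rfl

theorem up_zero : up 0 = mid := by
  apply Subtype.ext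
  show (1 + (0 : ℝ)) / 2 = 1 / 2
  norm_num

theorem up_one : up 1 = 1 := by
  apply Subtype.ext
  show (1 + (1 : ℝ)) / 2 = 1
  norm_num

theorem continuous_lo : Continuous lo :=
  Continuous.subtype_mk (continuous_subtype_val.div_const 2) _

theorem continuous_up : Continuous up :=
  Continuous.subtype_mk ((continuous_const.add continuous_subtype_val).div_const 2) _

theorem continuous_zt {A B R : Type} (k : A ⊕ (B ⊕ R)) : Continuous (zt k) := by
  rcases k with a | b | r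
  · exact continuous_lo
  · exact continuous_up
  · exact continuous_const

theorem lip_zt {A B R : Type} (k : A ⊕ (B ⊕ R)) (s t : unitInterval) :
    |(zt k s : ℝ) - zt k t| ≤ (1 / 2) * |(s : ℝ) - t| := by
  rcases k with a | b | r
  · show |(s : ℝ) / 2 - (t : ℝ) / 2| ≤ _
    rw [← sub_div, abs_div, abs_of_pos (by norm_num : (0 : ℝ) < 2)]
    linarith
  · show |(1 + (s : ℝ)) / 2 - (1 + (t : ℝ)) / 2| ≤ _
    rw [← sub_div, abs_div, abs_of_pos (by norm_num : (0 : ℝ) < 2), add_sub_add_left_eq_sub]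
    linarith
  · show |(1 / 2 : ℝ) - 1 / 2| ≤ _
    rw [sub_self, abs_zero]
    positivity

theorem onto_zt {A B R : Type} (a : A) (b : B) (x : unitInterval) :
    ∃ (k : A ⊕ (B ⊕ R)) (y : unitInterval), zt k y = x := by
  rcases le_total (x : ℝ) (1 / 2) with h | h
  · refine ⟨Sum.inl a, ⟨2 * (x : ℝ), by constructor <;> linarith [x.2.1]⟩, ?_⟩
    apply Subtype.ext
    show 2 * (x : ℝ) / 2 = x
    ring
  · refine ⟨Sum.inr (Sum.inl b), ⟨2 * (x : ℝ) - 1, by constructor <;> linarith [x.2.2]⟩, ?_⟩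
    apply Subtype.ext
    show (1 + (2 * (x : ℝ) - 1)) / 2 = x
    ring

/-! ### the identification at `0` -/

/-- the bijection at `0` -/
def g0 {P Q C A BR : Type} (wB : C ≃ BR) (w : C ≃ Q × A) :
    ((P × Q) ⊕ P) × C ≃ (P × Q) × (A ⊕ BR) where
  toFun z := match z with
    | (Sum.inl ij, c) => (ij, Sum.inr (wB c))
    | (Sum.inr i, c) => ((i, (w c).1), Sum.inl (w c).2)
  invFun z := match z with
    | (ij, Sum.inr k) => (Sum.inl ij, wB.symm k)
    | ((i, j), Sum.inl a) => (Sum.inr i, w.symm (j, a))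
  left_inv := by rintro ⟨ij | i, c⟩ <;> simp
  right_inv := by rintro ⟨⟨i, j⟩, a | k⟩ <;> simp

/-- the block diagonal matrix with blocks `h`, `x` -/
def bk {S T : Type} (h : S → S → ℂ) (x : T → T → ℂ) : S ⊕ T → S ⊕ T → ℂ
  | Sum.inl a, Sum.inl b => h a b
  | Sum.inr a, Sum.inr b => x a b
  | Sum.inl _, Sum.inr _ => 0
  | Sum.inr _, Sum.inl _ => 0

variable {P Q C A B R S BR κ : Type} [Fintype P] [DecidableEq P] [Fintype Q] [DecidableEq Q]
  [Fintype C] [DecidableEq C] [Fintype A] [DecidableEq A] [Fintype B] [DecidableEq B] [Fintype R]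
  [DecidableEq R] [Fintype S] [DecidableEq S] [Fintype BR] [DecidableEq BR] [Fintype κ]
  [DecidableEq κ]

theorem spec0 (F : A ⊕ BR → CM (P × Q)) (x : CM P) (h : CM (P × Q))
    (hA : ∀ a, F (Sum.inl a) = kl x) (hB : ∀ k, F (Sum.inr k) = h) (u : S ≃ (P × Q) ⊕ P)
    (wB : C ≃ BR) (w : C ≃ Q × A) :
    ri ((Equiv.prodCongr u (Equiv.refl C)).trans (g0 wB w)) (bd F) =
      kl (fun s s' => bk h x (u s) (u s') : CM S) := by
  refine cm_ext fun a b => ?_
  obtain ⟨s, c⟩ := a
  obtain ⟨s', c'⟩ := b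
  rw [ri_apply, bd_apply, kl_apply]
  have e : ∀ s c, ((Equiv.prodCongr u (Equiv.refl C)).trans (g0 wB w)) (s, c) =
      g0 wB w (u s, c) := fun _ _ => rfl
  rw [e, e]
  show _ = if c = c' then bk h x (u s) (u s') else 0
  rcases u s with ij | i <;> rcases u s' with ij' | i'
  · show (if (Sum.inr (wB c) : A ⊕ BR) = Sum.inr (wB c') then F (Sum.inr (wB c)) ij ij' else 0) =
      if c = c' then h ij ij' else 0
    rw [hB]
    simp
  · show (if (Sum.inr (wB c) : A ⊕ BR) = Sum.inl (w c').2 then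
      F (Sum.inr (wB c)) ij (i', (w c').1) else 0) = if c = c' then 0 else 0
    simp
  · show (if (Sum.inl (w c).2 : A ⊕ BR) = Sum.inr (wB c') then
      F (Sum.inl (w c).2) (i, (w c).1) ij' else 0) = if c = c' then 0 else 0
    simp
  · show (if (Sum.inl (w c).2 : A ⊕ BR) = Sum.inl (w c').2 then
      F (Sum.inl (w c).2) (i, (w c).1) (i', (w c').1) else 0) = if c = c' then x i i' else 0
    rw [hA, kl_apply]
    by_cases hc : c = c'
    · rw [if_pos hc, hc]
      simp
    · rw [if_neg hc]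
      have hw : w c ≠ w c' := fun h => hc (w.injective h)
      by_cases h2 : (w c).2 = (w c').2
      · have h1 : (w c).1 ≠ (w c').1 := fun h1 => hw (Prod.ext h1 h2)
        simp [h1]
      · simp [h2]

/-! ### the identification at `1` -/

/-- the bijection at `1` -/
def g1 {P Q S κ A B R : Type} (w : S × κ ≃ A ⊕ R) (v : S ≃ P × B) :
    S × ((κ × (P × Q)) ⊕ Q) ≃ (P × Q) × (A ⊕ (B ⊕ R)) where
  toFun z := match z with
    | (s, Sum.inl (k, ij)) => (ij, Sum.map id Sum.inr (w (s, k)))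
    | (s, Sum.inr j) => (((v s).1, j), Sum.inr (Sum.inl (v s).2))
  invFun z := match z with
    | (ij, Sum.inl a) => ((w.symm (Sum.inl a)).1, Sum.inl ((w.symm (Sum.inl a)).2, ij))
    | (ij, Sum.inr (Sum.inr r)) =>
        ((w.symm (Sum.inr r)).1, Sum.inl ((w.symm (Sum.inr r)).2, ij))
    | ((i, j), Sum.inr (Sum.inl b)) => (v.symm (i, b), Sum.inr j)
  left_inv := by
    rintro ⟨s, ⟨k, ij⟩ | j⟩
    · rcases hw : w (s, k) with a | r
      · have h1 : w.symm (Sum.inl a) = (s, k) := by rw [← hw, Equiv.symm_apply_apply]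
        simp [hw, h1]
      · have h1 : w.symm (Sum.inr r) = (s, k) := by rw [← hw, Equiv.symm_apply_apply]
        simp [hw, h1]
    · simp
  right_inv := by rintro ⟨⟨i, j⟩, a | b | r⟩ <;> simp

/-- several equal blocks `h` and one block `y` -/
def bm (h : CM (P × Q)) : κ × (P × Q) → κ × (P × Q) → ℂ :=
  fun a b => if a.1 = b.1 then h a.2 b.2 else 0

theorem map_inj {a b : A ⊕ R} :
    (Sum.map id Sum.inr a : A ⊕ (B ⊕ R)) = Sum.map id Sum.inr b ↔ a = b := by
  rcases a with a | a <;> rcases b with b | b <;> simp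

theorem spec1 (F : A ⊕ (B ⊕ R) → CM (P × Q)) (y : CM Q) (h : CM (P × Q))
    (hA : ∀ a, F (Sum.inl a) = h) (hB : ∀ b, F (Sum.inr (Sum.inl b)) = kr y)
    (hR : ∀ r, F (Sum.inr (Sum.inr r)) = h) (u : C ≃ (κ × (P × Q)) ⊕ Q)
    (w : S × κ ≃ A ⊕ R) (v : S ≃ P × B) :
    ri ((Equiv.prodCongr (Equiv.refl S) u).trans (g1 w v)) (bd F) =
      kr (fun c c' => bk (bm h) y (u c) (u c') : CM C) := by
  have hF : ∀ z : A ⊕ R, F (Sum.map id Sum.inr z) = h := by
    rintro (a | r)
    · exact hA a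
    · exact hR r
  refine cm_ext fun a b => ?_
  obtain ⟨s, c⟩ := a
  obtain ⟨s', c'⟩ := b
  rw [ri_apply, bd_apply, kr_apply]
  have e : ∀ s c, ((Equiv.prodCongr (Equiv.refl S) u).trans (g1 w v)) (s, c) =
      g1 w v (s, u c) := fun _ _ => rfl
  rw [e, e]
  show _ = if s = s' then bk (bm h) y (u c) (u c') else 0
  rcases u c with ⟨k, ij⟩ | j <;> rcases u c' with ⟨k', ij'⟩ | j'
  · show (if (Sum.map id Sum.inr (w (s, k)) : A ⊕ (B ⊕ R)) = Sum.map id Sum.inr (w (s', k')) then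
      F (Sum.map id Sum.inr (w (s, k))) ij ij' else 0) =
      if s = s' then (if k = k' then h ij ij' else 0) else 0
    rw [hF]
    simp only [map_inj, w.injective.eq_iff, Prod.mk.injEq]
    by_cases h1 : s = s' <;> by_cases h2 : k = k' <;> simp [h1, h2]
  · show (if (Sum.map id Sum.inr (w (s, k)) : A ⊕ (B ⊕ R)) = Sum.inr (Sum.inl (v s').2) then
      F (Sum.map id Sum.inr (w (s, k))) ij ((v s').1, j') else 0) = if s = s' then 0 else 0
    rcases w (s, k) with a | r <;> simp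
  · show (if (Sum.inr (Sum.inl (v s).2) : A ⊕ (B ⊕ R)) = Sum.map id Sum.inr (w (s', k')) then
      F (Sum.inr (Sum.inl (v s).2)) ((v s).1, j) ij' else 0) = if s = s' then 0 else 0
    rcases w (s', k') with a | r <;> simp
  · show (if (Sum.inr (Sum.inl (v s).2) : A ⊕ (B ⊕ R)) = Sum.inr (Sum.inl (v s').2) then
      F (Sum.inr (Sum.inl (v s).2)) ((v s).1, j) ((v s').1, j') else 0) =
      if s = s' then y j j' else 0
    rw [hB, kr_apply]
    by_cases hs : s = s'
    · rw [if_pos hs, hs]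
      simp
    · rw [if_neg hs]
      have hv : v s ≠ v s' := fun h => hs (v.injective h)
      by_cases h2 : (v s).2 = (v s').2
      · have h1 : (v s).1 ≠ (v s').1 := fun h1 => hv (Prod.ext h1 h2)
        simp [h1]
      · simp [h2]

end JStepAux

open JStepAux in
theorem exists_J (p q : ℕ) (hp : 0 < p) (hq : 0 < q) :
    ∃ φ : DimDrop p q →⋆ₐ[ℂ] DimDrop (p * (q + 1)) (q * (p * (q + 1) + 1)), IsDiag (1 / 2) φ := by
  obtain ⟨n, hn⟩ : ∃ n, n = q * (p * (q + 1)) := ⟨_, rfl⟩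
  have hn1 : 1 ≤ n := by
    rw [hn]
    exact Nat.mul_pos hq (Nat.mul_pos hp (Nat.succ_pos q))
  have u₀ : Fin (p * (q + 1)) ≃ (Fin p × Fin q) ⊕ Fin p :=
    Fintype.equivOfCardEq (by simp [mul_add])
  have wB : Fin (q * (p * (q + 1) + 1)) ≃ Fin (q + 1) ⊕ Fin (n - 1) :=
    Fintype.equivOfCardEq (by
      rw [Fintype.card_sum, Fintype.card_fin, Fintype.card_fin, Fintype.card_fin, mul_add, ← hn]
      omega)
  have w₀ : Fin (q * (p * (q + 1) + 1)) ≃ Fin q × Fin (p * (q + 1) + 1) :=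
    Fintype.equivOfCardEq (by simp)
  have u₁ : Fin (q * (p * (q + 1) + 1)) ≃ (Fin (q + 1) × (Fin p × Fin q)) ⊕ Fin q :=
    Fintype.equivOfCardEq (by
      simp only [Fintype.card_sum, Fintype.card_prod, Fintype.card_fin]
      ring)
  have w₁ : Fin (p * (q + 1)) × Fin (q + 1) ≃ Fin (p * (q + 1) + 1) ⊕ Fin (n - 1) :=
    Fintype.equivOfCardEq (by
      simp only [Fintype.card_sum, Fintype.card_prod, Fintype.card_fin]
      have h1 : p * (q + 1) * (q + 1) = p * (q + 1) + n := by rw [hn]; ring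
      omega)
  have v₁ : Fin (p * (q + 1)) ≃ Fin p × Fin (q + 1) :=
    Fintype.equivOfCardEq (by simp)
  obtain ⟨φ, V, hV1, hV2, hφ⟩ := exists_hom_of_path
    (K := Fin (p * (q + 1) + 1) ⊕ (Fin (q + 1) ⊕ Fin (n - 1))) zt (fun k => continuous_zt k)
    ((Equiv.prodCongr u₀ (Equiv.refl _)).trans (g0 wB w₀))
    ((Equiv.prodCongr (Equiv.refl _) u₁).trans (g1 w₁ v₁))
    (fun f => by
      obtain ⟨x, hx⟩ := vl_zero f
      refine ⟨_, spec0 _ x (vl mid f) (fun a => ?_) (fun k => ?_) u₀ wB w₀⟩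
      · show vl (lo 0) f = _
        rw [lo_zero, hx]
      · rcases k with b | r
        · show vl (up 0) f = _
          rw [up_zero]
        · rfl)
    (fun f => by
      obtain ⟨y, hy⟩ := vl_one f
      refine ⟨_, spec1 _ y (vl mid f) (fun a => ?_) (fun b => ?_) (fun r => rfl) u₁ w₁ v₁⟩
      · show vl (lo 1) f = _
        rw [lo_one]
      · show vl (up 1) f = _
        rw [up_one, hy])
  exact ⟨φ, _, _, _, zt, _, V, fun k s t => lip_zt k s t,
    fun x => onto_zt ⟨0, Nat.succ_pos _⟩ ⟨0, Nat.succ_pos _⟩ x, hV1, hV2, hφ⟩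

end Pool.Agent.Lib.EJZ
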