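import Pool.Agent.Lib.CStarLim.Completion
import Pool.Agent.Lib.EJZ.Defs

/-!
# Diagonal homomorphisms with small variation send nonzero elements to nowhere zero elements

PROOF.  `f ≠ 0` gives `x₀` with `vl x₀ f ≠ 0` (`vl_ext`) and by continuity (`continuous_vl`) `δ > 0` with
`vl x f ≠ 0` whenever `|x - x₀| < δ`.  Let `IsDiag L φ` with data `K, ζ, e, V` and `L < δ`, and let `t` be
given.  There are `k, y` with `ζ k y = x₀`, and `|ζ k t - x₀| ≤ L * |t - y| < δ` (if `L ≤ 0` the left side is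
`≤ 0`), so `vl (ζ k t) f ≠ 0`, so `bd (fun k => vl (ζ k t) f) ≠ 0` (compare entries `(a, k), (b, k)`), and `ri e` is
injective and `V t` is unitary.
Injectivity: if `φ f = 0` then `vl (ζ k y) f = 0` for all `k, y`, so `vl x f = 0` for all `x`.
-/

open scoped ComplexOrder
open Filter Topology

namespace Pool.Agent.Lib.EJZ

open Pool.Agent.Lib.EJS CStarLim

theorem conj_eq_zero {T : Type} [Fintype T] [DecidableEq T] {V x : CM T} (h1 : star V * V = 1)
    (h : V * x * star V = 0) : x = 0 := by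
  have h2 : star V * (V * x * star V) * V = 0 := by
    rw [h, mul_zero, zero_mul]
  have h3 : star V * (V * x * star V) * V = (star V * V) * x * (star V * V) := by
    simp only [mul_assoc]
  rw [h3, h1, one_mul, mul_one] at h2
  exact h2

theorem diag_eq_zero {S T K : Type} [Fintype S] [DecidableEq S] [Fintype T] [DecidableEq T]
    [Fintype K] [DecidableEq K] {V : CM T} {e : T ≃ S × K} {x : K → CM S} (h1 : star V * V = 1)
    (h : V * ri e (bd x) * star V = 0) (k : K) : x k = 0 := by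
  have h2 := conj_eq_zero h1 h
  refine cm_ext fun a b => ?_
  have h3 : ri e (bd x) (e.symm (a, k)) (e.symm (b, k)) = 0 := by
    rw [h2]
    rfl
  rw [ri_apply, bd_apply] at h3
  simpa using h3

theorem vl_ne_zero_of_isDiag {p q : ℕ} (f : DimDrop p q) (hf : f ≠ 0) :
    ∃ δ : ℝ, 0 < δ ∧ ∀ (p' q' : ℕ) (L : ℝ) (φ : DimDrop p q →⋆ₐ[ℂ] DimDrop p' q'), L < δ →
      IsDiag L φ → ∀ t, vl t (φ f) ≠ 0 := by
  obtain ⟨x₀, hx₀⟩ : ∃ x₀, vl x₀ f ≠ 0 := by
    by_contra hcon
    push Not at hcon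
    exact hf (vl_ext fun t => by rw [hcon t, map_zero])
  have hev := (continuous_vl f).continuousAt.eventually_ne hx₀
  obtain ⟨δ, hδ, hδ'⟩ := Metric.eventually_nhds_iff.1 hev
  refine ⟨δ, hδ, ?_⟩
  rintro p' q' L φ hL ⟨K, _, _, ζ, e, V, hζ, hon, -, hV, hφ⟩ t ht
  rw [hφ] at ht
  obtain ⟨k, y, hky⟩ := hon x₀
  have h1 := diag_eq_zero (hV t) ht k
  refine hδ' ?_ h1
  rw [Subtype.dist_eq, Real.dist_eq, ← hky]
  refine (hζ k t y).trans_lt ?_
  have h2 : |(t : ℝ) - y| ≤ 1 := by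
    rw [abs_le]
    have := t.2.1
    have := t.2.2
    have := y.2.1
    have := y.2.2
    constructor <;> linarith
  have h3 : 0 ≤ |(t : ℝ) - y| := abs_nonneg _
  rcases le_or_gt L 0 with hL0 | hL0
  · nlinarith
  · nlinarith

theorem IsDiag.injective {p q p' q' : ℕ} {L : ℝ} {φ : DimDrop p q →⋆ₐ[ℂ] DimDrop p' q'}
    (hφ : IsDiag L φ) : Function.Injective φ := by
  rw [injective_iff_map_eq_zero]
  intro f hf
  obtain ⟨K, _, _, ζ, e, V, hζ, hon, -, hV, hφ⟩ := hφ
  refine vl_ext fun x => ?_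
  obtain ⟨k, y, hky⟩ := hon x
  have h1 : vl y (φ f) = 0 := by rw [hf, map_zero]
  rw [hφ] at h1
  have h2 := diag_eq_zero (hV y) h1 k
  simp only [hky] at h2
  rw [h2, map_zero]

end Pool.Agent.Lib.EJZ
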