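import Pool.Agent.Lib.CStarLim.Simple
import Pool.Agent.Lib.EJZ.Comp
import Pool.Agent.Lib.EJZ.Full
import Pool.Agent.Lib.EJZ.NonVan

/-!
# Simplicity of the limit

PROOF.  `CStarLim.isSimpleRing_lim` with `CStarAlgebra.spectralOrder`.  `s.Lim` is nontrivial because `s.ι 0` is
injective and `DimDrop (p 0) (q 0)` is nontrivial (`1 ≠ 0` since `0 < p 0`, `0 < q 0`).  For
`c : A n` nonzero take `δ` from `vl_ne_zero_of_isDiag` and `m ≥ n` with `(1/2)^(m-n) < δ`; then
`h := tr s (n ≤ m) c` is nowhere zero (`isDiag_tr`), so `full_of_vl_ne_zero` applies; map the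
equation to the limit with `s.ι m` and use `ι_tr`.
-/

open scoped ComplexOrder
open Filter Topology

namespace Pool.Agent.Lib.EJZ

open Pool.Agent.Lib.EJS CStarLim

theorem nontrivial_dimDrop {p q : ℕ} (hp : 0 < p) (hq : 0 < q) : Nontrivial (DimDrop p q) := by
  refine ⟨⟨0, 1, fun h => ?_⟩⟩
  have h1 := congrArg (vl 0) h
  rw [map_zero, map_one] at h1
  have h2 := congrFun (congrFun h1 (⟨0, hp⟩, ⟨0, hq⟩)) (⟨0, hp⟩, ⟨0, hq⟩)
  rw [cm_zero, cm_one, if_pos rfl] at h2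
  exact zero_ne_one h2

theorem isSimpleRing_of_isDiag {p q : ℕ → ℕ} (s : IndSys fun n => DimDrop (p n) (q n))
    (hp : ∀ n, 0 < p n) (hq : ∀ n, 0 < q n) (hd : ∀ n, IsDiag (1 / 2) (s.map n)) :
    IsSimpleRing s.Lim := by
  have hnt : Nontrivial s.Lim := by
    have := nontrivial_dimDrop (hp 0) (hq 0)
    exact (IndSys.ι_injective (s := s) 0).nontrivial
  let _ : PartialOrder s.Lim := CStarAlgebra.spectralOrder s.Lim
  have : StarOrderedRing s.Lim := CStarAlgebra.spectralOrderedRing s.Lim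
  refine isSimpleRing_lim fun n c hc => ?_
  obtain ⟨δ, hδ, h⟩ := vl_ne_zero_of_isDiag c hc
  obtain ⟨K, hK⟩ := exists_pow_lt_of_lt_one hδ (by norm_num : (1 / 2 : ℝ) < 1)
  have hn : n ≤ n + K := Nat.le_add_right _ _
  have h1 : ∀ t, vl t (tr s hn c) ≠ 0 := by
    refine h _ _ ((1 / 2) ^ (n + K - n)) (tr s hn) ?_ (isDiag_tr s hd hn)
    rwa [Nat.add_sub_cancel_left]
  obtain ⟨κ, hκ, E, δ', y, hδ', hE⟩ := full_of_vl_ne_zero (tr s hn c) h1
  refine ⟨κ, hκ, fun i => s.ι (n + K) (E i), δ', hδ', ?_⟩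
  have h2 := congrArg (s.ι (n + K)) hE
  rw [map_sum, map_add, map_smul, map_one, map_mul, map_star] at h2
  have h3 : ∑ i, s.ι (n + K) (E i) * s.ι n (star c * c) * star (s.ι (n + K) (E i)) =
      (δ' : ℂ) • 1 + star (s.ι (n + K) y) * s.ι (n + K) y := by
    rw [← h2]
    refine Finset.sum_congr rfl fun i _ => ?_
    have h5 : s.ι n (star c * c) = s.ι (n + K) (star (tr s hn c) * tr s hn c) := by
      rw [← ι_tr s hn (star c * c), map_mul (tr s hn), map_star (tr s hn)]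
    rw [h5, map_mul (s.ι (n + K)) (E i * _), map_mul (s.ι (n + K)) (E i),
      map_star (s.ι (n + K)) (E i)]
  rw [h3]
  have h4 : algebraMap ℝ s.Lim δ' = (δ' : ℂ) • 1 := by
    rw [Algebra.algebraMap_eq_smul_one]
    exact (Complex.coe_smul δ' (1 : s.Lim)).symm
  rw [h4]
  exact le_add_of_nonneg_right (star_mul_self_nonneg _)

end Pool.Agent.Lib.EJZ
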