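import Pool.Agent.Lib.EJZ.Step

/-!
# The inductive system

PROOF.  Choose functions from `exists_step` on the subtype `{x : ℕ × ℕ // 2 ≤ x.1 ∧ 2 ≤ x.2 ∧
Nat.Coprime x.1 x.2}` and iterate (`Nat.rec`), starting with `(2, 3)`.
-/

open scoped ComplexOrder
open Filter Topology

namespace Pool.Agent.Lib.EJZ

open Pool.Agent.Lib.EJS CStarLim

/-- admissible pairs -/
def Pairs : Type := {x : ℕ × ℕ // 2 ≤ x.1 ∧ 2 ≤ x.2 ∧ Nat.Coprime x.1 x.2}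

theorem exists_next (x : Pairs) : ∃ y : Pairs, x.1.1 < y.1.1 ∧ x.1.2 < y.1.2 ∧
    ∃ φ ρ : DimDrop x.1.1 x.1.2 →⋆ₐ[ℂ] DimDrop y.1.1 y.1.2, IsDiag (1 / 2) φ ∧
      ∀ f g, φ f * ρ g = ρ g * φ f := by
  obtain ⟨p', q', h1, h2, h3, h4⟩ := exists_step x.1.1 x.1.2 x.2.1 x.2.2.1 x.2.2.2
  exact ⟨⟨(p', q'), (x.2.1.trans h1.le), (x.2.2.1.trans h2.le), h3⟩, h1, h2, h4⟩

/-- the iteration -/
noncomputable def pairSeq : ℕ → Pairs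
  | 0 => ⟨(2, 3), by norm_num, by norm_num, by norm_num⟩
  | n + 1 => (exists_next (pairSeq n)).choose

theorem exists_system : ∃ (p q : ℕ → ℕ)
    (φ ρ : ∀ n, DimDrop (p n) (q n) →⋆ₐ[ℂ] DimDrop (p (n + 1)) (q (n + 1))),
    (∀ n, 2 ≤ p n) ∧ (∀ n, 2 ≤ q n) ∧ (∀ n, Nat.Coprime (p n) (q n)) ∧ StrictMono p ∧
    StrictMono q ∧ (∀ n, IsDiag (1 / 2) (φ n)) ∧ ∀ n f g, φ n f * ρ n g = ρ n g * φ n f := by
  have h : ∀ n, (pairSeq n).1.1 < (pairSeq (n + 1)).1.1 ∧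
      (pairSeq n).1.2 < (pairSeq (n + 1)).1.2 ∧
      ∃ φ ρ : DimDrop (pairSeq n).1.1 (pairSeq n).1.2 →⋆ₐ[ℂ]
        DimDrop (pairSeq (n + 1)).1.1 (pairSeq (n + 1)).1.2, IsDiag (1 / 2) φ ∧
        ∀ f g, φ f * ρ g = ρ g * φ f := fun n => (exists_next (pairSeq n)).choose_spec
  choose h1 h2 φ ρ h3 h4 using h
  exact ⟨fun n => (pairSeq n).1.1, fun n => (pairSeq n).1.2, φ, ρ, fun n => (pairSeq n).2.1,
    fun n => (pairSeq n).2.2.1, fun n => (pairSeq n).2.2.2, strictMono_nat_of_lt_succ h1,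
    strictMono_nat_of_lt_succ h2, h3, h4⟩

end Pool.Agent.Lib.EJZ
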