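import Pool.Agent.Lib.EJZ.Central
import Pool.Agent.Lib.EJZ.HalfFlip
import Pool.Agent.Lib.EJZ.SimpleZ
import Pool.Agent.Lib.EJZ.Sys

/-!
# The Jiang-Su algebra in every universe
-/

open scoped ComplexOrder
open Filter Topology

namespace Pool.Agent.Lib.EJZ

open Pool.Agent.Lib.EJS CStarLim

universe u

section Instances

variable {Z : Type} [CStarAlgebra Z]

instance uStar : Star (ULift.{u} Z) := ⟨fun x => ⟨star x.down⟩⟩

theorem down_star (x : ULift.{u} Z) : (star x).down = star x.down := rfl

instance uStarRing : StarRing (ULift.{u} Z) where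
  star_involutive x := ULift.down_injective (star_star x.down)
  star_mul x y := ULift.down_injective (star_mul x.down y.down)
  star_add x y := ULift.down_injective (star_add x.down y.down)

noncomputable instance uNormedAlgebra : NormedAlgebra ℂ (ULift.{u} Z) where
  norm_smul_le r x := norm_smul_le r x.down

noncomputable instance uCStarAlgebra : CStarAlgebra (ULift.{u} Z) where
  norm_mul_self_le x := CStarRing.norm_mul_self_le (x := x.down)
  star_smul r x := ULift.down_injective (star_smul r x.down)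

/-- the canonical isomorphism -/
noncomputable def upHom : Z →⋆ₐ[ℂ] ULift.{u} Z where
  toFun x := ⟨x⟩
  map_one' := rfl
  map_mul' _ _ := rfl
  map_zero' := rfl
  map_add' _ _ := rfl
  commutes' _ := rfl
  map_star' _ := rfl

/-- the inverse of the canonical isomorphism -/
noncomputable def downHom : ULift.{u} Z →⋆ₐ[ℂ] Z where
  toFun x := x.down
  map_one' := rfl
  map_mul' _ _ := rfl
  map_zero' := rfl
  map_add' _ _ := rfl
  commutes' _ := rfl
  map_star' _ := rfl

theorem norm_upHom (x : Z) : ‖(upHom x : ULift.{u} Z)‖ = ‖x‖ := rfl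

theorem norm_downHom (x : ULift.{u} Z) : ‖downHom x‖ = ‖x‖ := rfl

end Instances

theorem exists_jiangSu_univ : ∃ (Z : Type u) (_ : CStarAlgebra Z), IsJiangSu Z := by
  classical
  obtain ⟨p, q, φ, ρ, hp, hq, hpq, hmp, hmq, hd, hρ⟩ := exists_system
  have hp' : ∀ n, 0 < p n := fun n => lt_of_lt_of_le (by norm_num) (hp n)
  have hq' : ∀ n, 0 < q n := fun n => lt_of_lt_of_le (by norm_num) (hq n)
  let s : IndSys fun n => DimDrop (p n) (q n) := ⟨φ, fun n => (hd n).injective⟩
  have hup : Isometry (upHom : s.Lim →⋆ₐ[ℂ] ULift.{u} s.Lim) :=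
    AddMonoidHomClass.isometry_of_norm _ norm_upHom
  have hsur : Function.Surjective (upHom : s.Lim →⋆ₐ[ℂ] ULift.{u} s.Lim) := fun x => ⟨x.down, rfl⟩
  have hsep : TopologicalSpace.SeparableSpace s.Lim :=
    IndSys.separableSpace_lim fun n => separable_dimDrop (p n) (q n)
  have hsim : IsSimpleRing s.Lim := isSimpleRing_of_isDiag s hp' hq' hd
  refine ⟨ULift.{u} s.Lim, inferInstance, ?_⟩
  refine
    { separable := hsur.denseRange.separableSpace hup.continuous
      simple := IsSimpleRing.of_ringEquiv (ULift.ringEquiv (R := s.Lim)).symm hsim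
      half_flip := fun C _ i j h F ε hε => ?_
      central := fun F ε hε => ?_
      limit := ⟨p, q, fun n => upHom.comp (s.ι n), hpq, hmp.tendsto_atTop, hmq.tendsto_atTop,
        fun n => hup.injective.comp (IndSys.ι_injective (s := s) n), fun n => ?_, ?_⟩ }
  · obtain ⟨w, hw, h1⟩ := half_flip_lim s hp' hq' hd (i.comp upHom) (j.comp upHom)
      (fun x y => (h.comm _ _).eq) (F.image ULift.down) hε
    exact ⟨w, hw, fun z hz => h1 z.down (Finset.mem_image_of_mem _ hz)⟩
  · obtain ⟨σ, hσ⟩ := central_lim s hp' hq' hd ρ hρ (F.image ULift.down) hε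
    refine ⟨upHom.comp (σ.comp downHom), fun x hx y hy => ?_⟩
    exact hσ x.down (Finset.mem_image_of_mem _ hx) y.down (Finset.mem_image_of_mem _ hy)
  · rintro _ ⟨a, rfl⟩
    exact ⟨s.map n a, congrArg upHom (IndSys.ι_map (s := s) n a)⟩
  · have h1 := hsur.denseRange.dense_image hup.continuous (IndSys.dense_iUnion_ι (s := s))
    refine h1.mono ?_
    rw [Set.image_iUnion]
    refine Set.iUnion_mono fun n => ?_
    rintro _ ⟨_, ⟨a, rfl⟩, rfl⟩
    exact ⟨a, rfl⟩

end Pool.Agent.Lib.EJZ
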