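import Pool.Agent.Lib.CStarLim.Completion
import Pool.Agent.Lib.EJZ.Defs

/-!
# The local inequality (order zero maps)

PROOF.  For `X : CM (U × U')` put `Φ X := ∑ α β γ δ, X (α, γ) (β, δ) • (η (Eu α β) * η' (Eu γ δ))` and
`Φ₂ X := ∑ α β γ δ, X (α, γ) (β, δ) • (η₂ (Eu α β) * η₂' (Eu γ δ))`.  Both are linear,
`Φ (kl a * kr b) = η a * η' b` (`kl_mul_kr_apply`, `a = ∑ a α β • Eu α β`), and `Φ X * Φ Y = Φ₂ (X * Y)`,
`star (Φ X) = Φ (star X)` (check on `kl a * kr b`, or on matrix units; `h1, h2, hs, hs', hc`).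
With `X = ∑ kl (a k) * kr (b k)`, `‖X‖ ≤ M`, there is `Y` with `M² • 1 - star X * X = star Y * Y`
(`CM (U × U')` is a C-star algebra).  So `star (Φ X) * Φ X = Φ₂ (star X * X) = M² • Φ₂ 1 - star (Φ Y) * Φ Y`
and `Φ₂ 1 = η₂ 1 * η₂' 1` (as `1 = kl 1 * kr 1`).
-/

open scoped ComplexOrder
open Filter Topology

namespace Pool.Agent.Lib.EJZ

open Pool.Agent.Lib.EJS CStarLim

namespace LocalIneqAux

private theorem Eu_mul {S : Type} [Fintype S] [DecidableEq S] (i j k l : S) :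
    Eu i j * Eu k l = if j = k then (Eu i l : CM S) else 0 := by
  refine cm_ext fun a b => ?_
  rw [cm_mul]
  simp only [Eu_apply]
  by_cases h : j = k
  · subst h
    rw [if_pos rfl, Eu_apply, Finset.sum_eq_single j]
    · by_cases h1 : a = i <;> by_cases h2 : b = l <;> simp [h1, h2]
    · intro c _ hc
      simp [hc]
    · intro hc; exact absurd (Finset.mem_univ _) hc
  · rw [if_neg h, cm_zero]
    refine Finset.sum_eq_zero fun c _ => ?_
    by_cases h1 : c = j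
    · subst h1
      simp [h]
    · simp [h1]

private theorem Eu_star {S : Type} [Fintype S] [DecidableEq S] (i j : S) :
    star (Eu i j : CM S) = Eu j i := by
  refine cm_ext fun a b => ?_
  rw [cm_star, Eu_apply, Eu_apply]
  by_cases h1 : a = j <;> by_cases h2 : b = i <;> simp [h1, h2]

private theorem eq_sum_Eu {S : Type} [Fintype S] [DecidableEq S] (x : CM S) :
    x = ∑ i : S, ∑ j : S, x i j • (Eu i j : CM S) := by
  refine cm_ext fun a b => ?_
  rw [cm_sum]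
  simp only [cm_sum, cm_smul, Eu_apply]
  rw [Finset.sum_eq_single a, Finset.sum_eq_single b]
  · simp
  · intro c _ hc
    simp [Ne.symm hc]
  · intro hc; exact absurd (Finset.mem_univ _) hc
  · intro c _ hc
    refine Finset.sum_eq_zero fun d _ => ?_
    simp [Ne.symm hc]
  · intro hc; exact absurd (Finset.mem_univ _) hc

section

variable {C : Type*} [CStarAlgebra C] {U U' : Type} [Fintype U] [DecidableEq U] [Fintype U']
  [DecidableEq U']

private noncomputable def Phi (η : CM U →ₗ[ℂ] C) (η' : CM U' →ₗ[ℂ] C) :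
    CM (U × U') →ₗ[ℂ] C where
  toFun X := ∑ p, ∑ q, X p q • (η (Eu p.1 q.1) * η' (Eu p.2 q.2))
  map_add' X Y := by
    simp only [cm_add, add_smul, Finset.sum_add_distrib]
  map_smul' c X := by
    simp only [cm_smul, mul_smul, Finset.smul_sum, RingHom.id_apply]

private theorem Phi_apply (η : CM U →ₗ[ℂ] C) (η' : CM U' →ₗ[ℂ] C) (X : CM (U × U')) :
    Phi η η' X = ∑ p, ∑ q, X p q • (η (Eu p.1 q.1) * η' (Eu p.2 q.2)) := rfl

private theorem Phi_tensor (η : CM U →ₗ[ℂ] C) (η' : CM U' →ₗ[ℂ] C) (a : CM U) (b : CM U') :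
    Phi η η' (kl a * kr b) = η a * η' b := by
  rw [Phi_apply]
  have ha : η a = ∑ i, ∑ j, a i j • η (Eu i j) := by
    conv_lhs => rw [eq_sum_Eu a]
    simp only [map_sum, map_smul]
  have hb : η' b = ∑ i, ∑ j, b i j • η' (Eu i j) := by
    conv_lhs => rw [eq_sum_Eu b]
    simp only [map_sum, map_smul]
  rw [ha, hb, Finset.sum_mul]
  simp only [kl_mul_kr_apply, Fintype.sum_prod_type]
  refine Finset.sum_congr rfl fun i _ => ?_
  rw [Finset.sum_mul, Finset.sum_comm]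
  refine Finset.sum_congr rfl fun j _ => ?_
  rw [Finset.mul_sum]
  refine Finset.sum_congr rfl fun k _ => ?_
  rw [Finset.mul_sum]
  refine Finset.sum_congr rfl fun l _ => ?_
  rw [smul_mul_smul_comm]

private theorem Phi_star (η : CM U →ₗ[ℂ] C) (η' : CM U' →ₗ[ℂ] C)
    (hs : ∀ a, star (η a) = η (star a))
    (hs' : ∀ a, star (η' a) = η' (star a)) (hc : ∀ a b, η a * η' b = η' b * η a)
    (X : CM (U × U')) : star (Phi η η' X) = Phi η η' (star X) := by
  rw [Phi_apply, Phi_apply]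
  simp only [star_sum, star_smul, star_mul, hs, hs', Eu_star, cm_star]
  rw [Finset.sum_comm]
  refine Finset.sum_congr rfl fun p _ => Finset.sum_congr rfl fun q _ => ?_
  rw [hc]

private theorem Phi_mul (η η₂ : CM U →ₗ[ℂ] C) (η' η₂' : CM U' →ₗ[ℂ] C)
    (h1 : ∀ a b, η a * η b = η₂ (a * b))
    (h2 : ∀ a b, η' a * η' b = η₂' (a * b)) (hc : ∀ a b, η a * η' b = η' b * η a)
    (X Y : CM (U × U')) : Phi η η' X * Phi η η' Y = Phi η₂ η₂' (X * Y) := by
  have hmul : ∀ p q r s : U × U', (η (Eu p.1 q.1) * η' (Eu p.2 q.2)) *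
      (η (Eu r.1 s.1) * η' (Eu r.2 s.2)) =
      if q = r then η₂ (Eu p.1 s.1) * η₂' (Eu p.2 s.2) else 0 := by
    intro p q r s
    have h3 : (η (Eu p.1 q.1) * η' (Eu p.2 q.2)) * (η (Eu r.1 s.1) * η' (Eu r.2 s.2)) =
        η₂ (Eu p.1 q.1 * Eu r.1 s.1) * η₂' (Eu p.2 q.2 * Eu r.2 s.2) := by
      rw [← h1, ← h2]
      calc _ = η (Eu p.1 q.1) * (η' (Eu p.2 q.2) * η (Eu r.1 s.1)) * η' (Eu r.2 s.2) := by
            simp only [mul_assoc]
        _ = η (Eu p.1 q.1) * (η (Eu r.1 s.1) * η' (Eu p.2 q.2)) * η' (Eu r.2 s.2) := by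
            rw [hc]
        _ = _ := by simp only [mul_assoc]
    rw [h3, Eu_mul, Eu_mul]
    by_cases h4 : q.1 = r.1
    · by_cases h5 : q.2 = r.2
      · rw [if_pos h4, if_pos h5, if_pos (Prod.ext h4 h5)]
      · rw [if_pos h4, if_neg h5, if_neg (fun h => h5 (congrArg Prod.snd h)), map_zero, mul_zero]
    · rw [if_neg h4, if_neg (fun h => h4 (congrArg Prod.fst h)), map_zero, zero_mul]
  rw [Phi_apply, Phi_apply, Phi_apply]
  have hL : ∀ p q, (X * Y) p q • (η₂ (Eu p.1 q.1) * η₂' (Eu p.2 q.2)) =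
      ∑ c, (X p c * Y c q) • (η₂ (Eu p.1 q.1) * η₂' (Eu p.2 q.2)) := by
    intro p q
    rw [cm_mul, Finset.sum_smul]
  simp only [hL]
  rw [Finset.sum_mul]
  refine Finset.sum_congr rfl fun p _ => ?_
  rw [Finset.sum_mul, Finset.sum_comm (s := Finset.univ) (t := Finset.univ)
    (f := fun q c => (X p c * Y c q) • (η₂ (Eu p.1 q.1) * η₂' (Eu p.2 q.2)))]
  refine Finset.sum_congr rfl fun c _ => ?_
  rw [Finset.mul_sum, Finset.sum_eq_single c]
  · rw [Finset.mul_sum]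
    refine Finset.sum_congr rfl fun q _ => ?_
    rw [smul_mul_smul_comm, hmul, if_pos rfl]
  · intro d _ hd
    rw [Finset.mul_sum]
    refine Finset.sum_eq_zero fun q _ => ?_
    rw [smul_mul_smul_comm, hmul, if_neg (Ne.symm hd), smul_zero]
  · intro hc; exact absurd (Finset.mem_univ _) hc

end

private theorem exists_sub {B : Type} [CStarAlgebra B] (x : B) {M : ℝ} (hM : ‖x‖ ≤ M) :
    ∃ y : B, star x * x = ((M ^ 2 : ℝ) : ℂ) • (1 : B) - star y * y := by
  letI : PartialOrder B := CStarAlgebra.spectralOrder B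
  haveI : StarOrderedRing B := CStarAlgebra.spectralOrderedRing B
  have hle : star x * x ≤ algebraMap ℝ B (M ^ 2) := by
    refine (CStarAlgebra.star_mul_le_algebraMap_norm_sq).trans ?_
    exact algebraMap_mono B (pow_le_pow_left₀ (norm_nonneg _) hM 2)
  obtain ⟨y, hy⟩ := CStarAlgebra.nonneg_iff_eq_star_mul_self.1 (sub_nonneg.2 hle)
  refine ⟨y, ?_⟩
  have e : algebraMap ℝ B (M ^ 2) = ((M ^ 2 : ℝ) : ℂ) • (1 : B) := by
    rw [Algebra.algebraMap_eq_smul_one]
    exact (Complex.coe_smul (M ^ 2) (1 : B)).symm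
  rw [← e, ← hy]
  abel

end LocalIneqAux

open LocalIneqAux

theorem local_ineq {C : Type*} [CStarAlgebra C] [PartialOrder C] [StarOrderedRing C]
    {U U' : Type} [Fintype U] [DecidableEq U] [Fintype U'] [DecidableEq U']
    (η η₂ : CM U →ₗ[ℂ] C) (η' η₂' : CM U' →ₗ[ℂ] C) (h1 : ∀ a b, η a * η b = η₂ (a * b))
    (h2 : ∀ a b, η' a * η' b = η₂' (a * b)) (hs : ∀ a, star (η a) = η (star a))
    (hs' : ∀ a, star (η' a) = η' (star a)) (hc : ∀ a b, η a * η' b = η' b * η a)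
    {κ : Type} [Fintype κ] (a : κ → CM U) (b : κ → CM U') {M : ℝ}
    (hM : ‖∑ k, (kl (a k) * kr (b k) : CM (U × U'))‖ ≤ M) :
    star (∑ k, η (a k) * η' (b k)) * (∑ k, η (a k) * η' (b k)) ≤
      ((M ^ 2 : ℝ) : ℂ) • (η₂ 1 * η₂' 1) := by
  set X : CM (U × U') := ∑ k, (kl (a k) * kr (b k) : CM (U × U')) with hX
  have hsum : ∑ k, η (a k) * η' (b k) = Phi η η' X := by
    rw [hX, map_sum]
    exact Finset.sum_congr rfl fun k _ => (Phi_tensor η η' (a k) (b k)).symm
  obtain ⟨Y, hXX⟩ := exists_sub X hM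
  have hone : Phi η₂ η₂' (1 : CM (U × U')) = η₂ 1 * η₂' 1 := by
    have e : (kl (1 : CM U) * kr (1 : CM U') : CM (U × U')) = 1 := by
      rw [map_one, map_one, mul_one]
    rw [← Phi_tensor η₂ η₂' 1 1, e]
  rw [hsum, Phi_star η η' hs hs' hc, Phi_mul η η₂ η' η₂' h1 h2 hc, hXX, map_sub, map_smul, hone,
    ← Phi_mul η η₂ η' η₂' h1 h2 hc, ← Phi_star η η' hs hs' hc]
  exact sub_le_self _ (star_mul_self_nonneg _)

end Pool.Agent.Lib.EJZ
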