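import Pool.Agent.Lib.EJZ.Sys
import Pool.Agent.Lib.EJZ.SimpleZ
import Pool.Agent.Lib.EJZ.HalfFlip
import Pool.Agent.Lib.EJZ.Central

/-!
# The Jiang-Su algebra exists
-/

open scoped ComplexOrder
open Filter Topology

namespace Pool.Agent.Lib.EJZ

open Pool.Agent.Lib.EJS CStarLim

theorem exists_jiangSu : ∃ (Z : Type) (_ : CStarAlgebra Z), IsJiangSu Z := by
  obtain ⟨p, q, φ, ρ, hp, hq, hpq, hmp, hmq, hd, hρ⟩ := exists_system
  have hp' : ∀ n, 0 < p n := fun n => lt_of_lt_of_le (by norm_num) (hp n)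
  have hq' : ∀ n, 0 < q n := fun n => lt_of_lt_of_le (by norm_num) (hq n)
  let s : IndSys fun n => DimDrop (p n) (q n) := ⟨φ, fun n => (hd n).injective⟩
  refine ⟨s.Lim, inferInstance, ?_⟩
  refine
    { separable := IndSys.separableSpace_lim fun n => separable_dimDrop (p n) (q n)
      simple := isSimpleRing_of_isDiag s hp' hq' hd
      half_flip := fun C _ i j h F ε hε =>
        half_flip_lim s hp' hq' hd i j (fun x y => (h.comm x y).eq) F hε
      central := fun F ε hε => central_lim s hp' hq' hd ρ hρ F hε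
      limit := ⟨p, q, s.ι, hpq, hmp.tendsto_atTop, hmq.tendsto_atTop,
        fun n => IndSys.ι_injective n, fun n => ?_, IndSys.dense_iUnion_ι⟩ }
  rintro _ ⟨a, rfl⟩
  exact ⟨s.map n a, IndSys.ι_map (s := s) n a⟩

end Pool.Agent.Lib.EJZ
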