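import Pool.Agent.Lib.CStarLim.Completion
import Pool.Agent.Lib.EJS.DimPath

/-!
# Cauchy-Schwarz for rows and columns

PROOF.  The Cauchy-Schwarz inequality in a Hilbert module (`CStarModule.norm_inner_le` for the module `ι → A`,
`C⋆ᵐᵒᵈ`), or directly: with `r = ‖∑ a i * star (a i)‖`, one has
`star (∑ a i * b i) * (∑ a i * b i) ≤ r • ∑ star (b i) * b i` because
`∑_{i,j} star (r b_i - a_i^* c) (r b_i - a_i^* c) ≥ 0` with `c = ∑ a_j b_j`:
`0 ≤ r² ∑ b_i^* b_i - 2 r c^* c + c^* (∑ a_i a_i^*) c ≤ r² ∑ b_i^* b_i - r c^* c` (here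
`c^* (∑ a_i a_i^*) c ≤ r c^* c`); divide by `r` (if `r = 0` all `a i = 0`).
-/

open scoped ComplexOrder
open Filter Topology

namespace Pool.Agent.Lib.EJZ

open Pool.Agent.Lib.EJS CStarLim

namespace RowCSAux

open scoped InnerProductSpace in
theorem cs {A : Type*} [CStarAlgebra A] [PartialOrder A] [StarOrderedRing A]
    {ι : Type*} [Fintype ι] (a b : ι → A) :
    ‖∑ i, a i * b i‖ ^ 2 ≤ ‖∑ i, a i * star (a i)‖ * ‖∑ i, star (b i) * b i‖ := by
  let x : WithCStarModule A (ι → A) := fun i => star (b i)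
  let y : WithCStarModule A (ι → A) := a
  have h := CStarModule.norm_inner_le (A := A) (E := WithCStarModule A (ι → A)) (x := x) (y := y)
  have e1 : ⟪x, y⟫_A = ∑ i, a i * b i := by
    rw [WithCStarModule.pi_inner]
    refine Finset.sum_congr rfl fun i _ => ?_
    rw [WithCStarModule.inner_def]
    show a i * star (star (b i)) = _
    rw [star_star]
  have e2 : ‖x‖ ^ 2 = ‖∑ i, star (b i) * b i‖ := by
    rw [WithCStarModule.pi_norm_sq]
    congr 1
    refine Finset.sum_congr rfl fun i _ => ?_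
    rw [WithCStarModule.inner_def]
    show star (b i) * star (star (b i)) = _
    rw [star_star]
  have e3 : ‖y‖ ^ 2 = ‖∑ i, a i * star (a i)‖ := by
    rw [WithCStarModule.pi_norm_sq]
    rfl
  rw [e1] at h
  have h2 := pow_le_pow_left₀ (norm_nonneg _) h 2
  rw [mul_pow, e2, e3, mul_comm] at h2
  exact h2

end RowCSAux

theorem norm_sum_mul_sq_le {A : Type*} [CStarAlgebra A] {ι : Type*} [Fintype ι] (a b : ι → A) :
    ‖∑ i, a i * b i‖ ^ 2 ≤ ‖∑ i, a i * star (a i)‖ * ‖∑ i, star (b i) * b i‖ := by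
  let _ : PartialOrder A := CStarAlgebra.spectralOrder A
  have _ : StarOrderedRing A := CStarAlgebra.spectralOrderedRing A
  exact RowCSAux.cs a b

end Pool.Agent.Lib.EJZ
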