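import Pool.Agent.Lib.CStarLim.Completion
import Pool.Agent.Lib.EJZ.Defs

/-!
# Homomorphisms on tensor products of matrix algebras

PROOF.  `exists_tensorHom`: put `Λ X := ∑ α β γ δ, X (α, γ) (β, δ) • (μ (Eu α β) * μ' (Eu γ δ))`.  It is linear, and
`kl a * kr b` has the entries `a α β * b γ δ` (`kl_mul_kr_apply`), so `Λ (kl a * kr b) = μ a * μ' b` (write
`a = ∑ a α β • Eu α β`).  Multiplicative: `Eu α β * Eu α' β' = if β = α' then Eu α β' else 0`, and
the images of `μ` and `μ'` commute.  Star: `star (Eu α β) = Eu β α`.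
`norm_tensor_eq`: apply it to `μ = kl ∘ lam`, `μ' = kr ∘ lam'`; `Λ : CM (U × U') →⋆ₐ CM (S × S')` is injective
because `CM (U × U')` is a simple ring (`Matrix` over a field) and `CM (S × S')` is nontrivial, so it
is isometric (`NonUnitalStarAlgHom.norm_map`), and
`Λ (∑ kl (a k) * kr (b k)) = ∑ kl (lam (a k)) * kr (lam' (b k))`.
-/

open scoped ComplexOrder
open Filter Topology

namespace Pool.Agent.Lib.EJZ

open Pool.Agent.Lib.EJS CStarLim

variable {U U' S S' : Type} [Fintype U] [DecidableEq U] [Fintype U'] [DecidableEq U'] [Fintype S]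
  [DecidableEq S] [Fintype S'] [DecidableEq S']

namespace TensHomAux

private theorem Eu_mul {S : Type} [Fintype S] [DecidableEq S] (i j k l : S) :
    Eu i j * Eu k l = if j = k then (Eu i l : CM S) else 0 := by
  refine cm_ext fun a b => ?_
  rw [cm_mul]
  simp only [Eu_apply]
  by_cases h : j = k
  · subst h
    rw [if_pos rfl, Eu_apply, Finset.sum_eq_single j]
    · by_cases h1 : a = i <;> by_cases h2 : b = l <;> simp [h1, h2]
    · intro c _ hc
      simp [hc]
    · intro hc; exact absurd (Finset.mem_univ _) hc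
  · rw [if_neg h, cm_zero]
    refine Finset.sum_eq_zero fun c _ => ?_
    by_cases h1 : c = j
    · subst h1
      simp [h]
    · simp [h1]

private theorem Eu_star {S : Type} [Fintype S] [DecidableEq S] (i j : S) :
    star (Eu i j : CM S) = Eu j i := by
  refine cm_ext fun a b => ?_
  rw [cm_star, Eu_apply, Eu_apply]
  by_cases h1 : a = j <;> by_cases h2 : b = i <;> simp [h1, h2]

private theorem Eu_sum {S : Type} [Fintype S] [DecidableEq S] : ∑ i : S, (Eu i i : CM S) = 1 := by
  refine cm_ext fun a b => ?_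
  rw [cm_sum, cm_one]
  simp only [Eu_apply]
  by_cases h : a = b
  · subst h
    simp
  · rw [if_neg h]
    refine Finset.sum_eq_zero fun i _ => if_neg ?_
    rintro ⟨h1, h2⟩
    exact h (h1.trans h2.symm)

private theorem eq_sum_Eu {S : Type} [Fintype S] [DecidableEq S] (x : CM S) :
    x = ∑ i : S, ∑ j : S, x i j • (Eu i j : CM S) := by
  refine cm_ext fun a b => ?_
  rw [cm_sum]
  simp only [cm_sum, cm_smul, Eu_apply]
  rw [Finset.sum_eq_single a, Finset.sum_eq_single b]
  · simp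
  · intro c _ hc
    simp [Ne.symm hc]
  · intro hc; exact absurd (Finset.mem_univ _) hc
  · intro c _ hc
    refine Finset.sum_eq_zero fun d _ => ?_
    simp [Ne.symm hc]
  · intro hc; exact absurd (Finset.mem_univ _) hc

private noncomputable def homOf {S : Type} [Fintype S] [DecidableEq S] {C : Type*} [CStarAlgebra C]
    (E : S → S → C) (hmul : ∀ p q r s, E p q * E r s = if q = r then E p s else 0)
    (hstar : ∀ p q, star (E p q) = E q p) (hone : ∑ p, E p p = 1) : CM S →⋆ₐ[ℂ] C where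
  toFun X := ∑ p, ∑ q, X p q • E p q
  map_one' := by
    rw [← hone]
    refine Finset.sum_congr rfl fun p _ => ?_
    simp [cm_one]
  map_mul' X Y := by
    have hL : ∀ p q, (X * Y) p q • E p q = ∑ c, (X p c * Y c q) • E p q := by
      intro p q
      rw [cm_mul, Finset.sum_smul]
    simp only [hL]
    rw [Finset.sum_mul]
    refine Finset.sum_congr rfl fun p _ => ?_
    rw [Finset.sum_mul, Finset.sum_comm]
    refine Finset.sum_congr rfl fun c _ => ?_
    symm
    rw [Finset.mul_sum, Finset.sum_eq_single c]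
    · rw [Finset.mul_sum]
      refine Finset.sum_congr rfl fun q _ => ?_
      rw [smul_mul_smul_comm, hmul, if_pos rfl]
    · intro d _ hd
      rw [Finset.mul_sum]
      refine Finset.sum_eq_zero fun q _ => ?_
      rw [smul_mul_smul_comm, hmul, if_neg (Ne.symm hd), smul_zero]
    · intro hc; exact absurd (Finset.mem_univ _) hc
  map_zero' := by
    simp [cm_zero]
  map_add' X Y := by
    simp only [cm_add, add_smul, Finset.sum_add_distrib]
  commutes' r := by
    simp only [CStarMatrix.algebraMap_apply, ite_smul, zero_smul, Finset.sum_ite_eq,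
      Finset.mem_univ, if_true, Algebra.algebraMap_self, RingHom.id_apply]
    rw [← Finset.smul_sum, hone, Algebra.algebraMap_eq_smul_one]
  map_star' X := by
    simp only [cm_star, star_sum, star_smul, hstar]
    rw [Finset.sum_comm]

private theorem homOf_apply {S : Type} [Fintype S] [DecidableEq S] {C : Type*} [CStarAlgebra C]
    (E : S → S → C) (hmul : ∀ p q r s, E p q * E r s = if q = r then E p s else 0)
    (hstar : ∀ p q, star (E p q) = E q p) (hone : ∑ p, E p p = 1) (X : CM S) :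
    homOf E hmul hstar hone X = ∑ p, ∑ q, X p q • E p q := rfl

end TensHomAux

theorem exists_tensorHom {C : Type*} [CStarAlgebra C] (μ : CM U →⋆ₐ[ℂ] C) (μ' : CM U' →⋆ₐ[ℂ] C)
    (hc : ∀ a b, μ a * μ' b = μ' b * μ a) :
    ∃ Λ : CM (U × U') →⋆ₐ[ℂ] C, ∀ a b, Λ (kl a * kr b) = μ a * μ' b := by
  have hmul : ∀ p q r s : U × U', (μ (Eu p.1 q.1) * μ' (Eu p.2 q.2)) *
      (μ (Eu r.1 s.1) * μ' (Eu r.2 s.2)) =
      if q = r then μ (Eu p.1 s.1) * μ' (Eu p.2 s.2) else 0 := by
    intro p q r s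
    have h1 : (μ (Eu p.1 q.1) * μ' (Eu p.2 q.2)) * (μ (Eu r.1 s.1) * μ' (Eu r.2 s.2)) =
        μ (Eu p.1 q.1 * Eu r.1 s.1) * μ' (Eu p.2 q.2 * Eu r.2 s.2) := by
      rw [map_mul, map_mul]
      calc _ = μ (Eu p.1 q.1) * (μ' (Eu p.2 q.2) * μ (Eu r.1 s.1)) * μ' (Eu r.2 s.2) := by
            simp only [mul_assoc]
        _ = μ (Eu p.1 q.1) * (μ (Eu r.1 s.1) * μ' (Eu p.2 q.2)) * μ' (Eu r.2 s.2) := by
            rw [hc]
        _ = _ := by simp only [mul_assoc]
    rw [h1, TensHomAux.Eu_mul, TensHomAux.Eu_mul]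
    by_cases h2 : q.1 = r.1
    · by_cases h3 : q.2 = r.2
      · rw [if_pos h2, if_pos h3, if_pos (Prod.ext h2 h3)]
      · rw [if_pos h2, if_neg h3, if_neg (fun h => h3 (congrArg Prod.snd h)), map_zero, mul_zero]
    · rw [if_neg h2, if_neg (fun h => h2 (congrArg Prod.fst h)), map_zero, zero_mul]
  have hstar : ∀ p q : U × U', star (μ (Eu p.1 q.1) * μ' (Eu p.2 q.2)) =
      μ (Eu q.1 p.1) * μ' (Eu q.2 p.2) := by
    intro p q
    rw [star_mul, ← map_star, ← map_star, TensHomAux.Eu_star, TensHomAux.Eu_star, hc]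
  have hone : ∑ p : U × U', μ (Eu p.1 p.1) * μ' (Eu p.2 p.2) = 1 := by
    rw [Fintype.sum_prod_type]
    simp only [← Finset.mul_sum]
    rw [← Finset.sum_mul, ← map_sum, ← map_sum, TensHomAux.Eu_sum, TensHomAux.Eu_sum, map_one,
      map_one, one_mul]
  refine ⟨TensHomAux.homOf (fun p q : U × U' => μ (Eu p.1 q.1) * μ' (Eu p.2 q.2)) hmul hstar
    hone, fun a b => ?_⟩
  rw [TensHomAux.homOf_apply]
  have ha : μ a = ∑ i, ∑ j, a i j • μ (Eu i j) := by
    conv_lhs => rw [TensHomAux.eq_sum_Eu a]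
    simp only [map_sum, map_smul]
  have hb : μ' b = ∑ i, ∑ j, b i j • μ' (Eu i j) := by
    conv_lhs => rw [TensHomAux.eq_sum_Eu b]
    simp only [map_sum, map_smul]
  rw [ha, hb, Finset.sum_mul]
  simp only [kl_mul_kr_apply, Fintype.sum_prod_type]
  refine Finset.sum_congr rfl fun i _ => ?_
  rw [Finset.sum_mul, Finset.sum_comm]
  refine Finset.sum_congr rfl fun j _ => ?_
  rw [Finset.mul_sum]
  refine Finset.sum_congr rfl fun k _ => ?_
  rw [Finset.mul_sum]
  refine Finset.sum_congr rfl fun l _ => ?_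
  rw [smul_mul_smul_comm]

theorem norm_tensor_eq [Nonempty U] [Nonempty U'] [Nonempty S] [Nonempty S']
    (lam : CM U →⋆ₐ[ℂ] CM S) (lam' : CM U' →⋆ₐ[ℂ] CM S') {κ : Type} [Fintype κ] (a : κ → CM U)
    (b : κ → CM U') :
    ‖∑ k, (kl (lam (a k)) * kr (lam' (b k)) : CM (S × S'))‖ =
      ‖∑ k, (kl (a k) * kr (b k) : CM (U × U'))‖ := by
  obtain ⟨Λ, hΛ⟩ := exists_tensorHom (C := CM (S × S'))
    ((kl : CM S →⋆ₐ[ℂ] CM (S × S')).comp lam) ((kr : CM S' →⋆ₐ[ℂ] CM (S × S')).comp lam')
    (fun a b => kl_comm_kr _ _)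
  have hs : IsSimpleRing (CM (U × U')) :=
    inferInstanceAs (IsSimpleRing (Matrix (U × U') (U × U') ℂ))
  have hn : Nontrivial (CM (S × S')) :=
    inferInstanceAs (Nontrivial (Matrix (S × S') (S × S') ℂ))
  have hinj : Function.Injective Λ := RingHom.injective (Λ : CM (U × U') →+* CM (S × S'))
  have h1 : Λ (∑ k, (kl (a k) * kr (b k) : CM (U × U'))) =
      ∑ k, (kl (lam (a k)) * kr (lam' (b k)) : CM (S × S')) := by
    rw [map_sum]
    exact Finset.sum_congr rfl fun k _ => hΛ _ _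
  rw [← h1]
  exact NonUnitalStarAlgHom.norm_map Λ hinj _

end Pool.Agent.Lib.EJZ
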