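import Pool.Agent.Lib.EJZ.Hat
import Pool.Agent.Lib.EJZ.Fiber
import Pool.Agent.Lib.EJZ.TensHom
import Pool.Agent.Lib.EJZ.RowCS
import Pool.Agent.Lib.EJZ.LocalIneq

/-!
# The norm in any completion is bounded by the supremum norm on the square

PROOF.  It is enough to show `‖∑ i (f k) * j (g k)‖ ≤ M + const * ε` for every `ε > 0`.  By uniform
continuity (`continuous_vl`, compactness) choose `N > 0` with `‖vl s (f k) - vl s' (f k)‖ ≤ ε` and
`‖vl s (g k) - vl s' (g k)‖ ≤ ε` for all `k` and `|s - s'| ≤ 1/N`.  Let `x r`, `h r` be as in `exists_hat N`, let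
`(U r, lam r)` be the fibre data of `exists_fiber` at `x r`, and let `B r, B' r : CM (U r) →ₗ DimDrop p q` be
the maps for `g = h r` and `g = √(h r)`.  Choose `a k r`, `b k r` with `vl (x r) (f k) = lam r (a k r)`,
`vl (x r) (g k) = lam r (b k r)`.
(1) `f' k := ∑ r, B r (a k r)` satisfies `‖f k - f' k‖ ≤ ε` (pointwise
`vl t (f k) - vl t (f' k) = ∑ r, h r t • (vl t (f k) - vl (x r) (f k))`, and `h r t ≠ 0` only if `|x r - t| ≤ 1/N`), similarly
`g'`.  So `‖∑ i (f k) * j (g k) - ∑ i (f' k) * j (g' k)‖ ≤ ∑ (ε * ‖g k‖ + (‖f k‖ + ε) * ε)`.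
(2) `∑ k, i (f' k) * j (g' k) = ∑ (r, r'), A (r, r') * Y (r, r')` with
`A (r, r') = i (√(h r) • 1) * j (√(h r') • 1)` and
`Y (r, r') = ∑ k, i (B' r (a k r)) * j (B' r' (b k r'))` (`√(h r) • 1 = B' r 1` and `B' r 1 * B' r a = B r a`).
(3) `local_ineq` with `η = i ∘ B' r`, `η₂ = i ∘ B r`, `η' = j ∘ B' r'`, `η₂' = j ∘ B r'`, where
`‖∑ k, kl (a k r) * kr (b k r')‖ = ‖∑ k, kl (vl (x r) (f k)) * kr (vl (x r') (g k))‖ ≤ M` (`norm_tensor_eq`):
`star (Y (r,r')) * Y (r,r') ≤ M² • (i (B r 1) * j (B r' 1))`.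
(4) `∑ (r, r'), i (B r 1) * j (B r' 1) = 1` (as `∑ r, B r 1 = 1`), and `A * star A = i (B r 1) * j (B r' 1)`.
(5) `norm_sum_mul_sq_le`: `‖∑ A Y‖² ≤ ‖∑ A A^*‖ * ‖∑ Y^* Y‖ ≤ 1 * M²`.
-/

open scoped ComplexOrder
open Filter Topology

namespace Pool.Agent.Lib.EJZ

open Pool.Agent.Lib.EJS CStarLim

namespace NormIneqAux

theorem norm_one_le {C : Type*} [CStarAlgebra C] : ‖(1 : C)‖ ≤ 1 := by
  rcases subsingleton_or_nontrivial C with h | h
  · rw [Subsingleton.elim (1 : C) 0, norm_zero]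
    exact zero_le_one
  · rw [CStarRing.norm_one]

section Core

variable {p q : ℕ} {C : Type*} [CStarAlgebra C]
  {R : Type} [Fintype R] {U : R → Type} [∀ r, Fintype (U r)] [∀ r, DecidableEq (U r)]
  {lam : ∀ r, CM (U r) →⋆ₐ[ℂ] CM (Fin p × Fin q)} {h : R → C(unitInterval, ℝ)}
  {B B' : ∀ r, CM (U r) →ₗ[ℂ] DimDrop p q}

theorem mul_B' (h0 : ∀ r t, 0 ≤ h r t) (hB : ∀ r a t, vl t (B r a) = (h r t : ℂ) • lam r a)
    (hB' : ∀ r a t, vl t (B' r a) = ((Real.sqrt (h r t) : ℝ) : ℂ) • lam r a) (r : R)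
    (a b : CM (U r)) : B' r a * B' r b = B r (a * b) := by
  refine vl_ext fun t => ?_
  rw [map_mul, hB', hB', hB, map_mul, smul_mul_smul_comm, ← Complex.ofReal_mul,
    Real.mul_self_sqrt (h0 r t)]

theorem star_B' (hB' : ∀ r a t, vl t (B' r a) = ((Real.sqrt (h r t) : ℝ) : ℂ) • lam r a) (r : R)
    (a : CM (U r)) : star (B' r a) = B' r (star a) := by
  refine vl_ext fun t => ?_
  rw [map_star, hB', hB', star_smul, map_star]
  congr 1
  exact Complex.conj_ofReal _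

theorem sum_B (h1 : ∀ t, ∑ r, h r t = 1)
    (hB : ∀ r a t, vl t (B r a) = (h r t : ℂ) • lam r a) : ∑ r, B r 1 = 1 := by
  refine vl_ext fun t => ?_
  rw [map_sum, map_one]
  have e1 : ∀ r, vl t (B r 1) = (h r t : ℂ) • (1 : CM (Fin p × Fin q)) := fun r => by
    rw [hB, map_one]
  rw [Finset.sum_congr rfl fun r _ => e1 r, ← Finset.sum_smul, ← Complex.ofReal_sum, h1,
    Complex.ofReal_one, one_smul]

theorem core [∀ r, Nonempty (U r)] (hp : 0 < p) (hq : 0 < q)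
    (i j : DimDrop p q →⋆ₐ[ℂ] C) (hc : ∀ x y, i x * j y = j y * i x) {κ : Type} [Fintype κ]
    (h0 : ∀ r t, 0 ≤ h r t) (h1 : ∀ t, ∑ r, h r t = 1)
    (hB : ∀ r a t, vl t (B r a) = (h r t : ℂ) • lam r a)
    (hB' : ∀ r a t, vl t (B' r a) = ((Real.sqrt (h r t) : ℝ) : ℂ) • lam r a)
    (a b : κ → ∀ r, CM (U r)) {M : ℝ} (hM0 : 0 ≤ M)
    (hM : ∀ r r', ‖∑ k, (kl (lam r (a k r)) * kr (lam r' (b k r')) :
      CM ((Fin p × Fin q) × (Fin p × Fin q)))‖ ≤ M) :
    ‖∑ k, i (∑ r, B r (a k r)) * j (∑ r, B r (b k r))‖ ≤ M := by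
  letI : PartialOrder C := CStarAlgebra.spectralOrder C
  haveI : StarOrderedRing C := CStarAlgebra.spectralOrderedRing C
  haveI : Nonempty (Fin p × Fin q) := ⟨(⟨0, hp⟩, ⟨0, hq⟩)⟩
  set A : R × R → C := fun x => i (B' x.1 1) * j (B' x.2 1) with hA
  set Y : R × R → C := fun x => ∑ k, i (B' x.1 (a k x.1)) * j (B' x.2 (b k x.2)) with hY
  have hAY : ∑ k, i (∑ r, B r (a k r)) * j (∑ r, B r (b k r)) = ∑ x, A x * Y x := by
    have e1 : ∀ x, A x * Y x = ∑ k, i (B x.1 (a k x.1)) * j (B x.2 (b k x.2)) := by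
      intro x
      rw [hA, hY]
      simp only
      rw [Finset.mul_sum]
      refine Finset.sum_congr rfl fun k _ => ?_
      have e2 : i (B' x.1 1) * j (B' x.2 1) * (i (B' x.1 (a k x.1)) * j (B' x.2 (b k x.2))) =
          (i (B' x.1 1) * i (B' x.1 (a k x.1))) * (j (B' x.2 1) * j (B' x.2 (b k x.2))) := by
        rw [mul_assoc, mul_assoc, ← mul_assoc (j (B' x.2 1)), ← hc, mul_assoc]
      rw [e2, ← map_mul i, ← map_mul j, mul_B' h0 hB hB', mul_B' h0 hB hB', one_mul, one_mul]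
    rw [Finset.sum_congr rfl fun x _ => e1 x, Finset.sum_comm]
    refine Finset.sum_congr rfl fun k _ => ?_
    rw [map_sum, map_sum, Finset.sum_mul_sum, ← Finset.sum_product']
    rfl
  have hsB : ∀ r, star (B' r 1) = B' r 1 := fun r => by
    rw [star_B' hB', star_one]
  have hAA : ∀ x, A x * star (A x) = i (B x.1 1) * j (B x.2 1) := by
    intro x
    rw [hA]
    simp only
    rw [star_mul, ← map_star i, ← map_star j, hsB, hsB]
    have e2 : i (B' x.1 1) * j (B' x.2 1) * (j (B' x.2 1) * i (B' x.1 1)) =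
        (i (B' x.1 1) * i (B' x.1 1)) * (j (B' x.2 1) * j (B' x.2 1)) := by
      rw [← hc, mul_assoc, ← mul_assoc (j (B' x.2 1)), ← hc, mul_assoc, mul_assoc]
    rw [e2, ← map_mul i, ← map_mul j, mul_B' h0 hB hB', mul_B' h0 hB hB', one_mul, one_mul]
  have hsum : ∑ x : R × R, i (B x.1 1) * j (B x.2 1) = 1 := by
    have e1 : i (∑ r, B r 1) * j (∑ r, B r 1) = 1 := by
      rw [sum_B h1 hB, map_one, map_one, one_mul]
    rw [← e1, map_sum, map_sum, Finset.sum_mul_sum, ← Finset.sum_product']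
    rfl
  have hYY : ∀ x, star (Y x) * Y x ≤ ((M ^ 2 : ℝ) : ℂ) • (i (B x.1 1) * j (B x.2 1)) := by
    intro x
    have e1 := local_ineq (C := C) ((i : DimDrop p q →ₗ[ℂ] C) ∘ₗ B' x.1)
      ((i : DimDrop p q →ₗ[ℂ] C) ∘ₗ B x.1) ((j : DimDrop p q →ₗ[ℂ] C) ∘ₗ B' x.2)
      ((j : DimDrop p q →ₗ[ℂ] C) ∘ₗ B x.2)
      (fun a b => by
        show i (B' x.1 a) * i (B' x.1 b) = i (B x.1 (a * b))
        rw [← map_mul, mul_B' h0 hB hB'])
      (fun a b => by
        show j (B' x.2 a) * j (B' x.2 b) = j (B x.2 (a * b))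
        rw [← map_mul, mul_B' h0 hB hB'])
      (fun a => by
        show star (i (B' x.1 a)) = i (B' x.1 (star a))
        rw [← map_star, star_B' hB'])
      (fun a => by
        show star (j (B' x.2 a)) = j (B' x.2 (star a))
        rw [← map_star, star_B' hB'])
      (fun a b => hc _ _) (fun k => a k x.1) (fun k => b k x.2) (M := M)
      (by
        rw [← norm_tensor_eq (lam x.1) (lam x.2)]
        exact hM x.1 x.2)
    exact e1
  have hbound := norm_sum_mul_sq_le A Y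
  have h2 : ‖∑ x, A x * star (A x)‖ ≤ 1 := by
    rw [Finset.sum_congr rfl fun x _ => hAA x, hsum]
    exact norm_one_le
  have h3 : ‖∑ x, star (Y x) * Y x‖ ≤ M ^ 2 := by
    have e1 : ∑ x, star (Y x) * Y x ≤ ((M ^ 2 : ℝ) : ℂ) • (1 : C) := by
      rw [← hsum, Finset.smul_sum]
      exact Finset.sum_le_sum fun x _ => hYY x
    have e0 : 0 ≤ ∑ x, star (Y x) * Y x :=
      Finset.sum_nonneg fun x _ => star_mul_self_nonneg _
    refine (CStarAlgebra.norm_le_norm_of_nonneg_of_le e0 e1).trans ?_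
    rw [norm_smul]
    have e2 : ‖((M ^ 2 : ℝ) : ℂ)‖ = M ^ 2 := by
      rw [Complex.norm_real, Real.norm_of_nonneg (by positivity)]
    rw [e2]
    exact mul_le_of_le_one_right (by positivity) norm_one_le
  rw [hAY]
  refine abs_le_of_sq_le_sq' ?_ hM0 |>.2
  calc ‖∑ x, A x * Y x‖ ^ 2 ≤ _ := hbound
    _ ≤ 1 * M ^ 2 := mul_le_mul h2 h3 (norm_nonneg _) zero_le_one
    _ = M ^ 2 := one_mul _

theorem approx (h0 : ∀ r t, 0 ≤ h r t) (h1 : ∀ t, ∑ r, h r t = 1)
    (hB : ∀ r a t, vl t (B r a) = (h r t : ℂ) • lam r a) (x : R → unitInterval)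
    {ε : ℝ} (hε : 0 ≤ ε) (f : DimDrop p q) (a : ∀ r, CM (U r))
    (ha : ∀ r, vl (x r) f = lam r (a r))
    (hf : ∀ r t, h r t ≠ 0 → ‖vl t f - vl (x r) f‖ ≤ ε) :
    ‖f - ∑ r, B r (a r)‖ ≤ ε := by
  refine norm_le_of_vl _ hε fun t => ?_
  have e1 : vl t (f - ∑ r, B r (a r)) = ∑ r, (h r t : ℂ) • (vl t f - vl (x r) f) := by
    rw [map_sub, map_sum]
    have e2 : vl t f = ∑ r, (h r t : ℂ) • vl t f := by
      rw [← Finset.sum_smul, ← Complex.ofReal_sum, h1, Complex.ofReal_one, one_smul]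
    conv_lhs => rw [e2]
    rw [← Finset.sum_sub_distrib]
    refine Finset.sum_congr rfl fun r _ => ?_
    rw [hB, smul_sub, ha]
  rw [e1]
  calc ‖∑ r, (h r t : ℂ) • (vl t f - vl (x r) f)‖ ≤ ∑ r, h r t * ε := by
        refine norm_sum_le_of_le _ fun r _ => ?_
        rw [norm_smul, Complex.norm_real, Real.norm_of_nonneg (h0 r t)]
        by_cases hr : h r t = 0
        · rw [hr, zero_mul, zero_mul]
        · exact mul_le_mul_of_nonneg_left (hf r t hr) (h0 r t)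
    _ = ε := by rw [← Finset.sum_mul, h1, one_mul]

end Core

theorem unif {p q : ℕ} {κ : Type} [Fintype κ] (f g : κ → DimDrop p q) {ε : ℝ} (hε : 0 < ε) :
    ∃ N : ℕ, 0 < N ∧ ∀ s t : unitInterval, |(s : ℝ) - t| ≤ 1 / (N : ℝ) →
      ∀ k, ‖vl t (f k) - vl s (f k)‖ ≤ ε ∧ ‖vl t (g k) - vl s (g k)‖ ≤ ε := by
  have key : ∀ u : DimDrop p q, ∃ δ > 0, ∀ s t : unitInterval, |(s : ℝ) - t| < δ →
      ‖vl t u - vl s u‖ ≤ ε := by
    intro u
    have h1 := CompactSpace.uniformContinuous_of_continuous (continuous_vl u)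
    rw [Metric.uniformContinuous_iff] at h1
    obtain ⟨δ, hδ, h2⟩ := h1 ε hε
    refine ⟨δ, hδ, fun s t hst => ?_⟩
    have h3 : dist t s < δ := by
      rw [dist_comm]
      exact hst
    have h4 := h2 h3
    rw [dist_eq_norm] at h4
    exact h4.le
  choose δf hδf hf using fun k => key (f k)
  choose δg hδg hg using fun k => key (g k)
  obtain ⟨δ, hδ, hδ'⟩ : ∃ δ : ℝ, 0 < δ ∧ ∀ k, δ ≤ δf k ∧ δ ≤ δg k := by
    rcases isEmpty_or_nonempty κ with hκ | hκ
    · exact ⟨1, one_pos, fun k => (IsEmpty.false k).elim⟩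
    · refine ⟨Finset.univ.inf' Finset.univ_nonempty fun k => min (δf k) (δg k), ?_, fun k => ?_⟩
      · rw [Finset.lt_inf'_iff]
        exact fun k _ => lt_min (hδf k) (hδg k)
      · have h1 : (Finset.univ.inf' Finset.univ_nonempty fun k => min (δf k) (δg k)) ≤
            min (δf k) (δg k) := Finset.inf'_le _ (Finset.mem_univ k)
        exact ⟨h1.trans (min_le_left _ _), h1.trans (min_le_right _ _)⟩
  obtain ⟨n, hn⟩ := exists_nat_one_div_lt hδ
  refine ⟨n + 1, Nat.succ_pos n, fun s t hst k => ?_⟩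
  have h1 : |(s : ℝ) - t| < δ := by
    refine lt_of_le_of_lt hst ?_
    push_cast
    exact hn
  exact ⟨hf k s t (h1.trans_le (hδ' k).1), hg k s t (h1.trans_le (hδ' k).2)⟩

theorem perturb {p q : ℕ} {C : Type*} [CStarAlgebra C]
    (i j : DimDrop p q →⋆ₐ[ℂ] C) {κ : Type} [Fintype κ] (f g f' g' : κ → DimDrop p q)
    {M ε : ℝ} (hε : 0 ≤ ε) (hf : ∀ k, ‖f k - f' k‖ ≤ ε) (hg : ∀ k, ‖g k - g' k‖ ≤ ε)
    (h : ‖∑ k, i (f' k) * j (g' k)‖ ≤ M) :
    ‖∑ k, i (f k) * j (g k)‖ ≤ M + ∑ k, (‖g k‖ + ‖f k‖ + ε) * ε := by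
  have hi : ∀ u, ‖i u‖ ≤ ‖u‖ := fun u => NonUnitalStarAlgHom.norm_apply_le i u
  have hj : ∀ u, ‖j u‖ ≤ ‖u‖ := fun u => NonUnitalStarAlgHom.norm_apply_le j u
  have e1 : ∑ k, i (f k) * j (g k) = ∑ k, i (f' k) * j (g' k) +
      ∑ k, (i (f k - f' k) * j (g k) + i (f' k) * j (g k - g' k)) := by
    rw [← Finset.sum_add_distrib]
    refine Finset.sum_congr rfl fun k _ => ?_
    rw [map_sub, map_sub]
    noncomm_ring
  rw [e1]
  refine (norm_add_le _ _).trans (add_le_add h ?_)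
  refine norm_sum_le_of_le _ fun k _ => ?_
  have h1 : ‖f' k‖ ≤ ‖f k‖ + ε := by
    have : f' k = f k - (f k - f' k) := by abel
    rw [this]
    exact (norm_sub_le _ _).trans (add_le_add le_rfl (hf k))
  calc ‖i (f k - f' k) * j (g k) + i (f' k) * j (g k - g' k)‖
      ≤ ‖i (f k - f' k)‖ * ‖j (g k)‖ + ‖i (f' k)‖ * ‖j (g k - g' k)‖ :=
        (norm_add_le _ _).trans (add_le_add (norm_mul_le _ _) (norm_mul_le _ _))
    _ ≤ ε * ‖g k‖ + (‖f k‖ + ε) * ε := by
        refine add_le_add ?_ ?_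
        · exact mul_le_mul ((hi _).trans (hf k)) (hj _) (norm_nonneg _) hε
        · exact mul_le_mul ((hi _).trans h1) ((hj _).trans (hg k)) (norm_nonneg _)
            (add_nonneg (norm_nonneg _) hε)
    _ = (‖g k‖ + ‖f k‖ + ε) * ε := by ring

end NormIneqAux

open NormIneqAux

theorem norm_sum_le {p q : ℕ} (hp : 0 < p) (hq : 0 < q) {C : Type*} [CStarAlgebra C]
    (i j : DimDrop p q →⋆ₐ[ℂ] C) (hc : ∀ x y, i x * j y = j y * i x) {κ : Type} [Fintype κ]
    (f g : κ → DimDrop p q) {M : ℝ} (hM : 0 ≤ M)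
    (h : ∀ s t : unitInterval, ‖∑ k, (kl (vl s (f k)) * kr (vl t (g k)) :
      CM ((Fin p × Fin q) × (Fin p × Fin q)))‖ ≤ M) :
    ‖∑ k, i (f k) * j (g k)‖ ≤ M := by
  have key : ∀ ε : ℝ, 0 < ε →
      ‖∑ k, i (f k) * j (g k)‖ ≤ M + ∑ k, (‖g k‖ + ‖f k‖ + ε) * ε := by
    intro ε hε
    obtain ⟨N, hN, hunif⟩ := unif f g hε
    obtain ⟨x, hh, hh0, hh1, hhx, hhl, hhr⟩ := exists_hat N hN
    choose U iF iD iN lam hlam hB using fun r => exists_fiber hp hq (x r)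
    have hs : ∀ r, ∃ B : CM (U r) →ₗ[ℂ] DimDrop p q,
        ∀ a t, vl t (B a) = ((Real.sqrt (hh r t) : ℝ) : ℂ) • lam r a := by
      intro r
      have e1 := hB r ⟨fun t => Real.sqrt (hh r t), (hh r).continuous.sqrt⟩
        (fun h => hhl r fun h' => h (by
          show Real.sqrt (hh r 0) = 0
          rw [h', Real.sqrt_zero]))
        (fun h => hhr r fun h' => h (by
          show Real.sqrt (hh r 1) = 0
          rw [h', Real.sqrt_zero]))
      exact e1
    choose B hBv using fun r => hB r (hh r) (hhl r) (hhr r)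
    choose B' hBv' using hs
    choose af haf using fun k r => hlam r (f k)
    choose ag hag using fun k r => hlam r (g k)
    have hcore := core (lam := lam) (h := hh) (B := B) (B' := B') hp hq i j hc hh0 hh1 hBv hBv'
      af ag hM (fun r r' => by
        have e1 : ∀ k, (kl (lam r (af k r)) * kr (lam r' (ag k r')) :
            CM ((Fin p × Fin q) × (Fin p × Fin q))) =
            kl (vl (x r) (f k)) * kr (vl (x r') (g k)) := fun k => by
          rw [haf k r, hag k r']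
        rw [Finset.sum_congr rfl fun k _ => e1 k]
        exact h _ _)
    refine perturb i j f g (fun k => ∑ r, B r (af k r)) (fun k => ∑ r, B r (ag k r)) hε.le
      (fun k => ?_) (fun k => ?_) hcore
    · exact approx hh0 hh1 hBv x hε.le (f k) (af k) (haf k)
        fun r t hrt => (hunif (x r) t (hhx r t hrt) k).1
    · exact approx hh0 hh1 hBv x hε.le (g k) (ag k) (hag k)
        fun r t hrt => (hunif (x r) t (hhx r t hrt) k).2
  have hlim : Tendsto (fun ε : ℝ => M + ∑ k, (‖g k‖ + ‖f k‖ + ε) * ε) (𝓝[>] 0) (𝓝 M) := by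
    have hcont : Continuous fun ε : ℝ => M + ∑ k, (‖g k‖ + ‖f k‖ + ε) * ε := by fun_prop
    have h1 := hcont.tendsto 0
    simp only [mul_zero, Finset.sum_const_zero, add_zero] at h1
    exact h1.mono_left nhdsWithin_le_nhds
  exact ge_of_tendsto hlim (eventually_nhdsWithin_of_forall key)

end Pool.Agent.Lib.EJZ
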