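import Pool.Agent.Lib.CStarLim.Completion
import Pool.Agent.Lib.EJS.DimPath
import Pool.Agent.Lib.EJZ.Defs

/-!
# Homomorphisms from diagonal data

PROOF.  Copy of `Rep.hom` and `of_path` in `EJS/DimHom.lean`, now keeping the formula.  Let
`σ : Equiv.Perm (Fin p' × Fin q')` be `e₁.trans e₀.symm` (or its inverse, whichever fits) and `V` the path of
`exists_perm_path` (`EJS/DimPath.lean`) with `V 0 = 1` and `V 1` the permutation matrix with
`V 1 * ri e₀ X * star (V 1) = ri e₁ X` for every `X` (permutation matrix `P i j = 1` iff `i = τ j`, so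
`(P Y P^*) a b = Y (τ⁻¹ a) (τ⁻¹ b)`; take `τ⁻¹ a = e₀.symm (e₁ a)`).  Then
`φ f := mkD (t ↦ V t * ri e₀ (bd fun k => vl (ζ k t) f) * star (V t)) _ _`; continuity: all entries are
continuous (or `ri`, `bd` are star homomorphisms, hence contractive, `continuous_vl`, `continuous_pi`).
Homomorphism: `ri`, `bd`, `vl` are star homomorphisms and `V t` is unitary; use `vl_ext`, `vl_mkD`.
-/

open scoped ComplexOrder
open Filter Topology

namespace Pool.Agent.Lib.EJZ

open Pool.Agent.Lib.EJS CStarLim

private theorem perm_conj {T S : Type} [Fintype T] [DecidableEq T] [Fintype S] [DecidableEq S]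
    (e₀ e₁ : T ≃ S) (W : CM T) (hW : ∀ i j, W i j = if i = (e₀.trans e₁.symm) j then 1 else 0)
    (X : CM S) : W * ri e₀ X * star W = ri e₁ X := by
  refine cm_ext fun a b => ?_
  have hW' : ∀ i j, W i j = if j = e₀.symm (e₁ i) then 1 else 0 := by
    intro i j
    rw [hW]
    have : (i = (e₀.trans e₁.symm) j) = (j = e₀.symm (e₁ i)) := by
      rw [Equiv.trans_apply]
      apply propext
      constructor
      · intro h
        rw [h, Equiv.apply_symm_apply, Equiv.symm_apply_apply]
      · intro h
        rw [h, Equiv.apply_symm_apply, Equiv.symm_apply_apply]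
    simp only [this]
  rw [cm_mul, Finset.sum_eq_single (e₀.symm (e₁ b))]
  · rw [cm_star, hW', if_pos rfl, star_one, mul_one, cm_mul,
      Finset.sum_eq_single (e₀.symm (e₁ a))]
    · rw [hW', if_pos rfl, one_mul, ri_apply, ri_apply, Equiv.apply_symm_apply,
        Equiv.apply_symm_apply]
    · intro c _ hc
      rw [hW', if_neg hc, zero_mul]
    · intro h
      exact absurd (Finset.mem_univ _) h
  · intro c _ hc
    rw [cm_star, hW', if_neg hc, star_zero, mul_zero]
  · intro h
    exact absurd (Finset.mem_univ _) h

theorem exists_hom_of_path {p q p' q' : ℕ} {K : Type} [Fintype K] [DecidableEq K]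
    (ζ : K → unitInterval → unitInterval) (hζ : ∀ k, Continuous (ζ k))
    (e₀ e₁ : Fin p' × Fin q' ≃ (Fin p × Fin q) × K)
    (h0 : ∀ f : DimDrop p q, ∃ x : CM (Fin p'), ri e₀ (bd fun k => vl (ζ k 0) f) = kl x)
    (h1 : ∀ f : DimDrop p q, ∃ y : CM (Fin q'), ri e₁ (bd fun k => vl (ζ k 1) f) = kr y) :
    ∃ (φ : DimDrop p q →⋆ₐ[ℂ] DimDrop p' q') (V : C(unitInterval, CM (Fin p' × Fin q'))),
      (∀ t, V t * star (V t) = 1) ∧ (∀ t, star (V t) * V t = 1) ∧
      ∀ f t, vl t (φ f) = V t * ri e₀ (bd fun k => vl (ζ k t) f) * star (V t) := by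
  obtain ⟨V, hV1, hV2, hV0, hVp⟩ := exists_perm_path (e₀.trans e₁.symm)
  have hcont : ∀ f : DimDrop p q, Continuous fun t =>
      V t * ri e₀ (bd fun k => vl (ζ k t) f) * star (V t) := by
    intro f
    have hc : Continuous fun t => (ri e₀ (bd fun k => vl (ζ k t) f) : CM (Fin p' × Fin q')) := by
      refine continuous_pi fun a => continuous_pi fun b => ?_
      have hab : ∀ t, (ri e₀ (bd fun k => vl (ζ k t) f) : CM (Fin p' × Fin q')) a b =
          if (e₀ a).2 = (e₀ b).2 then vl (ζ (e₀ a).2 t) f (e₀ a).1 (e₀ b).1 else 0 := by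
        intro t
        rw [ri_apply, bd_apply]
      simp only [hab]
      split_ifs
      · have h2 : Continuous fun t => vl (ζ (e₀ a).2 t) f :=
          (continuous_vl f).comp (hζ (e₀ a).2)
        exact (continuous_apply (e₀ b).1).comp ((continuous_apply (e₀ a).1).comp h2)
      · exact continuous_const
    exact (V.continuous.mul hc).mul V.continuous.star
  let F : DimDrop p q → C(unitInterval, CM (Fin p' × Fin q')) := fun f =>
    ⟨fun t => V t * ri e₀ (bd fun k => vl (ζ k t) f) * star (V t), hcont f⟩
  have hF : ∀ f t, F f t = V t * ri e₀ (bd fun k => vl (ζ k t) f) * star (V t) := fun f t => rfl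
  have hF0 : ∀ f, ∃ x : CM (Fin p'), F f 0 = kl x := by
    intro f
    obtain ⟨x, hx⟩ := h0 f
    refine ⟨x, ?_⟩
    rw [hF, hV0, star_one, one_mul, mul_one]
    exact hx
  have hF1 : ∀ f, ∃ y : CM (Fin q'), F f 1 = kr y := by
    intro f
    obtain ⟨y, hy⟩ := h1 f
    refine ⟨y, ?_⟩
    rw [hF, perm_conj e₀ e₁ (V 1) hVp]
    exact hy
  have hv : ∀ f t, vl t (mkD (F f) (hF0 f) (hF1 f)) =
      V t * ri e₀ (bd fun k => vl (ζ k t) f) * star (V t) := fun f t => rfl
  let φ : DimDrop p q →⋆ₐ[ℂ] DimDrop p' q' :=
    { toFun := fun f => mkD (F f) (hF0 f) (hF1 f)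
      map_one' := by
        refine vl_ext fun t => ?_
        have h : (fun k => vl (ζ k t) (1 : DimDrop p q)) = 1 := by
          funext k
          rw [map_one]
          rfl
        rw [hv, h, map_one, map_one, map_one, mul_one, hV1]
      map_mul' := by
        intro f g
        refine vl_ext fun t => ?_
        have h : (fun k => vl (ζ k t) (f * g)) =
            (fun k => vl (ζ k t) f) * fun k => vl (ζ k t) g := by
          funext k
          rw [map_mul]
          rfl
        rw [map_mul, hv, hv, hv, h, map_mul, map_mul]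
        set X := ri e₀ (bd fun k => vl (ζ k t) f) with hX
        set Y := ri e₀ (bd fun k => vl (ζ k t) g) with hY
        calc V t * (X * Y) * star (V t) = V t * X * 1 * Y * star (V t) := by
              simp only [mul_assoc, mul_one]
          _ = V t * X * (star (V t) * V t) * Y * star (V t) := by rw [hV2]
          _ = _ := by simp only [mul_assoc]
      map_zero' := by
        refine vl_ext fun t => ?_
        have h : (fun k => vl (ζ k t) (0 : DimDrop p q)) = 0 := by
          funext k
          rw [map_zero]
          rfl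
        rw [hv, h, map_zero, map_zero, map_zero, mul_zero, zero_mul]
      map_add' := by
        intro f g
        refine vl_ext fun t => ?_
        have h : (fun k => vl (ζ k t) (f + g)) =
            (fun k => vl (ζ k t) f) + fun k => vl (ζ k t) g := by
          funext k
          rw [map_add]
          rfl
        rw [map_add, hv, hv, hv, h, map_add, map_add, mul_add, add_mul]
      commutes' := by
        intro r
        refine vl_ext fun t => ?_
        have h : (fun k => vl (ζ k t) (algebraMap ℂ (DimDrop p q) r)) =
            algebraMap ℂ (K → CM (Fin p × Fin q)) r := by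
          funext k
          rw [AlgHomClass.commutes]
          rfl
        rw [hv, h, AlgHomClass.commutes, AlgHomClass.commutes, AlgHomClass.commutes,
          ← Algebra.commutes, mul_assoc, hV1, mul_one]
      map_star' := by
        intro f
        refine vl_ext fun t => ?_
        have h : (fun k => vl (ζ k t) (star f)) = star fun k => vl (ζ k t) f := by
          funext k
          rw [map_star]
          rfl
        rw [map_star, hv, hv, h, map_star, map_star, star_mul, star_mul, star_star, mul_assoc] }
  exact ⟨φ, V, hV1, hV2, fun f t => rfl⟩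

end Pool.Agent.Lib.EJZ
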