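import Pool.Agent.Lib.CStarLim.Completion
import Pool.Agent.Lib.EJS.DimPath
import Pool.Agent.Lib.EJZ.Defs

/-!
# The path from `1` to a selfadjoint unitary

PROOF.  Direct computations; `EJS/DimPath.lean` (`path_mul`, `path_star`, `ez_star`) contains most of them.
For `norm_pth_comm_le`: `pth x τ * y - y * pth x τ = ((1 - z) / 2) • (x * y - y * x)` with `|z| = 1`.
-/

open scoped ComplexOrder
open Filter Topology

namespace Pool.Agent.Lib.EJZ

open Pool.Agent.Lib.EJS CStarLim

/-- `exp(iπτ)` -/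
noncomputable def ex (τ : ℝ) : ℂ := Complex.exp ((Real.pi * τ : ℝ) * Complex.I)

theorem ex_star (τ : ℝ) : ex τ * star (ex τ) = 1 := by
  unfold ex
  rw [Complex.star_def, ← Complex.exp_conj, ← Complex.exp_add, map_mul, Complex.conj_ofReal,
    Complex.conj_I, mul_neg, add_neg_cancel, Complex.exp_zero]

theorem ex_cont : Continuous ex := by
  unfold ex
  fun_prop

theorem norm_ex (τ : ℝ) : ‖ex τ‖ = 1 := Complex.norm_exp_ofReal_mul_I _

variable {T : Type} [Fintype T] [DecidableEq T]

theorem pth_eq (x : CM T) (τ : ℝ) :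
    pth x τ = ((1 + ex τ) / 2) • (1 : CM T) + ((1 - ex τ) / 2) • x := rfl

theorem pth_zero (x : CM T) : pth x 0 = 1 := by
  rw [pth_eq]
  have h : ex 0 = 1 := by simp [ex]
  rw [h, sub_self, zero_div, zero_smul, add_zero]
  norm_num

theorem pth_one (x : CM T) : pth x 1 = x := by
  rw [pth_eq]
  have h : ex 1 = -1 := by simp [ex]
  rw [h, add_neg_cancel, zero_div, zero_smul, zero_add]
  norm_num

theorem continuous_pth (x : CM T) : Continuous (pth x) := by
  have h := ex_cont
  have h2 : pth x = fun τ => ((1 + ex τ) / 2) • (1 : CM T) + ((1 - ex τ) / 2) • x :=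
    funext (pth_eq x)
  rw [h2]
  fun_prop

theorem pth_mul_star {x : CM T} (hs : star x = x) (hx : x * x = 1) (τ : ℝ) :
    pth x τ * star (pth x τ) = 1 := by
  rw [pth_eq]
  exact DimPathAux.path_mul hx hs (ex_star τ)

theorem star_mul_pth {x : CM T} (hs : star x = x) (hx : x * x = 1) (τ : ℝ) :
    star (pth x τ) * pth x τ = 1 := by
  have h1 := DimPathAux.path_mul hx hs (z := star (ex τ)) (by rw [star_star, mul_comm]; exact ex_star τ)
  rw [DimPathAux.path_star hs (star (ex τ)), star_star] at h1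
  rw [pth_eq, DimPathAux.path_star hs (ex τ)]
  exact h1

theorem pth_comm {x y : CM T} (h : x * y = y * x) (τ : ℝ) : pth x τ * y = y * pth x τ := by
  rw [pth_eq, add_mul, mul_add, smul_mul_assoc, smul_mul_assoc, mul_smul_comm, mul_smul_comm, h,
    one_mul, mul_one]

theorem pth_conj {u x : CM T} (hu : star u * u = 1) (τ : ℝ) :
    pth (star u * x * u) τ = star u * pth x τ * u := by
  rw [pth_eq, pth_eq, mul_add, add_mul, mul_smul_comm, mul_smul_comm, smul_mul_assoc,
    smul_mul_assoc, mul_one, hu]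

theorem norm_pth_comm_le (x y : CM T) (τ : ℝ) :
    ‖pth x τ * y - y * pth x τ‖ ≤ ‖x * y - y * x‖ := by
  have h1 : pth x τ * y - y * pth x τ = ((1 - ex τ) / 2) • (x * y - y * x) := by
    rw [pth_eq, add_mul, mul_add, smul_mul_assoc, smul_mul_assoc, mul_smul_comm, mul_smul_comm,
      one_mul, mul_one, smul_sub]
    abel
  have h2 : ‖(1 - ex τ) / 2‖ ≤ 1 := by
    rw [norm_div]
    have h3 : ‖1 - ex τ‖ ≤ 2 := by
      refine (norm_sub_le _ _).trans ?_
      rw [norm_ex, norm_one]
      norm_num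
    have h4 : ‖(2 : ℂ)‖ = 2 := by norm_num
    rw [h4]
    linarith
  rw [h1, norm_smul]
  exact mul_le_of_le_one_left (norm_nonneg _) h2

end Pool.Agent.Lib.EJZ
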