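import Pool.Agent.Lib.EJZ.Pth
import Pool.Agent.Lib.EJZ.SwapF

/-!
# `WM` is unitary

PROOF.  `aM V₀` and `bM V₁` are selfadjoint with square `1` (`f13_star`, `f13_sq`, `g24_star`, `g24_sq`, `V₀`, `V₁`
unitary), so all `pth` are unitary; `sw` is unitary; products of unitaries are unitary.
-/

open scoped ComplexOrder
open Filter Topology

namespace Pool.Agent.Lib.EJZ

open Pool.Agent.Lib.EJS CStarLim

variable {P Q : Type} [Fintype P] [DecidableEq P] [Fintype Q] [DecidableEq Q]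

theorem mul_star_of_two {R : Type*} [Monoid R] [StarMul R] {x y : R} (hx : x * star x = 1)
    (hy : y * star y = 1) : x * y * star (x * y) = 1 := by
  rw [star_mul]
  calc x * y * (star y * star x) = x * (y * star y) * star x := by simp only [mul_assoc]
    _ = 1 := by rw [hy, mul_one, hx]

theorem star_mul_of_two {R : Type*} [Monoid R] [StarMul R] {x y : R} (hx : star x * x = 1)
    (hy : star y * y = 1) : star (x * y) * (x * y) = 1 := by
  rw [star_mul]
  calc star y * star x * (x * y) = star y * (star x * x) * y := by simp only [mul_assoc]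
    _ = 1 := by rw [hx, mul_one, hy]

theorem star_aM (V₀ : CM (P × Q)) : star (aM V₀) = aM V₀ := by
  unfold aM
  rw [star_mul, star_mul, star_star, g24_star, mul_assoc]

theorem aM_sq {V₀ : CM (P × Q)} (h1 : V₀ * star V₀ = 1) (h2 : star V₀ * V₀ = 1) :
    aM V₀ * aM V₀ = 1 := by
  have h3 : (kl V₀ : CM ((P × Q) × (P × Q))) * star (kl V₀) = 1 := by
    rw [← map_star, ← map_mul, h1, map_one]
  have h4 : star (kl V₀ : CM ((P × Q) × (P × Q))) * kl V₀ = 1 := by
    rw [← map_star, ← map_mul, h2, map_one]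
  unfold aM
  calc star (kl V₀) * g24 P Q * kl V₀ * (star (kl V₀) * g24 P Q * kl V₀)
      = star (kl V₀) * g24 P Q * (kl V₀ * star (kl V₀)) * g24 P Q * kl V₀ := by
        simp only [mul_assoc]
    _ = star (kl V₀) * (g24 P Q * g24 P Q) * kl V₀ := by rw [h3, mul_one]; simp only [mul_assoc]
    _ = 1 := by rw [g24_sq, mul_one, h4]

theorem star_bM (V₁ : CM (P × Q)) : star (bM V₁) = bM V₁ := by
  unfold bM
  rw [star_mul, star_mul, star_star, f13_star, mul_assoc]

theorem bM_sq {V₁ : CM (P × Q)} (h1 : V₁ * star V₁ = 1) (h2 : star V₁ * V₁ = 1) :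
    bM V₁ * bM V₁ = 1 := by
  have h3 : (kl V₁ : CM ((P × Q) × (P × Q))) * star (kl V₁) = 1 := by
    rw [← map_star, ← map_mul, h1, map_one]
  have h4 : star (kl V₁ : CM ((P × Q) × (P × Q))) * kl V₁ = 1 := by
    rw [← map_star, ← map_mul, h2, map_one]
  unfold bM
  calc star (kl V₁) * f13 P Q * kl V₁ * (star (kl V₁) * f13 P Q * kl V₁)
      = star (kl V₁) * f13 P Q * (kl V₁ * star (kl V₁)) * f13 P Q * kl V₁ := by
        simp only [mul_assoc]
    _ = star (kl V₁) * (f13 P Q * f13 P Q) * kl V₁ := by rw [h3, mul_one]; simp only [mul_assoc]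
    _ = 1 := by rw [f13_sq, mul_one, h4]

theorem rM_mul_star {V₀ V₁ : CM (P × Q)} (h1 : V₀ * star V₀ = 1) (h2 : star V₀ * V₀ = 1)
    (h3 : V₁ * star V₁ = 1) (h4 : star V₁ * V₁ = 1) (s t : ℝ) :
    rM V₀ V₁ s t * star (rM V₀ V₁ s t) = 1 := by
  unfold rM
  split_ifs
  · exact mul_star_of_two (pth_mul_star (star_bM V₁) (bM_sq h3 h4) _)
      (pth_mul_star (star_aM V₀) (aM_sq h1 h2) _)
  · exact mul_star_of_two (pth_mul_star (star_aM V₀) (aM_sq h1 h2) _)
      (pth_mul_star (star_bM V₁) (bM_sq h3 h4) _)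

theorem star_mul_rM {V₀ V₁ : CM (P × Q)} (h1 : V₀ * star V₀ = 1) (h2 : star V₀ * V₀ = 1)
    (h3 : V₁ * star V₁ = 1) (h4 : star V₁ * V₁ = 1) (s t : ℝ) :
    star (rM V₀ V₁ s t) * rM V₀ V₁ s t = 1 := by
  unfold rM
  split_ifs
  · exact star_mul_of_two (star_mul_pth (star_bM V₁) (bM_sq h3 h4) _)
      (star_mul_pth (star_aM V₀) (aM_sq h1 h2) _)
  · exact star_mul_of_two (star_mul_pth (star_aM V₀) (aM_sq h1 h2) _)
      (star_mul_pth (star_bM V₁) (bM_sq h3 h4) _)

theorem WM_mul_star {V : unitInterval → CM (P × Q)} (h1 : ∀ t, V t * star (V t) = 1)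
    (h2 : ∀ t, star (V t) * V t = 1) (s t : unitInterval) : WM V s t * star (WM V s t) = 1 := by
  have h3 : (kr (V t) : CM ((P × Q) × (P × Q))) * star (kr (V t)) = 1 := by
    rw [← map_star, ← map_mul, h1, map_one]
  have h4 : star (kl (V s) : CM ((P × Q) × (P × Q))) * kl (V s) = 1 := by
    rw [← map_star, ← map_mul, h2, map_one]
  unfold WM
  refine mul_star_of_two (mul_star_of_two (mul_star_of_two h3 ?_)
    (rM_mul_star (h1 0) (h2 0) (h1 1) (h2 1) _ _)) ?_
  · rw [sw_star, sw_sq]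
  · rw [star_star, h4]

theorem star_mul_WM {V : unitInterval → CM (P × Q)} (h1 : ∀ t, V t * star (V t) = 1)
    (h2 : ∀ t, star (V t) * V t = 1) (s t : unitInterval) : star (WM V s t) * WM V s t = 1 := by
  have h3 : star (kr (V t) : CM ((P × Q) × (P × Q))) * kr (V t) = 1 := by
    rw [← map_star, ← map_mul, h2, map_one]
  have h4 : (kl (V s) : CM ((P × Q) × (P × Q))) * star (kl (V s)) = 1 := by
    rw [← map_star, ← map_mul, h1, map_one]
  unfold WM
  refine star_mul_of_two (star_mul_of_two (star_mul_of_two h3 ?_)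
    (star_mul_rM (h1 0) (h2 0) (h1 1) (h2 1) _ _)) ?_
  · rw [sw_star, sw_sq]
  · rw [star_star, h4]

end Pool.Agent.Lib.EJZ
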