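import Pool.Agent.Lib.EJZ.FlipL
import Pool.Agent.Lib.EJZ.Comp

/-!
# The flip lemma along the system

PROOF.  The finitely many functions `t ↦ vl t z`, `z ∈ F`, are uniformly continuous: there is `δ > 0` with
`‖vl s z - vl t z‖ ≤ ε / 6` for `|s - t| ≤ δ`.  Take `M = n + K` with `(1/2)^K ≤ δ` and apply `flip_lemma` to
`tr s h` with `L = (1/2)^(m-n) ≤ δ` (`isDiag_tr`).
-/

open scoped ComplexOrder
open Filter Topology

namespace Pool.Agent.Lib.EJZ

open Pool.Agent.Lib.EJS CStarLim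

universe v

/-- uniform continuity -/
theorem exists_modulus {p q : ℕ} (z : DimDrop p q) {ε : ℝ} (hε : 0 < ε) :
    ∃ δ : ℝ, 0 < δ ∧ ∀ s t : unitInterval, |(s : ℝ) - t| ≤ δ → ‖vl s z - vl t z‖ ≤ ε := by
  have h1 : UniformContinuous fun t => vl t z :=
    CompactSpace.uniformContinuous_of_continuous (continuous_vl z)
  obtain ⟨δ, hδ, h⟩ := Metric.uniformContinuous_iff.1 h1 ε hε
  refine ⟨δ / 2, by positivity, fun s t hst => ?_⟩
  have h2 : dist s t < δ := by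
    rw [Subtype.dist_eq, Real.dist_eq]
    linarith
  have h3 := h h2
  rw [dist_eq_norm] at h3
  exact h3.le

theorem exists_modulus_finset {p q : ℕ} (F : Finset (DimDrop p q)) {ε : ℝ} (hε : 0 < ε) :
    ∃ δ : ℝ, 0 < δ ∧ ∀ z ∈ F, ∀ s t : unitInterval, |(s : ℝ) - t| ≤ δ →
      ‖vl s z - vl t z‖ ≤ ε := by
  classical
  induction F using Finset.induction_on with
  | empty => exact ⟨1, one_pos, fun z hz => absurd hz (Finset.notMem_empty z)⟩
  | insert a F ha ih =>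
    obtain ⟨δ, hδ, h⟩ := ih
    obtain ⟨δ', hδ', h'⟩ := exists_modulus a hε
    refine ⟨min δ δ', lt_min hδ hδ', fun z hz s t hst => ?_⟩
    rcases Finset.mem_insert.1 hz with rfl | hz
    · exact h' s t (hst.trans (min_le_right _ _))
    · exact h z hz s t (hst.trans (min_le_left _ _))

theorem flip_stage {p q : ℕ → ℕ} (s : IndSys fun n => DimDrop (p n) (q n))
    (hp : ∀ n, 0 < p n) (hq : ∀ n, 0 < q n) (hd : ∀ n, IsDiag (1 / 2) (s.map n)) (n : ℕ)
    (F : Finset (DimDrop (p n) (q n))) {ε : ℝ} (hε : 0 < ε) :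
    ∃ M, n ≤ M ∧ ∀ (m : ℕ) (h : n ≤ m), M ≤ m → ∀ (C : Type v) [CStarAlgebra C]
      (i j : DimDrop (p m) (q m) →⋆ₐ[ℂ] C), (∀ x y, i x * j y = j y * i x) →
      ∃ w : C, w * star w = 1 ∧ star w * w = 1 ∧
        (∀ c, (∀ x, c * i x = i x * c) → (∀ x, c * j x = j x * c) → c * w = w * c) ∧
        ∀ z ∈ F, ‖w * i (tr s h z) * star w - j (tr s h z)‖ ≤ ε := by
  obtain ⟨δ, hδ, h⟩ := exists_modulus_finset F (by positivity : 0 < ε / 6)
  obtain ⟨K, hK⟩ := exists_pow_lt_of_lt_one hδ (by norm_num : (1 / 2 : ℝ) < 1)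
  refine ⟨n + K, Nat.le_add_right _ _, fun m hnm hM C _ i j hc => ?_⟩
  obtain ⟨w, hw1, hw2, hw3, hw4⟩ := flip_lemma (hp m) (hq m) (by positivity)
    (isDiag_tr s hd hnm) i j hc
  refine ⟨w, hw1, hw2, hw3, fun z hz => ?_⟩
  have h1 := hw4 z (ε / 6) fun a b hab => h z hz a b (hab.trans ?_)
  · linarith
  · exact (pow_le_pow_of_le_one (by norm_num) (by norm_num) (by omega : K ≤ m - n)).trans hK.le

end Pool.Agent.Lib.EJZ
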