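import Pool.Agent.Lib.EJZ.JStep
import Pool.Agent.Lib.EJZ.Dbl
import Pool.Agent.Lib.EJZ.Comp

/-!
# One step of the construction

PROOF.  Apply `exists_dbl p q` and then `exists_J (p * p) (q * q)`; so `p' = p * p * (q * q + 1)` and
`q' = q * q * (p * p * (q * q + 1) + 1)`, `φ = J ∘ dbl`, `ρ = J ∘ dbl'`.  `IsDiag (1 * (1/2))` by `IsDiag.comp`.
Coprimality: `p * p` is coprime to `q * q` (`h`) and to `p * p * (q * q + 1) + 1`; `q * q + 1` is coprime to
`q * q` and to `p * p * (q * q + 1) + 1`.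
-/

open scoped ComplexOrder
open Filter Topology

namespace Pool.Agent.Lib.EJZ

open Pool.Agent.Lib.EJS CStarLim

theorem coprime_step (p q : ℕ) (h : Nat.Coprime p q) :
    Nat.Coprime (p * p * (q * q + 1)) (q * q * (p * p * (q * q + 1) + 1)) := by
  have h1 : Nat.Coprime (p * p) (q * q) := (h.mul_left h).mul_right (h.mul_left h)
  have h2 : Nat.Coprime (p * p * (q * q + 1)) (p * p * (q * q + 1) + 1) :=
    (Nat.coprime_self_add_right).2 (Nat.coprime_one_right _)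
  have h3 : Nat.Coprime (q * q + 1) (q * q) :=
    (Nat.coprime_self_add_left).2 (Nat.coprime_one_left _)
  exact (h1.mul_left h3).mul_right h2

theorem exists_step (p q : ℕ) (hp : 2 ≤ p) (hq : 2 ≤ q) (h : Nat.Coprime p q) :
    ∃ p' q' : ℕ, p < p' ∧ q < q' ∧ Nat.Coprime p' q' ∧
      ∃ φ ρ : DimDrop p q →⋆ₐ[ℂ] DimDrop p' q', IsDiag (1 / 2) φ ∧
        ∀ f g, φ f * ρ g = ρ g * φ f := by
  obtain ⟨φ, ρ, hφ, hφρ⟩ := exists_dbl p q (by omega) (by omega)
  obtain ⟨J, hJ⟩ := exists_J (p * p) (q * q) (by positivity) (by positivity)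
  refine ⟨_, _, ?_, ?_, coprime_step p q h, J.comp φ, J.comp ρ, ?_, fun f g => ?_⟩
  · nlinarith [Nat.zero_le (p * p * (q * q))]
  · nlinarith [Nat.zero_le (q * q * (p * p * (q * q + 1)))]
  · have h1 := IsDiag.comp zero_le_one hφ hJ
    rwa [one_mul] at h1
  · rw [StarAlgHom.comp_apply, StarAlgHom.comp_apply, ← map_mul, hφρ, map_mul]

end Pool.Agent.Lib.EJZ
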