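import Pool.Agent.Lib.EJS.Main

/-!
# Uniqueness: any two algebras with the properties `IsJiangSu` are isomorphic
-/

open scoped ComplexOrder
open Filter Topology

namespace Pool.Agent.Lib.EJZ

open Pool.Agent.Lib.EJS

universe u

/-- the tensor product is symmetric -/
theorem isTensor_symm {A B C : Type*} [CStarAlgebra A] [CStarAlgebra B] [CStarAlgebra C]
    {i : A →⋆ₐ[ℂ] C} {j : B →⋆ₐ[ℂ] C} (h : IsTensor i j) : IsTensor j i where
  comm b a := (h.comm a b).symm
  inj := by
    intro n b a hb hsum k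
    classical
    -- a basis of the span of the `a k`
    let V : Submodule ℂ A := Submodule.span ℂ (Set.range a)
    have hV : FiniteDimensional ℂ V := FiniteDimensional.span_of_finite ℂ (Set.finite_range a)
    let bas := Module.finBasis ℂ V
    have hmem : ∀ k, a k ∈ V := fun k => Submodule.subset_span ⟨k, rfl⟩
    let c : Fin n → Fin (Module.finrank ℂ V) → ℂ := fun k l => bas.repr ⟨a k, hmem k⟩ l
    have ha : ∀ k, a k = ∑ l, c k l • (bas l : A) := by
      intro k
      have h1 := bas.sum_repr ⟨a k, hmem k⟩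
      have h2 := congrArg (Subtype.val) h1
      rw [AddSubmonoidClass.coe_finsetSum] at h2
      exact h2.symm
    have hli : LinearIndependent ℂ fun l => (bas l : A) :=
      bas.linearIndependent.map' V.subtype (Submodule.ker_subtype V)
    have h3 : ∑ l, i (bas l : A) * j (∑ k, c k l • b k) = 0 := by
      rw [← hsum]
      have e1 : ∀ l, i (bas l : A) * j (∑ k, c k l • b k) =
          ∑ k, c k l • (j (b k) * i (bas l : A)) := by
        intro l
        rw [map_sum, Finset.mul_sum]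
        refine Finset.sum_congr rfl fun k _ => ?_
        rw [map_smul, mul_smul_comm, (h.comm _ _).eq]
      have e2 : ∀ k, j (b k) * i (a k) = ∑ l, c k l • (j (b k) * i (bas l : A)) := by
        intro k
        rw [ha k, map_sum, Finset.mul_sum]
        refine Finset.sum_congr rfl fun l _ => ?_
        rw [map_smul, mul_smul_comm]
      rw [Finset.sum_congr rfl fun l _ => e1 l, Finset.sum_congr rfl fun k _ => e2 k,
        Finset.sum_comm]
    have h4 := h.inj _ (fun l => (bas l : A)) (fun l => ∑ k, c k l • b k) hli h3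
    have h5 : ∀ k l, c k l = 0 := by
      intro k l
      exact (Fintype.linearIndependent_iff.1 hb) (fun k => c k l) (h4 l) k
    rw [ha k]
    exact Finset.sum_eq_zero fun l _ => by rw [h5, zero_smul]
  dense := by
    have h1 : {x : C | ∃ b a, x = j b * i a} = {x : C | ∃ a b, x = i a * j b} := by
      ext x
      constructor
      · rintro ⟨b, a, rfl⟩
        exact ⟨a, b, (h.comm a b).symm.eq⟩
      · rintro ⟨a, b, rfl⟩
        exact ⟨b, a, (h.comm a b).eq⟩
    rw [h1]
    exact h.dense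

/-- tensoring with an algebra satisfying `IsJiangSu` does not change an algebra satisfying
`IsJiangSu` -/
theorem equivZStable_self {Y Z : Type u} [CStarAlgebra Y] [CStarAlgebra Z] (hY : IsJiangSu Y)
    (hZ : IsJiangSu Z) : EquivZStable Z (1 : Unit →* (Y ≃⋆ₐ[ℂ] Y)) := by
  classical
  have := hY.simple
  have := hY.separable
  have hc : CentralHoms Y Y := by
    intro F S ε hε
    obtain ⟨ρ, hρ⟩ := hY.central (F ∪ S) ε hε
    exact ⟨ρ, fun z hz a ha => hρ z (Finset.mem_union_right _ hz) a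
      (Finset.mem_union_left _ ha)⟩
  obtain ⟨ψ, hψ, -⟩ := exists_central_seq hc ∅ Set.countable_empty
  have hfix : ∀ n : ℕ, HasRW n (fix (1 : Unit →* (Y ≃⋆ₐ[ℂ] Y))) := fun n =>
    (hY.hasRW n).map (StarAlgHom.codRestrict ψ (fix (1 : Unit →* (Y ≃⋆ₐ[ℂ] Y))) fun z =>
      ⟨fun a => hψ z a, fun g => by
        have h4 : g = 1 := rfl
        rw [h4, Seq.act_one]⟩)
  obtain ⟨θ, h1, h2⟩ := exists_theta hZ (1 : Unit →* (Y ≃⋆ₐ[ℂ] Y)) hfix
  exact equivZStable_of_theta hZ _ θ h1 h2

/-- **Uniqueness of the Jiang-Su algebra.** -/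
theorem isJiangSu_unique {Y Z : Type u} [CStarAlgebra Y] [CStarAlgebra Z] (hY : IsJiangSu Y)
    (hZ : IsJiangSu Z) : Nonempty (Y ≃⋆ₐ[ℂ] Z) := by
  have h1 := equivZStable_self hY hZ
  have h2 := equivZStable_self hZ hY
  obtain ⟨⟨C, hC, i, j, β, hβ⟩, h3⟩ := h1
  obtain ⟨σ, -⟩ := h3 C i j β hβ
  have h4 : IsTensorAction (1 : Unit →* (Z ≃⋆ₐ[ℂ] Z)) j i (1 : Unit →* (C ≃⋆ₐ[ℂ] C)) :=
    ⟨isTensor_symm hβ.tensor, fun g a => rfl, fun g z => rfl⟩
  obtain ⟨τ, -⟩ := h2.2 C j i 1 h4
  exact ⟨σ.trans τ.symm⟩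

end Pool.Agent.Lib.EJZ
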